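import Mathlib

set_option autoImplicit false

/-! Iterated Cauchy-Schwarz: a generalised von Neumann estimate with phases depending on the
step. -/

namespace Pool.Agent.H905Z.CS

open Finset ComplexConjugate

variable {G R : Type*} [AddCommGroup G] [Fintype G] [AddCommGroup R]

/-- non-degeneracy of order `k` of the frequency function `lam` on `T` -/
def ND : ℕ → Finset ℤ → (ℤ → R) → Prop
  | 0, T, lam => ∀ t ∈ T, lam t ≠ 0
  | k + 1, T, lam => ∀ h : ℤ, h ≠ 0 →
      ND k (T.filter (fun t => t + h ∈ T)) (fun t => lam t - lam (t + h))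

/-- a family of characters of `G` indexed by `R` -/
structure Chars (Ψ : R → G → ℂ) : Prop where
  add : ∀ r m m', Ψ r (m + m') = Ψ r m * Ψ r m'
  norm : ∀ r m, ‖Ψ r m‖ = 1
  sub : ∀ r r' m, Ψ (r - r') m = Ψ r m * conj (Ψ r' m)
  sum : ∀ r, r ≠ 0 → ∑ m, Ψ r m = 0

theorem sq_norm_le (f b : G → ℂ) (hb : ∀ m, ‖b m‖ ≤ 1) :
    ‖∑ m, b m * f m‖ ^ 2 ≤ Fintype.card G * ∑ m, ‖f m‖ ^ 2 := by
  have h1 : ‖∑ m, b m * f m‖ ≤ ∑ m, ‖f m‖ := by
    refine (norm_sum_le _ _).trans (sum_le_sum fun m _ => ?_)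
    rw [norm_mul]
    have := hb m
    have := norm_nonneg (f m)
    nlinarith
  have h2 := sq_sum_le_card_mul_sum_sq (s := (univ : Finset G)) (f := fun m => ‖f m‖)
  rw [card_univ] at h2
  exact (pow_le_pow_left₀ (norm_nonneg _) h1 2).trans h2

theorem main {Ψ : R → G → ℂ} (hΨ : Chars Ψ) (P : ℕ) (hP : 0 < P) (L : ℕ) :
    ∀ (θ : ℝ), 0 < θ → θ ≤ 1 → 1 / (P : ℝ) ≤ θ ^ (2 ^ L) →
    ∀ (T : Finset ℤ), T ⊆ Ioc 0 (P : ℤ) → ∀ (lam : ℤ → R), ND L T lam →
    ∀ (c : ℤ → ℂ), (∀ t, ‖c t‖ ≤ 1) → ∀ (u : Fin L → G) (B : Fin L → G → ℂ),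
    (∀ l m, ‖B l m‖ ≤ 1) →
    ‖∑ m, ∑ t ∈ T, c t * Ψ (lam t) m * ∏ l, B l (m + t • u l)‖ ≤ 3 * P * θ * Fintype.card G := by
  have hP' : (0 : ℝ) < P := by exact_mod_cast hP
  have hG : (0 : ℝ) < Fintype.card G := by exact_mod_cast Fintype.card_pos
  induction L with
  | zero =>
    intro θ hθ _ _ T _ lam hND c _ u B _
    have : ∑ m, ∑ t ∈ T, c t * Ψ (lam t) m * ∏ l, B l (m + t • u l) = 0 := by
      rw [sum_comm]
      refine sum_eq_zero fun t ht => ?_
      simp only [univ_eq_empty, prod_empty, mul_one]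
      rw [← mul_sum, hΨ.sum _ (hND t ht), mul_zero]
    rw [this, norm_zero]
    positivity
  | succ L ih =>
    intro θ hθ hθ1 hPθ T hT lam hND c hc u B hB
    set F : ℤ → G → ℂ := fun t m =>
      c t * Ψ (lam t) m * ∏ l : Fin L, B l.succ (m + t • u l.succ) with hF
    have hFn : ∀ t m, ‖F t m‖ ≤ 1 := by
      intro t m
      simp only [hF, norm_mul, hΨ.norm, mul_one, norm_prod]
      have h1 : ∏ l : Fin L, ‖B l.succ (m + t • u l.succ)‖ ≤ 1 :=
        prod_le_one (fun _ _ => norm_nonneg _) fun _ _ => hB _ _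
      have h2 := hc t
      have h3 : 0 ≤ ∏ l : Fin L, ‖B l.succ (m + t • u l.succ)‖ :=
        prod_nonneg fun _ _ => norm_nonneg _
      nlinarith [norm_nonneg (c t)]
    have e1 : ∑ m, ∑ t ∈ T, c t * Ψ (lam t) m * ∏ l, B l (m + t • u l) =
        ∑ n, B 0 n * ∑ t ∈ T, F t (n - t • u 0) := by
      simp only [mul_sum]
      rw [sum_comm, sum_comm (s := univ) (t := T)]
      refine sum_congr rfl fun t _ => ?_
      rw [← Equiv.sum_comp (Equiv.subRight (t • u 0))]
      refine sum_congr rfl fun n _ => ?_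
      simp only [Equiv.subRight_apply, Fin.prod_univ_succ, hF, sub_add_cancel]
      ring
    have e2 := sq_norm_le (fun n => ∑ t ∈ T, F t (n - t • u 0)) (B 0) (hB 0)
    set K : ℤ → ℂ := fun h => ∑ m, ∑ t ∈ T.filter (fun t => t + h ∈ T),
      F t m * conj (F (t + h) (m - h • u 0)) with hK
    have e3 : ((∑ n, ‖∑ t ∈ T, F t (n - t • u 0)‖ ^ 2 : ℝ) : ℂ) =
        ∑ h ∈ Ioo (-(P : ℤ)) P, K h := by
      push_cast
      have a1 : ∀ n, ((‖∑ t ∈ T, F t (n - t • u 0)‖ : ℂ)) ^ 2 =
          ∑ t ∈ T, ∑ t' ∈ T, F t (n - t • u 0) * conj (F t' (n - t' • u 0)) := by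
        intro n
        rw [← Complex.mul_conj', map_sum, sum_mul_sum]
      simp only [a1, hK]
      rw [sum_comm]
      have a2 : ∀ h : ℤ, ∑ m, ∑ t ∈ T.filter (fun t => t + h ∈ T),
          F t m * conj (F (t + h) (m - h • u 0)) =
          ∑ t ∈ T, if t + h ∈ T then ∑ m, F t m * conj (F (t + h) (m - h • u 0)) else 0 := by
        intro h
        rw [sum_comm, sum_filter]
      simp only [a2]
      rw [sum_comm (s := Ioo (-(P : ℤ)) P)]
      refine sum_congr rfl fun t ht => ?_
      rw [sum_comm, ← sum_filter]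
      symm
      refine sum_bij (fun h _ => t + h) ?_ ?_ ?_ ?_
      · intro h hh; exact (mem_filter.1 hh).2
      · intro h _ h' _ hh; omega
      · intro t' ht'
        have b1 := mem_Ioc.1 (hT ht)
        have b2 := mem_Ioc.1 (hT ht')
        refine ⟨t' - t, ?_, by ring⟩
        rw [mem_filter, mem_Ioo]
        refine ⟨⟨by omega, by omega⟩, by simpa using ht'⟩
      · intro h _
        rw [← Equiv.sum_comp (Equiv.subRight (t • u 0))]
        refine sum_congr rfl fun n _ => ?_
        simp only [Equiv.subRight_apply, add_smul]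
        congr 3
        abel
    have hθ2 : 1 / (P : ℝ) ≤ θ ^ 2 := by
      refine hPθ.trans (pow_le_pow_of_le_one hθ.le hθ1 ?_)
      calc 2 = 2 ^ 1 := by norm_num
        _ ≤ 2 ^ (L + 1) := Nat.pow_le_pow_right (by norm_num) (by omega)
    have hK0 : ‖K 0‖ ≤ P * Fintype.card G := by
      refine (norm_sum_le _ _).trans ?_
      have : ∀ m : G, ‖∑ t ∈ T.filter (fun t => t + 0 ∈ T),
          F t m * conj (F (t + 0) (m - (0 : ℤ) • u 0))‖ ≤ P := by
        intro m
        refine (norm_sum_le _ _).trans ?_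
        have b1 : ∀ t ∈ T.filter (fun t => t + 0 ∈ T),
            ‖F t m * conj (F (t + 0) (m - (0 : ℤ) • u 0))‖ ≤ 1 := by
          intro t _
          rw [norm_mul, Complex.norm_conj]
          have := hFn t m
          have := hFn (t + 0) (m - (0 : ℤ) • u 0)
          nlinarith [norm_nonneg (F t m), norm_nonneg (F (t + 0) (m - (0 : ℤ) • u 0))]
        refine (sum_le_card_nsmul _ _ _ b1).trans ?_
        have b2 : (T.filter (fun t => t + 0 ∈ T)).card ≤ P := by
          refine (card_le_card ((filter_subset _ _).trans hT)).trans ?_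
          simp
        rw [nsmul_eq_mul, mul_one]
        exact_mod_cast b2
      refine (sum_le_sum fun m _ => this m).trans ?_
      simp [mul_comm]
    have hKh : ∀ h : ℤ, h ≠ 0 → ‖K h‖ ≤ 3 * P * θ ^ 2 * Fintype.card G := by
      intro h hh
      have := ih (θ ^ 2) (by positivity) (pow_le_one₀ hθ.le hθ1)
        (by rw [← pow_mul]; convert hPθ using 2; ring)
        (T.filter (fun t => t + h ∈ T)) ((filter_subset _ _).trans hT)
        (fun t => lam t - lam (t + h)) (hND h hh)
        (fun t => c t * conj (c (t + h)) * conj (Ψ (lam (t + h)) (-(h • u 0))))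
        (fun t => by
          rw [norm_mul, norm_mul, Complex.norm_conj, Complex.norm_conj, hΨ.norm, mul_one]
          have := hc t
          have := hc (t + h)
          nlinarith [norm_nonneg (c t), norm_nonneg (c (t + h))])
        (fun l => u l.succ)
        (fun l y => B l.succ y * conj (B l.succ (y + h • (u l.succ - u 0))))
        (fun l y => by
          rw [norm_mul, Complex.norm_conj]
          have := hB l.succ y
          have := hB l.succ (y + h • (u l.succ - u 0))
          nlinarith [norm_nonneg (B l.succ y),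
            norm_nonneg (B l.succ (y + h • (u l.succ - u 0)))])
      convert this using 2
      simp only [hK]
      refine sum_congr rfl fun m _ => sum_congr rfl fun t _ => ?_
      have b1 : ∀ l : Fin L, m - h • u 0 + (t + h) • u l.succ =
          m + t • u l.succ + h • (u l.succ - u 0) := by
        intro l
        rw [add_smul, smul_sub]
        abel
      simp only [hF, hΨ.sub, map_mul, map_prod, prod_mul_distrib, b1]
      rw [sub_eq_add_neg m, hΨ.add, map_mul]
      ring
    have e4 : ∑ n, ‖∑ t ∈ T, F t (n - t • u 0)‖ ^ 2 ≤ 7 * P ^ 2 * θ ^ 2 * Fintype.card G := by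
      have a1 : ∑ n, ‖∑ t ∈ T, F t (n - t • u 0)‖ ^ 2 ≤ ‖∑ h ∈ Ioo (-(P : ℤ)) P, K h‖ := by
        rw [← e3, Complex.norm_real]
        exact le_abs_self _
      have h0 : (0 : ℤ) ∈ Ioo (-(P : ℤ)) P := by
        rw [mem_Ioo]; omega
      have a2 : ‖∑ h ∈ Ioo (-(P : ℤ)) P, K h‖ ≤
          P * Fintype.card G + 2 * P * (3 * P * θ ^ 2 * Fintype.card G) := by
        rw [← add_sum_erase _ _ h0]
        refine (norm_add_le _ _).trans (add_le_add hK0 ?_)
        refine (norm_sum_le _ _).trans ?_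
        refine (sum_le_card_nsmul _ _ _ fun h hh => hKh h (ne_of_mem_erase hh)).trans ?_
        rw [nsmul_eq_mul]
        refine mul_le_mul_of_nonneg_right ?_ (by positivity)
        have : ((Ioo (-(P : ℤ)) P).erase 0).card ≤ 2 * P := by
          refine card_erase_le.trans ?_
          rw [Int.card_Ioo]; omega
        exact_mod_cast this
      have a3 : (P : ℝ) ≤ P ^ 2 * θ ^ 2 := by
        rw [div_le_iff₀ hP'] at hθ2
        nlinarith
      nlinarith
    rw [e1]
    have e5 : ‖∑ n, B 0 n * ∑ t ∈ T, F t (n - t • u 0)‖ ^ 2 ≤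
        (3 * P * θ * Fintype.card G) ^ 2 := by
      refine e2.trans ?_
      have : (0 : ℝ) ≤ P ^ 2 * θ ^ 2 * Fintype.card G * Fintype.card G := by positivity
      nlinarith
    exact (pow_le_pow_iff_left₀ (norm_nonneg _) (by positivity) two_ne_zero).1 e5

/-- non-degeneracy of the inverses of primes -/
theorem nd_primes {K : Type*} [CommRing K] (a : K) (Pr : Finset ℤ) (P L : ℕ) (inv : ℤ → K)
    (hpr : ∀ p ∈ Pr, Prime p ∧ (2 : ℤ) ^ L < p ∧ p ≤ P ∧ inv p * (p : K) = 1)
    (ha : ∀ N : ℤ, N ≠ 0 → |N| ≤ 2 ^ L * 2 ^ L * (P : ℤ) ^ (2 ^ L) → a * (N : K) ≠ 0) :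
    ∀ (k j : ℕ), k + j = L → ∀ (T : Finset ℤ) (lam : ℤ → K) (S : Finset ℤ) (n : ℤ → ℤ),
      (∀ c, c ∉ S → n c = 0) → (∃ c, n c ≠ 0) → S.card ≤ 2 ^ j → (∀ c, |n c| ≤ 2 ^ j) →
      (∀ t ∈ T, (∀ c ∈ S, t + c ∈ Pr) ∧ lam t = a * ∑ c ∈ S, (n c : K) * inv (t + c)) →
      ND k T lam := by
  intro k
  induction k with
  | zero =>
    intro j hj T lam S n hS ⟨c0, hc0⟩ hcard hn hT t ht
    obtain ⟨h1, h2⟩ := hT t ht
    have hj' : j = L := by omega
    subst hj'
    have hc0S : c0 ∈ S := by
      by_contra h; exact hc0 (hS c0 h)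
    set N : ℤ := ∑ c ∈ S, n c * ∏ c' ∈ S.erase c, (t + c') with hN
    have hP1 : (1 : ℤ) ≤ P := by
      obtain ⟨_, b2, b3, _⟩ := hpr _ (h1 c0 hc0S)
      have : (0 : ℤ) < 2 ^ j := by positivity
      omega
    have hN0 : N ≠ 0 := by
      intro h0
      obtain ⟨b1, b2, _, _⟩ := hpr _ (h1 c0 hc0S)
      have d1 : (t + c0) ∣ ∑ c ∈ S.erase c0, n c * ∏ c' ∈ S.erase c, (t + c') := by
        refine dvd_sum fun c hc => Dvd.dvd.mul_left ?_ _
        exact dvd_prod_of_mem _ (mem_erase.2 ⟨(ne_of_mem_erase hc).symm, hc0S⟩)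
      have d2 : (t + c0) ∣ n c0 * ∏ c' ∈ S.erase c0, (t + c') := by
        rw [hN, ← add_sum_erase _ _ hc0S] at h0
        have : n c0 * ∏ c' ∈ S.erase c0, (t + c') =
            -∑ c ∈ S.erase c0, n c * ∏ c' ∈ S.erase c, (t + c') := by linarith
        rw [this]
        exact d1.neg_right
      rcases b1.dvd_or_dvd d2 with d3 | d3
      · have := Int.le_of_dvd (abs_pos.2 hc0) ((dvd_abs _ _).2 d3)
        have := hn c0
        omega
      · obtain ⟨c', hc', d4⟩ := (b1.dvd_finsetProd_iff _).1 d3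
        obtain ⟨b1', b2', _, _⟩ := hpr _ (h1 c' (mem_of_mem_erase hc'))
        have hpos : (0 : ℤ) < 2 ^ j := by positivity
        have := (b1.associated_of_dvd b1' d4)
        rw [Int.associated_iff] at this
        have := ne_of_mem_erase hc'
        omega
    have hNb : |N| ≤ 2 ^ j * 2 ^ j * (P : ℤ) ^ (2 ^ j) := by
      refine (abs_sum_le_sum_abs _ _).trans ?_
      have b1 : ∀ c ∈ S, |n c * ∏ c' ∈ S.erase c, (t + c')| ≤ 2 ^ j * (P : ℤ) ^ (2 ^ j) := by
        intro c _
        rw [abs_mul, abs_prod]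
        refine mul_le_mul (hn c) ?_ (prod_nonneg fun _ _ => abs_nonneg _) (by positivity)
        refine (prod_le_prod (g := fun _ => (P : ℤ)) (fun _ _ => abs_nonneg _)
          fun c' hc' => ?_).trans ?_
        · obtain ⟨_, b2, b3, _⟩ := hpr _ (h1 c' (mem_of_mem_erase hc'))
          have hpos : (0 : ℤ) < 2 ^ j := by positivity
          rw [abs_of_pos (by omega)]
          exact b3
        · rw [prod_const]
          exact pow_le_pow_right₀ hP1 (card_erase_le.trans hcard)
      refine (sum_le_card_nsmul _ _ _ b1).trans ?_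
      rw [nsmul_eq_mul, mul_assoc]
      refine mul_le_mul_of_nonneg_right ?_ (by positivity)
      exact_mod_cast hcard
    intro hl
    apply ha N hN0 hNb
    have : a * (N : K) = lam t * ∏ c' ∈ S, ((t + c' : ℤ) : K) := by
      rw [h2, hN, mul_assoc, sum_mul]
      push_cast
      congr 1
      refine sum_congr rfl fun c hc => ?_
      obtain ⟨_, _, _, b4⟩ := hpr _ (h1 c hc)
      rw [← mul_prod_erase _ _ hc]
      push_cast at b4
      linear_combination (-(n c : K) * ∏ c' ∈ S.erase c, ((t : K) + c')) * b4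
    rw [this, hl, zero_mul]
  | succ k ih =>
    intro j hj T lam S n hS ⟨c0, hc0⟩ hcard hn hT h hh
    refine ih (j + 1) (by omega) _ _ (S ∪ S.image (fun c => c + h)) (fun c => n c - n (c - h))
      ?_ ?_ ?_ ?_ ?_
    · intro c hc
      rw [mem_union, not_or] at hc
      rw [hS c hc.1, hS (c - h) fun hm => hc.2 (mem_image.2 ⟨c - h, hm, by ring⟩), sub_zero]
    · by_contra hcon
      push Not at hcon
      have b1 : ∀ i : ℕ, n (c0 - i * h) ≠ 0 := by
        intro i
        induction i with
        | zero => simpa using hc0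
        | succ i ihi =>
          have := hcon (c0 - i * h)
          have e : c0 - ((i + 1 : ℕ) : ℤ) * h = c0 - i * h - h := by push_cast; ring
          rw [e]
          omega
      have b2 : (S : Set ℤ).Infinite := by
        refine Set.infinite_of_injective_forall_mem (f := fun i : ℕ => c0 - i * h) ?_ ?_
        · intro i i' hii
          have : (i : ℤ) * h = i' * h := by
            simp only at hii; linarith
          exact_mod_cast mul_right_cancel₀ hh this
        · intro i
          by_contra hm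
          exact b1 i (hS _ hm)
      exact b2 S.finite_toSet
    · refine (card_union_le _ _).trans ?_
      have := card_image_le (s := S) (f := fun c => c + h)
      rw [pow_succ]; omega
    · intro c
      have b1 := hn c
      have b2 := hn (c - h)
      have := abs_sub (n c) (n (c - h))
      rw [pow_succ]; linarith
    · intro t ht
      obtain ⟨ht1, ht2⟩ := mem_filter.1 ht
      obtain ⟨a1, a2⟩ := hT t ht1
      obtain ⟨a3, a4⟩ := hT _ ht2
      constructor
      · intro c hc
        rcases mem_union.1 hc with hc | hc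
        · exact a1 c hc
        · obtain ⟨c', hc', rfl⟩ := mem_image.1 hc
          have := a3 c' hc'
          have e : t + (c' + h) = t + h + c' := by ring
          rwa [e]
      · rw [a2, a4, ← mul_sub]
        congr 1
        have b1 : ∑ c ∈ S, (n c : K) * inv (t + c) =
            ∑ c ∈ S ∪ S.image (fun c => c + h), (n c : K) * inv (t + c) :=
          sum_subset subset_union_left fun c _ hc => by simp [hS c hc]
        have b2 : ∑ c ∈ S, (n c : K) * inv (t + h + c) =
            ∑ c ∈ S ∪ S.image (fun c => c + h), (n (c - h) : K) * inv (t + c) := by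
          rw [← sum_subset (subset_union_right (s₁ := S)) fun c _ hc => by
            rw [hS (c - h) fun hm => hc (mem_image.2 ⟨c - h, hm, by ring⟩)]; simp]
          rw [sum_image fun c _ c' _ hcc => by simpa using hcc]
          refine sum_congr rfl fun c _ => ?_
          have e : t + (c + h) = t + h + c := by ring
          rw [add_sub_cancel_right, e]
        rw [b1, b2, ← sum_sub_distrib]
        refine sum_congr rfl fun c _ => ?_
        push_cast
        ring

theorem nd_inv {K : Type*} [CommRing K] (a : K) (Pr : Finset ℤ) (P L : ℕ) (inv : ℤ → K)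
    (hpr : ∀ p ∈ Pr, Prime p ∧ (2 : ℤ) ^ L < p ∧ p ≤ P ∧ inv p * (p : K) = 1)
    (ha : ∀ N : ℤ, N ≠ 0 → |N| ≤ 2 ^ L * 2 ^ L * (P : ℤ) ^ (2 ^ L) → a * (N : K) ≠ 0) :
    ND L Pr (fun t => a * inv t) := by
  refine nd_primes a Pr P L inv hpr ha L 0 rfl Pr _ {0} (fun c => if c = 0 then 1 else 0)
    ?_ ⟨0, by simp⟩ (by simp) ?_ ?_
  · intro c hc
    simp only [mem_singleton] at hc
    simp [hc]
  · intro c
    split_ifs <;> simp
  · intro t ht
    simpa using ht

end Pool.Agent.H905Z.CS
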