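import Pool.Agent.H905Z.Ent
import Pool.Agent.H905Z.CS

set_option autoImplicit false

/-! The cyclic model: one scale of the entropy decrement argument. -/

namespace Pool.Agent.H905Z.Model

open Finset Pool.Agent.H905Z.Ent ComplexConjugate

theorem sum_val {β : Type*} [AddCommMonoid β] (X : ℕ) [NeZero X] (f : ℕ → β) :
    ∑ m : ZMod X, f m.val = ∑ k ∈ range X, f k := by
  refine sum_bij (fun m _ => m.val) ?_ ?_ ?_ ?_
  · intro m _; exact mem_range.2 (ZMod.val_lt m)
  · intro a _ b _ h; exact ZMod.val_injective X h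
  · intro k hk; exact ⟨(k : ZMod X), mem_univ _, ZMod.val_cast_of_lt (mem_range.1 hk)⟩
  · intro _ _; rfl

theorem count_mod (M K v : ℕ) (hv : v < M) :
    ∑ k ∈ range (M * K), (if k % M = v then (1 : ℝ) else 0) = K := by
  induction K with
  | zero => simp
  | succ K ih =>
    rw [Nat.mul_succ, sum_range_add, ih]
    have : ∑ j ∈ range M, (if (M * K + j) % M = v then (1 : ℝ) else 0) = 1 := by
      rw [sum_eq_single v]
      · rw [Nat.mul_add_mod, Nat.mod_eq_of_lt hv, if_pos rfl]
      · intro j hj hjv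
        rw [Nat.mul_add_mod, Nat.mod_eq_of_lt (mem_range.1 hj), if_neg hjv]
      · intro h; exact absurd (mem_range.2 hv) h
    rw [this]; push_cast; ring

theorem cnt_mod (X : ℕ) [NeZero X] (M : ℕ) (hM : M ∣ X) (m : ZMod X) :
    cnt (fun m : ZMod X => m.val % M) (m.val % M) * M = X := by
  obtain ⟨K, hK⟩ := hM
  have hM0 : 0 < M := by
    rcases Nat.eq_zero_or_pos M with h | h
    · exact absurd (by rw [hK, h, zero_mul]) (NeZero.ne X)
    · exact h
  have e : cnt (fun m : ZMod X => m.val % M) (m.val % M) =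
      ∑ k ∈ range X, (if k % M = m.val % M then (1 : ℝ) else 0) := by
    rw [← sum_val X (fun k => if k % M = m.val % M then (1 : ℝ) else 0)]
    unfold cnt
    rw [card_filter]
    push_cast
    refine sum_congr rfl fun _ _ => ?_
    congr
  rw [e]
  have e2 := count_mod M K (m.val % M) (Nat.mod_lt _ hM0)
  rw [← hK] at e2
  rw [e2, hK]
  push_cast
  ring

theorem val_add_modEq (X : ℕ) [NeZero X] (M : ℕ) (hM : M ∣ X) (m : ZMod X) (j : ℕ) :
    (m + j).val ≡ m.val + j [MOD M] := by
  have : (m + j).val ≡ m.val + j [MOD X] := by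
    rw [← ZMod.natCast_eq_natCast_iff]
    simp
  exact this.of_dvd hM

theorem cov (X : ℕ) [NeZero X] (M : ℕ) (hM : M ∣ X) (m m' : ZMod X) :
    (Equiv.addRight (1 : ZMod X) m).val % M = (Equiv.addRight (1 : ZMod X) m').val % M ↔
      m.val % M = m'.val % M := by
  have h1 := val_add_modEq X M hM m 1
  have h2 := val_add_modEq X M hM m' 1
  simp only [Nat.cast_one] at h1 h2
  simp only [Equiv.coe_addRight]
  constructor
  · intro h
    exact Nat.ModEq.add_right_cancel' 1 (h1.symm.trans (Nat.ModEq.trans h h2))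
  · intro h
    exact h1.trans ((Nat.ModEq.add_right 1 h).trans h2.symm)

theorem pow_shift (X : ℕ) (j : ℕ) (m : ZMod X) :
    ((Equiv.addRight (1 : ZMod X)) ^ j) m = m + j := by
  induction j with
  | zero => simp
  | succ j ih =>
    rw [pow_succ', Equiv.Perm.mul_apply, ih]
    simp [add_assoc]

theorem modEq_prod {M : ℕ} (Pr : Finset ℕ) (hpr : ∀ p ∈ Pr, p.Prime)
    (hcop : ∀ p ∈ Pr, Nat.Coprime M p) (a b : ℕ) :
    a ≡ b [MOD M * ∏ p ∈ Pr, p] ↔ a ≡ b [MOD M] ∧ ∀ p ∈ Pr, a ≡ b [MOD p] := by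
  induction Pr using Finset.induction_on with
  | empty => simp
  | insert p s hp ih =>
    rw [prod_insert hp, ← mul_assoc, mul_right_comm]
    have c1 : Nat.Coprime (M * ∏ p ∈ s, p) p := by
      refine Nat.Coprime.mul_left (hcop p (mem_insert_self _ _)) ?_
      refine Nat.Coprime.prod_left fun p' hp' => ?_
      refine (Nat.coprime_primes (hpr p' (mem_insert_of_mem hp'))
        (hpr p (mem_insert_self _ _))).2 ?_
      rintro rfl
      exact hp hp'
    rw [← Nat.modEq_and_modEq_iff_modEq_mul c1,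
      ih (fun p hp => hpr p (mem_insert_of_mem hp)) (fun p hp => hcop p (mem_insert_of_mem hp))]
    simp only [mem_insert, forall_eq_or_imp]
    tauto

theorem sum_dvd_fin (p j : ℕ) (hp : 0 < p) :
    ∑ y : Fin p, (if p ∣ (y : ℕ) + j then (1 : ℝ) else 0) = 1 := by
  haveI : NeZero p := ⟨hp.ne'⟩
  rw [Fin.sum_univ_eq_sum_range (fun y => if p ∣ y + j then (1 : ℝ) else 0) p,
    ← sum_val p (fun y => if p ∣ y + j then (1 : ℝ) else 0)]
  have : ∀ m : ZMod p, p ∣ m.val + j ↔ m = -(j : ZMod p) := by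
    intro m
    rw [← ZMod.natCast_eq_zero_iff]
    push_cast
    rw [ZMod.natCast_zmod_val, add_eq_zero_iff_eq_neg]
  simp [this]

theorem count_dvd_le (p y P : ℕ) (hy : y < p) (hP : P < 2 * p) :
    ∑ j ∈ range P, (if p ∣ y + j then (1 : ℝ) else 0) ≤ 3 := by
  rw [sum_boole]
  have : (range P).filter (fun j => p ∣ y + j) ⊆ {0, p - y, 2 * p - y} := by
    intro j hj
    obtain ⟨h1, k, hk⟩ := mem_filter.1 hj
    rw [mem_range] at h1
    have hk3 : k < 3 := by
      by_contra h
      have : p * 3 ≤ p * k := Nat.mul_le_mul_left p (by omega)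
      omega
    simp only [mem_insert, mem_singleton]
    interval_cases k <;> omega
  have h2 := (card_le_card this).trans (card_le_three)
  exact_mod_cast h2

theorem entropy_step {A : Type*} (X : ℕ) [NeZero X] (x : ZMod X → A) (M : ℕ) (Pr : Finset ℕ)
    (P J : ℕ) (hM : M * ∏ p ∈ Pr, p ∣ X) (hpr : ∀ p ∈ Pr, p.Prime)
    (hcop : ∀ p ∈ Pr, Nat.Coprime M p) (hsz : ∀ p ∈ Pr, p ≤ P ∧ P < 2 * p) (hP : 0 < P)
    (f : ℕ → ℕ → ℕ × (Fin J → A) → ℝ) (hf : ∀ p j w, |f p j w| ≤ 1) (lam : ℝ) (h0 : 0 ≤ lam)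
    (h1 : 4 * lam ≤ 1) :
    lam * ∑ m : ZMod X, ∑ p ∈ Pr, (1 / P : ℝ) * ∑ j ∈ range P,
      ((p : ℝ) * (if p ∣ m.val + j then 1 else 0) - 1) *
        f p j (m.val % M, blk (Equiv.addRight (1 : ZMod X)) x J m) ≤
    (CH (blk (Equiv.addRight (1 : ZMod X)) x J) (fun m => m.val % M) -
      CH (blk (Equiv.addRight (1 : ZMod X)) x J) (fun m => m.val % (M * ∏ p ∈ Pr, p))) +
      X * (Pr.card * (4 * lam) ^ 2) := by
  have hP' : (0 : ℝ) < P := by exact_mod_cast hP
  let Y : ZMod X → (∀ p : Pr, Fin (p : ℕ)) := fun m p =>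
    ⟨m.val % p, Nat.mod_lt _ (hpr p p.2).pos⟩
  haveI : Nonempty (∀ p : Pr, Fin (p : ℕ)) := ⟨Y 0⟩
  let g : ℕ × (Fin J → A) → ∀ p : Pr, Fin (p : ℕ) → ℝ := fun w p y =>
    lam * ((1 / P : ℝ) * ∑ j ∈ range P,
      (((p : ℕ) : ℝ) * (if (p : ℕ) ∣ (y : ℕ) + j then 1 else 0) - 1) * f p j w)
  have hcard : (Fintype.card (∀ p : Pr, Fin (p : ℕ)) : ℝ) = ((∏ p ∈ Pr, p : ℕ) : ℝ) := by
    rw [Fintype.card_pi]
    simp only [Fintype.card_fin]
    rw [prod_coe_sort Pr (fun p => p)]
  have hX : (0 : ℝ) < X := by exact_mod_cast NeZero.pos X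
  have hM0 : (0 : ℝ) < M := by
    have : M ≠ 0 := by
      rintro rfl
      rw [zero_mul, zero_dvd_iff] at hM
      exact NeZero.ne X hM
    exact_mod_cast Nat.pos_of_ne_zero this
  have key := variational (blk (Equiv.addRight (1 : ZMod X)) x J) (fun m => m.val % M)
    (fun m => m.val % (M * ∏ p ∈ Pr, p)) Y
    (fun m m' => by
      have := modEq_prod Pr hpr hcop m.val m'.val
      unfold Nat.ModEq at this
      rw [this]
      refine and_congr Iff.rfl ?_
      simp only [Y, funext_iff, Fin.mk.injEq, Subtype.forall])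
    (fun m => by
      have a1 := cnt_mod X _ hM m
      have a2 := cnt_mod X M ((dvd_mul_right _ _).trans hM) m
      rw [hcard]
      rw [Nat.cast_mul] at a1
      apply mul_right_cancel₀ hM0.ne'
      rw [a2, ← a1]
      ring)
    (fun w y => ∑ p, g w p (y p)) (Pr.card * (4 * lam) ^ 2)
    (fun w => by
      have := mgf (B := fun p : Pr => Fin (p : ℕ)) (g w) (4 * lam) h1
        (fun p y => by
          obtain ⟨s1, s2⟩ := hsz p p.2
          have s1' : ((p : ℕ) : ℝ) ≤ P := by exact_mod_cast s1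
          simp only [g]
          rw [abs_mul, abs_mul, abs_of_nonneg h0, abs_of_pos (by positivity : (0 : ℝ) < 1 / P),
            mul_comm 4 lam]
          refine mul_le_mul_of_nonneg_left ?_ h0
          rw [one_div, inv_mul_le_iff₀ hP']
          refine (abs_sum_le_sum_abs _ _).trans ?_
          have b1 : ∀ j ∈ range P, |(((p : ℕ) : ℝ) * (if (p : ℕ) ∣ (y : ℕ) + j then 1 else 0) - 1) *
              f p j w| ≤ ((p : ℕ) : ℝ) * (if (p : ℕ) ∣ (y : ℕ) + j then 1 else 0) + 1 := by
            intro j _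
            rw [abs_mul]
            have c1 := hf p j w
            have c2 : |((p : ℕ) : ℝ) * (if (p : ℕ) ∣ (y : ℕ) + j then 1 else 0) - 1| ≤
                ((p : ℕ) : ℝ) * (if (p : ℕ) ∣ (y : ℕ) + j then 1 else 0) + 1 := by
              have : (0 : ℝ) ≤ ((p : ℕ) : ℝ) * (if (p : ℕ) ∣ (y : ℕ) + j then 1 else 0) := by
                split_ifs <;> positivity
              rw [abs_le]; constructor <;> linarith
            nlinarith [abs_nonneg (f p j w), abs_nonneg
              (((p : ℕ) : ℝ) * (if (p : ℕ) ∣ (y : ℕ) + j then 1 else 0) - 1)]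
          refine (sum_le_sum b1).trans ?_
          rw [sum_add_distrib, ← mul_sum]
          have c3 := count_dvd_le p y P y.2 s2
          simp only [sum_const, card_range, nsmul_eq_mul, mul_one]
          have : (0 : ℝ) ≤ ((p : ℕ) : ℝ) := by positivity
          nlinarith)
        (fun p => by
          simp only [g]
          rw [← mul_sum, ← mul_sum, sum_comm]
          have : ∀ j ∈ range P, ∑ y : Fin (p : ℕ),
              (((p : ℕ) : ℝ) * (if (p : ℕ) ∣ (y : ℕ) + j then 1 else 0) - 1) * f p j w = 0 := by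
            intro j _
            rw [← sum_mul, sum_sub_distrib, ← mul_sum, sum_dvd_fin _ _ (hpr p p.2).pos]
            simp
          rw [sum_eq_zero this]
          simp)
      simpa using this)
  rw [ZMod.card] at key
  refine le_trans (le_of_eq ?_) key
  rw [mul_sum]
  refine sum_congr rfl fun m _ => ?_
  rw [mul_sum, ← sum_coe_sort Pr]
  refine sum_congr rfl fun p _ => ?_
  simp only [g, Y]
  congr 2
  refine sum_congr rfl fun j _ => ?_
  have : (p : ℕ) ∣ m.val + j ↔ (p : ℕ) ∣ m.val % p + j := by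
    rw [Nat.dvd_iff_mod_eq_zero, Nat.dvd_iff_mod_eq_zero, Nat.mod_add_mod]
  simp only [this]

/-- the characters of the cyclic model -/
noncomputable def Psi (X q : ℕ) [NeZero q] (r : ZMod q) (m : ZMod X) : ℂ :=
  ZMod.stdAddChar (r * (m.val : ZMod q))

theorem norm_std (q : ℕ) [NeZero q] (r : ZMod q) : ‖ZMod.stdAddChar r‖ = 1 := by
  rw [ZMod.stdAddChar_apply]; simp

theorem chars (X q : ℕ) [NeZero X] [NeZero q] (h : q ∣ X) : CS.Chars (Psi X q) where
  add r m m' := by
    unfold Psi
    rw [← AddChar.map_add_eq_mul, ← mul_add]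
    congr 2
    have := val_add_modEq X q h m m'.val
    rw [ZMod.natCast_zmod_val, ← ZMod.natCast_eq_natCast_iff] at this
    rw [this]; push_cast; rfl
  norm r m := norm_std _ _
  sub r r' m := by
    unfold Psi
    rw [sub_mul, sub_eq_add_neg, AddChar.map_add_eq_mul, AddChar.map_neg_eq_inv,
      Complex.inv_eq_conj (norm_std _ _)]
  sum r hr := by
    unfold Psi
    obtain ⟨K, hK⟩ := h
    rw [sum_val X (fun k => ZMod.stdAddChar (r * (k : ZMod q))), hK]
    clear hK
    induction K with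
    | zero => simp
    | succ K ih =>
      rw [Nat.mul_succ, sum_range_add, ih, zero_add]
      have e : ∀ j : ℕ, ((q * K + j : ℕ) : ZMod q) = (j : ZMod q) := by
        intro j; push_cast; simp
      simp only [e]
      rw [← sum_val q (fun k => ZMod.stdAddChar (r * (k : ZMod q)))]
      simp only [ZMod.natCast_zmod_val, mul_comm r]
      rw [AddChar.sum_mulShift r (ZMod.isPrimitive_stdAddChar q), if_neg hr]
      simp

end Pool.Agent.H905Z.Model
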