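import Mathlib

set_option autoImplicit false

/-! Choice of dyadic scales of primes and of a rational approximation. -/

namespace Pool.Agent.H905Z.Scales

open Finset

/-- primes in `(2^i, 2^(i+1)]` -/
def prs (i : ℕ) : Finset ℕ := (Ioc (2 ^ i) (2 ^ (i + 1))).filter Nat.Prime

theorem card_prs_le (i : ℕ) : (prs i).card ≤ 2 ^ i := by
  refine (card_filter_le _ _).trans ?_
  rw [Nat.card_Ioc, pow_succ]
  omega

theorem not_summable_prs : ¬ Summable (fun i : ℕ => ((prs i).card : ℝ) / 2 ^ i) := by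
  intro hs
  apply not_summable_one_div_on_primes
  set f : ℕ → ℝ := Set.indicator {p | p.Prime} (fun n : ℕ ↦ (1 : ℝ) / n) with hf
  have hf0 : ∀ n, 0 ≤ f n := fun n => Set.indicator_nonneg (fun _ _ => by positivity) n
  have key : ∀ I : ℕ, ∑ n ∈ Ioc 0 (2 ^ I), f n ≤ ∑ i ∈ range I, ((prs i).card : ℝ) / 2 ^ i := by
    intro I
    induction I with
    | zero =>
      have : Ioc 0 (2 ^ 0) = ({1} : Finset ℕ) := by decide
      rw [this]
      simp [hf, Nat.not_prime_one]
    | succ I ih =>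
      rw [sum_range_succ, ← sum_Ioc_consecutive f (m := 0) (n := 2 ^ I) (k := 2 ^ (I + 1))
        (by positivity) (Nat.pow_le_pow_right (by norm_num) (by omega))]
      refine add_le_add ih ?_
      have e : ∑ n ∈ Ioc (2 ^ I) (2 ^ (I + 1)), f n = ∑ n ∈ prs I, (1 : ℝ) / n := by
        unfold prs
        rw [sum_filter]
        refine sum_congr rfl fun n _ => ?_
        simp [hf, Set.indicator_apply]
      rw [e]
      have b : ∀ n ∈ prs I, (1 : ℝ) / n ≤ 1 / 2 ^ I := by
        intro n hn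
        have := (mem_Ioc.1 (mem_filter.1 hn).1).1
        have h2 : ((2 ^ I : ℕ) : ℝ) ≤ n := by exact_mod_cast this.le
        push_cast at h2
        exact one_div_le_one_div_of_le (by positivity) h2
      refine (sum_le_card_nsmul _ _ _ b).trans ?_
      rw [nsmul_eq_mul]
      exact le_of_eq (by ring)
  refine summable_of_sum_range_le hf0 (c := ∑' i : ℕ, ((prs i).card : ℝ) / 2 ^ i) fun N => ?_
  have h1 : ∑ n ∈ range N, f n ≤ ∑ n ∈ Ioc 0 (2 ^ N), f n := by
    have e : ∑ n ∈ range N, f n = ∑ n ∈ (range N).erase 0, f n := by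
      rw [sum_erase]
      simp [hf]
    rw [e]
    refine sum_le_sum_of_subset_of_nonneg ?_ fun n _ _ => hf0 n
    intro n hn
    have a1 := ne_of_mem_erase hn
    have a2 := mem_range.1 (mem_of_mem_erase hn)
    have a3 : N < 2 ^ N := Nat.lt_two_pow_self
    rw [mem_Ioc]; omega
  exact h1.trans ((key N).trans (hs.sum_le_tsum _ fun i _ => by positivity))

/-- good scales -/
def Good (L : ℕ) (ρ ε : ℝ) (i : ℕ) : Prop :=
  L ≤ i ∧ 3 * 2 ^ (i + 1) * ρ ^ (i + 1) ≤ ε * (prs i).card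

open scoped Classical in
theorem exists_scales (L : ℕ) (ρ ε : ℝ) (h0 : 0 < ρ) (h1 : ρ < 1) (hε : 0 < ε) (C : ℝ) :
    ∃ I : ℕ, C < ∑ i ∈ (range I).filter (Good L ρ ε), ((prs i).card : ℝ) / 2 ^ i := by
  by_contra hcon
  push Not at hcon
  apply not_summable_prs
  have s1 : Summable (fun i : ℕ => if Good L ρ ε i then ((prs i).card : ℝ) / 2 ^ i else 0) := by
    refine summable_of_sum_range_le (c := C) (fun i => by split_ifs <;> positivity) fun I => ?_
    rw [← sum_filter]
    exact hcon I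
  have s2 : Summable (fun i : ℕ => if i < L then (1 : ℝ) else 0) := by
    refine summable_of_ne_finset_zero (s := range L) fun i hi => ?_
    rw [mem_range] at hi
    simp [hi]
  have s3 : Summable (fun i : ℕ => 6 / ε * ρ * ρ ^ i) :=
    (summable_geometric_of_lt_one h0.le h1).mul_left _
  refine Summable.of_nonneg_of_le (fun i => by positivity) (fun i => ?_) ((s1.add s2).add s3)
  have p1 : 0 ≤ 6 / ε * ρ * ρ ^ i := by positivity
  have p2 : (0 : ℝ) ≤ if i < L then (1 : ℝ) else 0 := by split_ifs <;> norm_num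
  by_cases hg : Good L ρ ε i
  · rw [if_pos hg]; linarith
  · rw [if_neg hg]
    by_cases hi : i < L
    · rw [if_pos hi]
      have : ((prs i).card : ℝ) / 2 ^ i ≤ 1 := by
        rw [div_le_one (by positivity)]
        exact_mod_cast card_prs_le i
      linarith
    · have h2 : ε * (prs i).card < 3 * 2 ^ (i + 1) * ρ ^ (i + 1) := by
        by_contra h3
        exact hg ⟨by omega, not_lt.1 h3⟩
      have : ((prs i).card : ℝ) / 2 ^ i ≤ 6 / ε * ρ * ρ ^ i := by
        rw [div_le_iff₀ (by positivity)]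
        have e : 6 / ε * ρ * ρ ^ i * 2 ^ i = (3 * 2 ^ (i + 1) * ρ ^ (i + 1)) / ε := by
          field_simp; ring
        rw [e, le_div_iff₀ hε]
        linarith
      linarith

theorem exists_rho (L : ℕ) : ∃ ρ : ℝ, 0 < ρ ∧ ρ < 1 ∧ ρ ^ (2 ^ L) = 1 / 2 := by
  refine ⟨(1 / 2 : ℝ) ^ (((2 ^ L : ℕ) : ℝ)⁻¹), by positivity, ?_, ?_⟩
  · exact Real.rpow_lt_one (by norm_num) (by norm_num) (by positivity)
  · exact Real.rpow_inv_natCast_pow (by norm_num) (by positivity)

theorem exists_gap {α : ℝ} (hα : Irrational α) (B : ℕ) :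
    ∃ μ : ℝ, 0 < μ ∧ ∀ n b : ℤ, n ≠ 0 → |n| ≤ B → μ ≤ |n * α - b| := by
  have h1 : ∀ n : ℤ, ∃ μ : ℝ, 0 < μ ∧ (n ≠ 0 → ∀ b : ℤ, μ ≤ |n * α - b|) := by
    intro n
    by_cases hn : n = 0
    · exact ⟨1, one_pos, fun h => absurd hn h⟩
    · refine ⟨|n * α - round (n * α)|, ?_, fun _ b => round_le _ _⟩
      rw [abs_pos, sub_ne_zero]
      exact (hα.intCast_mul hn).ne_int _
  choose μ hμ hμ' using h1
  have hne : (Icc (-(B : ℤ)) B).Nonempty := ⟨0, by simp⟩
  refine ⟨(Icc (-(B : ℤ)) B).inf' hne μ, (lt_inf'_iff _).2 fun n _ => hμ n, fun n b hn hB => ?_⟩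
  exact (inf'_le μ (mem_Icc.2 (abs_le.1 hB))).trans (hμ' n hn b)

theorem exists_approx {α : ℝ} (hα : Irrational α) (Q B q₀ : ℕ) (hQ : 0 < Q) (η : ℝ)
    (hη : 0 < η) : ∃ (q : ℕ) (a : ℤ), q₀ < q ∧ Nat.Coprime q Q ∧ |q * α - a| ≤ η ∧
      ∀ n : ℤ, n ≠ 0 → |n| ≤ B → ¬ (q : ℤ) ∣ n * a := by
  obtain ⟨μ, hμ, hgap⟩ := exists_gap hα (B + q₀)
  have hd : Dense (AddSubgroup.closure {(2 * Q : ℝ) * α, 1} : Set ℝ) := by
    rw [dense_addSubgroupClosure_pair_iff, div_one]
    have : ((2 * Q : ℕ) : ℝ) * α = 2 * Q * α := by push_cast; ring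
    rw [← this]
    exact hα.natCast_mul (by omega)
  set η' := min η (μ / (B + 2)) with hη'
  have hη'0 : 0 < η' := lt_min hη (by positivity)
  obtain ⟨z, hz, hz'⟩ := hd.exists_dist_lt (-α) hη'0
  obtain ⟨t, b, rfl⟩ := AddSubgroup.mem_closure_pair.1 hz
  rw [Real.dist_eq] at hz'
  simp only [zsmul_eq_mul, mul_one] at hz'
  set r : ℤ := 1 + 2 * Q * t with hr
  have hr0 : r ≠ 0 := by
    have : (2 : ℤ) ∣ 2 * Q * t := ⟨Q * t, by ring⟩
    omega
  have h1 : |r * α + b| < η' := by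
    rw [← abs_neg]
    convert hz' using 2
    rw [hr]; push_cast; ring
  have hlt : η' < μ := by
    refine (min_le_right _ _).trans_lt ?_
    rw [div_lt_iff₀ (by positivity)]
    have : (0 : ℝ) ≤ B := by positivity
    nlinarith
  have h2 : ∃ a : ℤ, |(r.natAbs : ℝ) * α - a| < η' := by
    rcases Int.natAbs_eq r with h | h
    · refine ⟨-b, ?_⟩
      have : (r.natAbs : ℝ) = r := by
        conv_rhs => rw [h]
        simp
      rw [this]; push_cast
      rwa [sub_neg_eq_add]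
    · refine ⟨b, ?_⟩
      have : (r.natAbs : ℝ) = -r := by
        conv_rhs => rw [h]
        simp
      rw [this, ← abs_neg]
      convert h1 using 2
      ring
  obtain ⟨a, ha⟩ := h2
  have hq0 : 0 < r.natAbs := Int.natAbs_pos.2 hr0
  refine ⟨r.natAbs, a, ?_, ?_, ha.le.trans (min_le_left _ _), ?_⟩
  · by_contra hcon
    have := hgap (r.natAbs : ℤ) a (by omega) (by rw [abs_of_nonneg (by positivity)]; omega)
    rw [Int.cast_natCast] at this
    linarith
  · have : IsCoprime r (Q : ℤ) := ⟨1, -2 * t, by rw [hr]; ring⟩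
    rw [Int.isCoprime_iff_gcd_eq_one] at this
    simpa [Int.gcd] using this
  · rintro n hn hB ⟨c, hc⟩
    have h3 := hgap n c hn (by push_cast; omega)
    have hq1 : (1 : ℝ) ≤ r.natAbs := by exact_mod_cast hq0
    have hc' : (n : ℝ) * a = r.natAbs * c := by
      have := congrArg (Int.cast : ℤ → ℝ) hc
      rwa [Int.cast_mul, Int.cast_mul, Int.cast_natCast] at this
    have h4 : (r.natAbs : ℝ) * (n * α - c) = n * (r.natAbs * α - a) := by
      linear_combination hc'
    have h5 : (r.natAbs : ℝ) * |n * α - c| = |(n : ℝ)| * |r.natAbs * α - a| := by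
      rw [← abs_mul, ← h4, abs_mul, abs_of_nonneg (by positivity : (0 : ℝ) ≤ r.natAbs)]
    have h6 : |(n : ℝ)| ≤ B := by exact_mod_cast hB
    have h7 : η' * (B + 2) ≤ μ := by
      rw [← le_div_iff₀ (by positivity)]
      exact min_le_right _ _
    have h8 : |(n : ℝ)| * |r.natAbs * α - a| ≤ B * η' :=
      mul_le_mul h6 ha.le (abs_nonneg _) (by positivity)
    nlinarith [abs_nonneg ((n : ℝ) * α - c)]

end Pool.Agent.H905Z.Scales
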