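import Pool.Agent.H905Z.Model
import Pool.Agent.H905Z.Scales

set_option autoImplicit false

/-! Correlations along dilates by primes, twisted by an irrational linear phase, are small on
average over the primes of a suitable dyadic scale. -/

namespace Pool.Agent.H905Z.Core

open Finset Pool.Agent.H905Z.Ent Pool.Agent.H905Z.Model ComplexConjugate

/-- `e(x)` -/
noncomputable def ee (x : ℝ) : ℂ := Complex.exp (2 * Real.pi * Complex.I * x)

theorem norm_ee (x : ℝ) : ‖ee x‖ = 1 := by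
  unfold ee
  have : 2 * Real.pi * Complex.I * x = ((2 * Real.pi * x : ℝ) : ℂ) * Complex.I := by
    push_cast; ring
  rw [this, Complex.norm_exp_ofReal_mul_I]

theorem ee_add (x y : ℝ) : ee (x + y) = ee x * ee y := by
  unfold ee
  rw [← Complex.exp_add]; push_cast; ring_nf

theorem ee_sub_le (x y : ℝ) : ‖ee x - ee y‖ ≤ 7 * |x - y| := by
  have e : ee x - ee y = ee y * (ee (x - y) - 1) := by
    rw [mul_sub, ← ee_add]; simp
  rw [e, norm_mul, norm_ee, one_mul]
  have e2 : ee (x - y) = Complex.exp (Complex.I * ((2 * Real.pi * (x - y) : ℝ) : ℂ)) := by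
    unfold ee; congr 1; push_cast; ring
  rw [e2]
  refine Real.norm_exp_I_mul_ofReal_sub_one_le.trans ?_
  rw [Real.norm_eq_abs, abs_mul, abs_of_pos (by positivity : (0 : ℝ) < 2 * Real.pi)]
  have := Real.pi_lt_d2
  nlinarith [abs_nonneg (x - y)]

theorem conj_ee (x : ℝ) : conj (ee x) = ee (-x) := by
  rw [← Complex.inv_eq_conj (norm_ee x)]
  unfold ee
  rw [← Complex.exp_neg]; push_cast; ring_nf

variable {A : Type*}

/-- the twisted product in the cyclic model -/
noncomputable def FF (X q : ℕ) [NeZero q] (x : ℕ → A) (r : ZMod q) {L : ℕ} (b : Fin L → A → ℂ)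
    (s : Fin L → ℕ) (p : ℕ) (m : ZMod X) : ℂ :=
  Psi X q (r * (p : ZMod q)⁻¹) m * ∏ l, b l (x (m + (p * s l : ℕ)).val)

theorem norm_prod_le_one {L : ℕ} (f : Fin L → ℂ) (h : ∀ l, ‖f l‖ ≤ 1) : ‖∏ l, f l‖ ≤ 1 := by
  rw [norm_prod]
  exact prod_le_one (fun _ _ => norm_nonneg _) fun l _ => h l

theorem stepD [Nonempty A] (X q : ℕ) [NeZero X] [NeZero q] (x : ℕ → A) (M : ℕ) (Pr : Finset ℕ)
    (P g : ℕ) (hq : q ∣ M) (hM : M * ∏ p ∈ Pr, p ∣ X) (hpr : ∀ p ∈ Pr, p.Prime)
    (hcop : ∀ p ∈ Pr, Nat.Coprime M p) (hsz : ∀ p ∈ Pr, p ≤ P ∧ P < 2 * p) (hP : 0 < P)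
    (ε : ℝ) (hε : 0 < ε) (hε1 : ε ≤ 1)
    (hD : CH (blk (Equiv.addRight (1 : ZMod X)) (fun m => x m.val) ((g + 1) * P))
        (fun m => m.val % M) -
      CH (blk (Equiv.addRight (1 : ZMod X)) (fun m => x m.val) ((g + 1) * P))
        (fun m => m.val % (M * ∏ p ∈ Pr, p)) ≤ ε ^ 2 / 64 * Pr.card * X)
    (r : ZMod q) {L : ℕ} (b : Fin L → A → ℂ) (hb : ∀ l a, ‖b l a‖ ≤ 1) (s : Fin L → ℕ)
    (hs : ∀ l, s l ≤ g) :
    ‖∑ m : ZMod X, ∑ p ∈ Pr, (((p : ℝ) * (if p ∣ m.val then 1 else 0) - 1 : ℝ) : ℂ) *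
      FF X q x r b s p m‖ ≤ ε * Pr.card * X := by
  have hP' : (0 : ℝ) < P := by exact_mod_cast hP
  set Z := ∑ m : ZMod X, ∑ p ∈ Pr, (((p : ℝ) * (if p ∣ m.val then 1 else 0) - 1 : ℝ) : ℂ) *
      FF X q x r b s p m with hZ
  obtain ⟨u, hu, huZ⟩ := RCLike.exists_norm_eq_mul_self Z
  have hqX : q ∣ X := (hq.trans (dvd_mul_right _ _)).trans hM
  let ext : (Fin ((g + 1) * P) → A) → ℕ → A := fun w n =>
    if h : n < (g + 1) * P then w ⟨n, h⟩ else Classical.arbitrary A
  let f : ℕ → ℕ → ℕ × (Fin ((g + 1) * P) → A) → ℝ := fun p j w =>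
    (u * (ZMod.stdAddChar (r * (p : ZMod q)⁻¹ * ((w.1 + j : ℕ) : ZMod q)) *
      ∏ l, b l (ext w.2 (j + p * s l)))).re
  have hf : ∀ p j w, |f p j w| ≤ 1 := by
    intro p j w
    refine (Complex.abs_re_le_norm _).trans ?_
    rw [norm_mul, norm_mul, hu, norm_std, one_mul, one_mul]
    exact norm_prod_le_one _ fun l => hb _ _
  have key := entropy_step X (fun m => x m.val) M Pr P ((g + 1) * P) hM hpr hcop hsz hP f hf
    (ε / 32) (by positivity) (by linarith)
  have e1 : ∀ (m : ZMod X), ∀ p ∈ Pr, ∀ j ∈ range P,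
      ((p : ℝ) * (if p ∣ m.val + j then 1 else 0) - 1) *
        f p j (m.val % M, blk (Equiv.addRight (1 : ZMod X)) (fun m => x m.val) ((g + 1) * P) m) =
      (u * ((((p : ℝ) * (if p ∣ (m + j).val then 1 else 0) - 1 : ℝ) : ℂ) *
        FF X q x r b s p (m + j))).re := by
    intro m p hp j hj
    have hpX : p ∣ X := ((dvd_prod_of_mem _ hp).trans (dvd_mul_left _ _)).trans hM
    have a1 : p ∣ m.val + j ↔ p ∣ (m + j).val := by
      rw [Nat.dvd_iff_mod_eq_zero, Nat.dvd_iff_mod_eq_zero, val_add_modEq X p hpX m j]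
    have a2 : ((m.val % M + j : ℕ) : ZMod q) = ((m + j).val : ZMod q) := by
      rw [ZMod.natCast_eq_natCast_iff]
      exact (Nat.ModEq.add_right j ((Nat.mod_modEq _ _).of_dvd hq)).trans
        (val_add_modEq X q hqX m j).symm
    have a3 : ∀ l, ext (blk (Equiv.addRight (1 : ZMod X)) (fun m => x m.val) ((g + 1) * P) m)
        (j + p * s l) = x (m + j + (p * s l : ℕ)).val := by
      intro l
      have c1 : j + p * s l < (g + 1) * P := by
        have := mem_range.1 hj
        have := Nat.mul_le_mul (hsz p hp).1 (hs l)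
        nlinarith
      simp only [ext, dif_pos c1, blk, pow_shift]
      push_cast
      rw [add_assoc]
    rw [mul_left_comm, Complex.re_ofReal_mul]
    simp only [f, a1, a2, a3, FF, Psi]
  have e2 : ∑ m : ZMod X, ∑ p ∈ Pr, (1 / P : ℝ) * ∑ j ∈ range P,
      ((p : ℝ) * (if p ∣ m.val + j then 1 else 0) - 1) *
        f p j (m.val % M, blk (Equiv.addRight (1 : ZMod X)) (fun m => x m.val) ((g + 1) * P) m) =
      ‖Z‖ := by
    rw [sum_congr rfl fun m _ => sum_congr rfl fun p hp => by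
      rw [sum_congr rfl fun j hj => e1 m p hp j hj]]
    have a1 : (‖Z‖ : ℝ) = (u * Z).re := by
      have : ((‖Z‖ : ℝ) : ℂ) = u * Z := huZ
      rw [← this]; simp
    rw [a1, hZ, sum_comm, sum_comm (s := univ) (t := Pr), mul_sum, Complex.re_sum]
    refine sum_congr rfl fun p _ => ?_
    rw [← mul_sum, sum_comm]
    have a2 : ∀ j ∈ range P, ∑ m : ZMod X,
        (u * ((((p : ℝ) * (if p ∣ (m + j).val then 1 else 0) - 1 : ℝ) : ℂ) *
          FF X q x r b s p (m + j))).re =
        (u * ∑ m : ZMod X, (((p : ℝ) * (if p ∣ m.val then 1 else 0) - 1 : ℝ) : ℂ) *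
          FF X q x r b s p m).re := by
      intro j _
      rw [mul_sum, Complex.re_sum]
      exact Equiv.sum_comp (Equiv.addRight (j : ZMod X)) (fun m =>
        (u * ((((p : ℝ) * (if p ∣ m.val then 1 else 0) - 1 : ℝ) : ℂ) * FF X q x r b s p m)).re)
    rw [sum_congr rfl a2, sum_const, card_range, nsmul_eq_mul]
    field_simp
  rw [e2] at key
  have : ε / 32 * ‖Z‖ ≤ ε / 32 * (ε * Pr.card * X) := by
    refine key.trans (le_of_le_of_eq (add_le_add hD le_rfl) ?_)
    ring
  exact le_of_mul_le_mul_left this (by positivity)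

theorem stepE (X q : ℕ) [NeZero X] [NeZero q] (x : ℕ → A) (Pr : Finset ℕ) (P : ℕ) (hq : q ∣ X)
    (hpr : ∀ p ∈ Pr, p.Prime) (hcop : ∀ p ∈ Pr, Nat.Coprime q p) (hP : 0 < P) {L : ℕ}
    (hsz : ∀ p ∈ Pr, p ≤ P ∧ 2 ^ L < p) (θ : ℝ) (h0 : 0 < θ) (h1 : θ ≤ 1)
    (h2 : 1 / (P : ℝ) ≤ θ ^ (2 ^ L)) (r : ZMod q)
    (hr : ∀ N : ℤ, N ≠ 0 → |N| ≤ 2 ^ L * 2 ^ L * (P : ℤ) ^ (2 ^ L) → r * (N : ZMod q) ≠ 0)
    (b : Fin L → A → ℂ) (hb : ∀ l a, ‖b l a‖ ≤ 1) (s : Fin L → ℕ) :
    ‖∑ m : ZMod X, ∑ p ∈ Pr, FF X q x r b s p m‖ ≤ 3 * P * θ * X := by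
  have hND := CS.nd_inv r (Pr.image (fun p : ℕ => (p : ℤ))) P L (fun t => (t : ZMod q)⁻¹)
    (fun t ht => by
      obtain ⟨p, hp, rfl⟩ := mem_image.1 ht
      refine ⟨Nat.prime_iff_prime_int.1 (hpr p hp), by exact_mod_cast (hsz p hp).2,
        by exact_mod_cast (hsz p hp).1, ?_⟩
      rw [Int.cast_natCast, mul_comm]
      exact ZMod.coe_mul_inv_eq_one p (hcop p hp).symm) hr
  have key := CS.main (chars X q hq) P hP L θ h0 h1 h2 (Pr.image (fun p : ℕ => (p : ℤ)))
    (fun t ht => by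
      obtain ⟨p, hp, rfl⟩ := mem_image.1 ht
      rw [mem_Ioc]
      exact ⟨by exact_mod_cast (hpr p hp).pos, by exact_mod_cast (hsz p hp).1⟩)
    _ hND (fun _ => 1) (fun _ => by simp) (fun l => (s l : ZMod X)) (fun l m => b l (x m.val))
    (fun l m => hb _ _)
  rw [ZMod.card] at key
  convert key using 2
  refine sum_congr rfl fun m _ => ?_
  rw [sum_image fun p _ p' _ h => by exact_mod_cast h]
  refine sum_congr rfl fun p _ => ?_
  simp [FF]

theorem stepF (X q : ℕ) [NeZero X] [NeZero q] (x : ℕ → A) (p g : ℕ) (hp : p ∣ X)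
    (hcop : Nat.Coprime q p) (α : ℝ) (a c : ℤ) (η : ℝ) (hη : |c * (α - a / q)| * X ≤ η) {L : ℕ}
    (b : Fin L → A → ℂ) (hb : ∀ l a, ‖b l a‖ ≤ 1) (s : Fin L → ℕ) (hs : ∀ l, s l ≤ g) :
    ‖(p : ℂ) * ∑ k ∈ range (X / p), ee (c * α * k) * ∏ l, b l (x (p * (k + s l))) -
      ∑ m : ZMod X, (((p : ℝ) * (if p ∣ m.val then 1 else 0) : ℝ) : ℂ) *
        FF X q x ((c * a : ℤ) : ZMod q) b s p m‖ ≤ 7 * η * X + 2 * g * p := by
  obtain ⟨K, hK⟩ := hp
  have hX0 : 0 < X := NeZero.pos X
  have hp0 : 0 < p := by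
    rcases Nat.eq_zero_or_pos p with h | h
    · rw [h, zero_mul] at hK; omega
    · exact h
  have hKK : X / p = K := by rw [hK, Nat.mul_div_cancel_left _ hp0]
  have hη0 : 0 ≤ η := le_trans (by positivity) hη
  have e1 : ∑ m : ZMod X, (((p : ℝ) * (if p ∣ m.val then 1 else 0) : ℝ) : ℂ) *
        FF X q x ((c * a : ℤ) : ZMod q) b s p m =
      (p : ℂ) * ∑ k ∈ range K, ee (c * (a / q) * k) * ∏ l, b l (x ((p * (k + s l)) % X)) := by
    rw [mul_sum]
    have a1 : ∀ m : ZMod X, (((p : ℝ) * (if p ∣ m.val then 1 else 0) : ℝ) : ℂ) *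
        FF X q x ((c * a : ℤ) : ZMod q) b s p m =
        if p ∣ m.val then (p : ℂ) * FF X q x ((c * a : ℤ) : ZMod q) b s p m else 0 := by
      intro m
      split_ifs <;> simp
    simp only [a1]
    rw [← sum_filter]
    symm
    have hv : ∀ k ∈ range K, ((p * k : ℕ) : ZMod X).val = p * k := by
      intro k hk
      refine ZMod.val_cast_of_lt ?_
      rw [hK]
      exact Nat.mul_lt_mul_of_pos_left (mem_range.1 hk) hp0
    refine sum_bij (fun k _ => ((p * k : ℕ) : ZMod X)) ?_ ?_ ?_ ?_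
    · intro k hk
      rw [mem_filter, hv k hk]
      exact ⟨mem_univ _, dvd_mul_right _ _⟩
    · intro k hk k' hk' h
      have := congrArg ZMod.val h
      simp only [hv k hk, hv k' hk'] at this
      exact Nat.eq_of_mul_eq_mul_left hp0 this
    · intro m hm
      obtain ⟨k, hk⟩ := (mem_filter.1 hm).2
      refine ⟨k, ?_, by rw [← hk, ZMod.natCast_zmod_val]⟩
      have := ZMod.val_lt m
      rw [hk, hK] at this
      exact mem_range.2 (Nat.lt_of_mul_lt_mul_left this)
    · intro k hk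
      congr 1
      unfold FF Psi
      rw [hv k hk]
      congr 1
      · have b1 : ((c * a : ℤ) : ZMod q) * (p : ZMod q)⁻¹ * ((p * k : ℕ) : ZMod q) =
            ((c * a * k : ℤ) : ZMod q) := by
          have := ZMod.coe_mul_inv_eq_one p hcop.symm
          push_cast
          linear_combination (c : ZMod q) * a * k * this
        rw [b1, ZMod.stdAddChar_coe]
        unfold ee
        congr 1
        push_cast
        ring
      · refine prod_congr rfl fun l _ => ?_
        rw [← Nat.cast_add, ZMod.val_natCast, mul_add]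
  rw [e1, hKK, ← mul_sub, ← sum_sub_distrib, norm_mul, Complex.norm_natCast]
  have b1 : ∀ k ∈ range K, ‖ee (c * α * k) * ∏ l, b l (x (p * (k + s l))) -
      ee (c * (a / q) * k) * ∏ l, b l (x ((p * (k + s l)) % X))‖ ≤
      7 * η + (if K ≤ k + g then 2 else 0) := by
    intro k hk
    have n1 := norm_prod_le_one (fun l => b l (x (p * (k + s l)))) fun l => hb _ _
    have n2 := norm_prod_le_one (fun l => b l (x ((p * (k + s l)) % X))) fun l => hb _ _
    split_ifs with h
    · refine (norm_sub_le _ _).trans ?_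
      rw [norm_mul, norm_mul, norm_ee, norm_ee]
      linarith
    · have c1 : ∀ l, (p * (k + s l)) % X = p * (k + s l) := by
        intro l
        refine Nat.mod_eq_of_lt ?_
        rw [hK]
        have := hs l
        exact Nat.mul_lt_mul_of_pos_left (by omega) hp0
      simp only [c1]
      rw [← sub_mul, norm_mul, add_zero]
      have c2 := ee_sub_le (c * α * k) (c * (a / q) * k)
      have c3 : |c * α * k - c * (a / q) * k| ≤ η := by
        have : (c : ℝ) * α * k - c * (a / q) * k = c * (α - a / q) * k := by ring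
        rw [this, abs_mul, Nat.abs_cast]
        refine le_trans (mul_le_mul_of_nonneg_left ?_ (abs_nonneg _)) hη
        have d1 := mem_range.1 hk
        have : k ≤ X := by rw [hK]; nlinarith
        exact_mod_cast this
      nlinarith [norm_nonneg (ee (c * α * k) - ee (c * (a / q) * k)),
        norm_nonneg (∏ l, b l (x (p * (k + s l))))]
  have b2 : ∑ k ∈ range K, (if K ≤ k + g then (2 : ℝ) else 0) ≤ 2 * g := by
    rw [← sum_filter, sum_const, nsmul_eq_mul, mul_comm]
    have : ((range K).filter (fun k => K ≤ k + g)).card ≤ g := by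
      have : (range K).filter (fun k => K ≤ k + g) ⊆ Ico (K - g) K := by
        intro k hk
        obtain ⟨d1, d2⟩ := mem_filter.1 hk
        rw [mem_range] at d1
        rw [mem_Ico]; omega
      refine (card_le_card this).trans ?_
      rw [Nat.card_Ico]; omega
    have : (((range K).filter (fun k => K ≤ k + g)).card : ℝ) ≤ g := by exact_mod_cast this
    linarith
  have b3 := (norm_sum_le _ _).trans (sum_le_sum b1)
  rw [sum_add_distrib, sum_const, card_range, nsmul_eq_mul] at b3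
  have hX : (X : ℝ) = p * K := by exact_mod_cast hK
  have hp' : (0 : ℝ) ≤ p := by positivity
  calc _ ≤ (p : ℝ) * (K * (7 * η) + 2 * g) := mul_le_mul_of_nonneg_left (by linarith) hp'
    _ = _ := by rw [hX]; ring

end Pool.Agent.H905Z.Core
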