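import Mathlib

set_option autoImplicit false

namespace Pool.Agent.H905Z.Cyc

/-- Every graph on `n ≥ 1` vertices with at least `c n / 2` edges (average degree at least `c`)
contains a cycle of length `ℓ` modulo `k`. -/
def Forces (ℓ k : ℕ) (c : ℝ) : Prop :=
  ∀ n : ℕ, 1 ≤ n → ∀ G : SimpleGraph (Fin n), c * n / 2 ≤ (G.edgeSet.ncard : ℝ) →
    ∃ (v : Fin n) (w : G.Walk v v), w.IsCycle ∧ w.length ≡ ℓ [MOD k]

/-- `c_{ℓ,k}`: the infimum (in the extended reals) of the real constants that force a cycle of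
length `ℓ` modulo `k`. -/
noncomputable def cc (ℓ k : ℕ) : EReal := ⨅ (c : ℝ) (_ : Forces ℓ k c), (c : EReal)

/-- `d_{ℓ,k}`: the largest average degree of a graph on `k` vertices without a cycle of length
`ℓ`. -/
noncomputable def dd (ℓ k : ℕ) : ℝ :=
  2 * (SimpleGraph.extremalNumber k (SimpleGraph.cycleGraph ℓ) : ℝ) / k

end Pool.Agent.H905Z.Cyc
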