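import Pool.Agent.H905Z.Hex
import Pool.Agent.H905Z.CycDefs

set_option autoImplicit false

/-! The doubled point-line incidence graph of the moment curve directions. -/

namespace Pool.Agent.H905Z.Cyc

open Finset SimpleGraph Filter Topology

theorem noHex_of_free {V : Type*} [DecidableEq V] (G : SimpleGraph V)
    (h : (cycleGraph 6).Free G) : Hex.NoHex G := by
  intro a b c d e f h1 h2 h3 h4 h5 h6 n1 n2 n3 n4 n5 n6 n7 n8 n9
  apply h
  rw [cycleGraph_isContained_iff (by norm_num)]
  refine ⟨a, .cons h1 (.cons h2 (.cons h3 (.cons h4 (.cons h5 (.cons h6 .nil))))), ?_, rfl⟩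
  have m1 := h1.ne
  have m2 := h2.ne
  have m3 := h3.ne
  have m4 := h4.ne
  have m5 := h5.ne
  have m6 := h6.ne
  rw [Walk.isCycle_iff_isPath_tail_and_le_length]
  refine ⟨?_, by simp⟩
  rw [Walk.isPath_def]
  simp [*, m1.symm, n1.symm, n2.symm, n3.symm]

theorem dd_le (k : ℕ) (hk : 0 < k) (d : ℝ) (hd : 264 ≤ d) (h : 11 / 5 * (k : ℝ) < d ^ 3) :
    dd 6 k ≤ d := by
  classical
  have hk' : (0 : ℝ) < k := by exact_mod_cast hk
  have : (extremalNumber (Fintype.card (Fin k)) (cycleGraph 6) : ℝ) ≤ d * k / 2 := by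
    rw [extremalNumber_le_iff_of_nonneg _ (by positivity)]
    intro G _ hG
    have h1 := Hex.main (noHex_of_free G hG) d hd univ (by simpa using h)
    have h2 : ∀ x, (Hex.N G univ x).card = G.degree x := by
      intro x
      rw [← card_neighborFinset_eq_degree]
      congr 1
      ext y
      simp [Hex.N]
    simp only [h2, card_univ, Fintype.card_fin] at h1
    have h3 : (∑ x, (G.degree x : ℝ)) = 2 * (G.edgeFinset.card : ℝ) := by
      exact_mod_cast G.sum_degrees_eq_twice_card_edges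
    linarith
  rw [Fintype.card_fin] at this
  unfold dd
  rw [div_le_iff₀ hk']
  linarith

theorem dd_pos (k : ℕ) (hk : 2 ≤ k) : 0 < dd 6 k := by
  classical
  have : 0 < extremalNumber (Fintype.card (Fin k)) (cycleGraph 6) := by
    rw [lt_extremalNumber_iff]
    let a : Fin k := ⟨0, by omega⟩
    let b : Fin k := ⟨1, by omega⟩
    have hab : a ≠ b := by simp [a, b]
    refine ⟨edge a b, inferInstance, ?_, ?_⟩
    · intro h
      rw [cycleGraph_isContained_iff (by norm_num)] at h
      obtain ⟨v, w, hw, hl⟩ := h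
      have i1 := w.adj_getVert_succ (i := 0) (by omega)
      have i2 := w.adj_getVert_succ (i := 1) (by omega)
      have i3 : w.getVert 0 ≠ w.getVert 2 := fun h => by
        have := hw.getVert_injOn' (by simp) (by simp; omega) h
        omega
      rw [edge_adj] at i1 i2
      simp only [zero_add, Nat.reduceAdd] at i1 i2
      rcases i1.1 with ⟨c1, c2⟩ | ⟨c1, c2⟩ <;> rcases i2.1 with ⟨c3, c4⟩ | ⟨c3, c4⟩
      · exact hab (c3.symm.trans c2)
      · exact i3 (c1.trans c4.symm)
      · exact i3 (c1.trans c4.symm)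
      · exact hab (c2.symm.trans c3)
    · rw [card_pos]
      exact ⟨s(a, b), by simp [edge_adj, hab]⟩
  rw [Fintype.card_fin] at this
  unfold dd
  have h1 : (0 : ℝ) < extremalNumber k (cycleGraph 6) := by exact_mod_cast this
  have h2 : (0 : ℝ) < k := by exact_mod_cast (by omega : 0 < k)
  positivity

variable {F : Type*} [Field F]

/-- incidence of a point with a line of direction `(1, t, t²)` -/
def Inc (P l : F × F × F) : Prop := P.2.1 = l.2.1 + l.1 * P.1 ∧ P.2.2 = l.2.2 + l.1 ^ 2 * P.1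

theorem inc_ne {P Q l : F × F × F} (hP : Inc P l) (hQ : Inc Q l) (h : P ≠ Q) : P.1 - Q.1 ≠ 0 := by
  intro h1
  rw [sub_eq_zero] at h1
  exact h (Prod.ext h1 (Prod.ext (by rw [hP.1, hQ.1, h1]) (by rw [hP.2, hQ.2, h1])))

theorem line_eq {P l m : F × F × F} (hl : Inc P l) (hm : Inc P m) (h : l.1 = m.1) : l = m := by
  refine Prod.ext h (Prod.ext ?_ ?_)
  · have := hl.1.symm.trans hm.1
    rw [h] at this
    exact add_right_cancel this
  · have := hl.2.symm.trans hm.2
    rw [h] at this
    exact add_right_cancel this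

theorem no_triangle {P Q R : F × F × F} {l m n : (F × F × F) × Bool} (hPQ : P ≠ Q) (hQR : Q ≠ R)
    (hRP : R ≠ P) (hlm : l ≠ m) (hmn : m ≠ n) (hnl : n ≠ l) (h1 : Inc P l.1) (h2 : Inc Q l.1)
    (h3 : Inc Q m.1) (h4 : Inc R m.1) (h5 : Inc R n.1) (h6 : Inc P n.1) : False := by
  have a1 := inc_ne h1 h2 hPQ
  have a2 := inc_ne h3 h4 hQR
  have a3 := inc_ne h5 h6 hRP
  have s1 : l.1.1 * (P.1 - Q.1) + m.1.1 * (Q.1 - R.1) + n.1.1 * (R.1 - P.1) = 0 := by
    linear_combination -h1.1 + h2.1 - h3.1 + h4.1 - h5.1 + h6.1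
  have s2 : l.1.1 ^ 2 * (P.1 - Q.1) + m.1.1 ^ 2 * (Q.1 - R.1) + n.1.1 ^ 2 * (R.1 - P.1) = 0 := by
    linear_combination -h1.2 + h2.2 - h3.2 + h4.2 - h5.2 + h6.2
  have e1 : (l.1.1 - m.1.1) * (l.1.1 - n.1.1) * (P.1 - Q.1) = 0 := by
    linear_combination s2 - (m.1.1 + n.1.1) * s1
  have e2 : (m.1.1 - l.1.1) * (m.1.1 - n.1.1) * (Q.1 - R.1) = 0 := by
    linear_combination s2 - (l.1.1 + n.1.1) * s1
  have e3 : (n.1.1 - l.1.1) * (n.1.1 - m.1.1) * (R.1 - P.1) = 0 := by
    linear_combination s2 - (l.1.1 + m.1.1) * s1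
  simp only [mul_eq_zero, a1, a2, a3, or_false, sub_eq_zero] at e1 e2 e3
  have t1 : l.1.1 = m.1.1 := by
    rcases e1 with h | h
    · exact h
    · rcases e2 with h' | h'
      · exact h'.symm
      · exact h.trans h'.symm
  have t2 : m.1.1 = n.1.1 := by
    rcases e3 with h | h
    · exact t1.symm.trans h.symm
    · exact h.symm
  have u1 := line_eq h2 h3 t1
  have u2 := line_eq h4 h5 t2
  have v1 : l.2 ≠ m.2 := fun h => hlm (Prod.ext u1 h)
  have v2 : m.2 ≠ n.2 := fun h => hmn (Prod.ext u2 h)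
  have v3 : n.2 ≠ l.2 := fun h => hnl (Prod.ext (u1.trans u2).symm h)
  revert v1 v2 v3
  cases l.2 <;> cases m.2 <;> cases n.2 <;> simp

/-- adjacency of the doubled incidence graph -/
def Rel : (F × F × F) ⊕ ((F × F × F) × Bool) → (F × F × F) ⊕ ((F × F × F) × Bool) → Prop
  | .inl P, .inr l => Inc P l.1
  | .inr l, .inl P => Inc P l.1
  | _, _ => False

/-- the doubled incidence graph -/
def Gr (F : Type*) [Field F] : SimpleGraph ((F × F × F) ⊕ ((F × F × F) × Bool)) where
  Adj := Rel
  symm := ⟨fun a b h => by cases a <;> cases b <;> exact h⟩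
  loopless := ⟨fun a h => by cases a <;> exact h⟩

theorem side {a b : (F × F × F) ⊕ ((F × F × F) × Bool)} (h : (Gr F).Adj a b) :
    b.isLeft = !a.isLeft := by
  cases a <;> cases b <;> first | exact h.elim | rfl

theorem gr_noHex [DecidableEq F] : Hex.NoHex (Gr F) := by
  intro a b c d e f h1 h2 h3 h4 h5 h6 n1 n2 n3 n4 n5 n6 n7 n8 n9
  rcases a with a | a <;> rcases b with b | b <;> try exact h1.elim
  all_goals rcases c with c | c <;> try exact h2.elim
  all_goals rcases d with d | d <;> try exact h3.elim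
  all_goals rcases e with e | e <;> try exact h4.elim
  all_goals rcases f with f | f <;> try exact h5.elim
  all_goals simp only [ne_eq, Sum.inl.injEq, Sum.inr.injEq] at n1 n3 n4 n6 n7 n9
  · exact no_triangle n1 n7 (Ne.symm n3) n4 n9 (Ne.symm n6) h1 h2 h3 h4 h5 h6
  · exact no_triangle n4 n9 (Ne.symm n6) n7 (Ne.symm n3) n1 h2 h3 h4 h5 h6 h1

theorem cycle_len [Fintype F] [DecidableEq F] {v : (F × F × F) ⊕ ((F × F × F) × Bool)}
    (w : (Gr F).Walk v v) (hw : w.IsCycle) :
    w.length % 2 = 0 ∧ w.length ≤ 2 * Fintype.card F ^ 3 ∧ w.length ≠ 6 := by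
  have par : ∀ i, i ≤ w.length → ((w.getVert i).isLeft = v.isLeft ↔ i % 2 = 0) := by
    intro i
    induction i with
    | zero => simp
    | succ i ih =>
      intro hi
      have h1 := side (w.adj_getVert_succ (i := i) (by omega))
      have h2 := ih (by omega)
      rw [h1]
      revert h2
      cases (w.getVert i).isLeft <;> cases v.isLeft <;> simp <;> omega
  have hev : w.length % 2 = 0 := (par _ le_rfl).1 (by simp)
  have inj : ∀ i j, i < w.length → j < w.length → w.getVert i = w.getVert j → i = j :=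
    fun i j hi hj h => hw.getVert_injOn' (by simp; omega) (by simp; omega) h
  refine ⟨hev, ?_, ?_⟩
  · obtain ⟨i0, hi0, hl⟩ : ∃ i0, i0 ≤ 1 ∧ ∀ j, j < w.length / 2 →
        (w.getVert (i0 + 2 * j)).isLeft = true := by
      cases hv : v.isLeft
      · refine ⟨1, le_rfl, fun j hj => ?_⟩
        have := par (1 + 2 * j) (by omega)
        rw [hv] at this
        revert this
        cases (w.getVert (1 + 2 * j)).isLeft <;> simp
      · refine ⟨0, by omega, fun j hj => ?_⟩
        rw [← hv]
        exact (par _ (by omega)).2 (by omega)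
    have : (range (w.length / 2)).card ≤
        ((univ : Finset (F × F × F)).map (Function.Embedding.inl (β := (F × F × F) × Bool))).card := by
      refine card_le_card_of_injOn (fun j => w.getVert (i0 + 2 * j)) ?_ ?_
      · intro j hj
        have := hl j (by simpa using hj)
        obtain ⟨P, hP⟩ := Sum.isLeft_iff.1 this
        simp [hP]
      · intro j hj j' hj' h
        simp only [coe_range, Set.mem_Iio] at hj hj'
        have := inj _ _ (by omega) (by omega) h
        omega
    simp only [card_range, card_map, card_univ, Fintype.card_prod] at this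
    have e : Fintype.card F ^ 3 = Fintype.card F * (Fintype.card F * Fintype.card F) := by ring
    omega
  · intro h6
    have a6 : (Gr F).Adj (w.getVert 5) (w.getVert 0) := by
      have := w.adj_getVert_succ (i := 5) (by omega)
      rw [show 5 + 1 = w.length by omega, Walk.getVert_length] at this
      rwa [Walk.getVert_zero]
    have ne : ∀ i j, i < 6 → j < 6 → i ≠ j → w.getVert i ≠ w.getVert j :=
      fun i j hi hj hij h => hij (inj i j (by omega) (by omega) h)
    exact gr_noHex _ _ _ _ _ _ (w.adj_getVert_succ (i := 0) (by omega))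
      (w.adj_getVert_succ (i := 1) (by omega)) (w.adj_getVert_succ (i := 2) (by omega))
      (w.adj_getVert_succ (i := 3) (by omega)) (w.adj_getVert_succ (i := 4) (by omega)) a6
      (ne 0 2 (by omega) (by omega) (by omega)) (ne 0 3 (by omega) (by omega) (by omega))
      (ne 0 4 (by omega) (by omega) (by omega)) (ne 1 3 (by omega) (by omega) (by omega))
      (ne 1 4 (by omega) (by omega) (by omega)) (ne 1 5 (by omega) (by omega) (by omega))
      (ne 2 4 (by omega) (by omega) (by omega)) (ne 2 5 (by omega) (by omega) (by omega))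
      (ne 3 5 (by omega) (by omega) (by omega))

theorem edges_ge [Fintype F] : 2 * Fintype.card F ^ 4 ≤ (Gr F).edgeSet.ncard := by
  classical
  let f : F × (F × F × F) × Bool → Sym2 ((F × F × F) ⊕ ((F × F × F) × Bool)) := fun q =>
    s(.inl (q.1, q.2.1.2.1 + q.2.1.1 * q.1, q.2.1.2.2 + q.2.1.1 ^ 2 * q.1), .inr q.2)
  have := Set.ncard_le_ncard_of_injOn (s := Set.univ) (t := (Gr F).edgeSet) f
    (fun q _ => by
      simp only [f, mem_edgeSet]
      exact ⟨rfl, rfl⟩)
    (fun q _ q' _ h => by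
      simp only [f, Sym2.eq_iff, Sum.inl.injEq, Sum.inr.injEq, Prod.mk.injEq, reduceCtorEq,
        and_self, or_false] at h
      exact Prod.ext h.1.1 h.2)
    (Set.toFinite _)
  rw [Set.ncard_univ, Nat.card_eq_fintype_card] at this
  simp only [Fintype.card_prod, Fintype.card_bool] at this
  calc _ = _ := by ring
    _ ≤ _ := this

theorem forces_ge (p : ℕ) (hp : p.Prime) (hp3 : 3 ≤ p) (c : ℝ) (hc : Forces 6 (p ^ 3) c) :
    4 / 3 * (p : ℝ) ≤ c := by
  classical
  haveI : Fact p.Prime := ⟨hp⟩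
  by_contra hlt
  push Not at hlt
  have hcard : Fintype.card ((ZMod p × ZMod p × ZMod p) ⊕ ((ZMod p × ZMod p × ZMod p) × Bool)) =
      3 * p ^ 3 := by
    simp only [Fintype.card_sum, Fintype.card_prod, ZMod.card, Fintype.card_bool]
    ring
  let e := (Fintype.equivFinOfCardEq hcard).symm
  let φ := Iso.comap e (Gr (ZMod p))
  have hp0 : 0 < p ^ 3 := by positivity
  have he : ((Gr (ZMod p)).comap e).edgeSet.ncard = (Gr (ZMod p)).edgeSet.ncard :=
    Set.ncard_congr' φ.mapEdgeSet
  obtain ⟨v, w, hw, hl⟩ := hc (3 * p ^ 3) (by omega) ((Gr (ZMod p)).comap e) (by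
    rw [he]
    have h1 := edges_ge (F := ZMod p)
    rw [ZMod.card] at h1
    have h2 : ((2 * p ^ 4 : ℕ) : ℝ) ≤ (Gr (ZMod p)).edgeSet.ncard := by exact_mod_cast h1
    push_cast at h2 ⊢
    have : (0 : ℝ) < (p : ℝ) ^ 3 := by positivity
    nlinarith)
  have hw' : (w.map φ.toHom).IsCycle := (Walk.isCycle_map_iff_of_injective φ.injective).2 hw
  obtain ⟨a1, a2, a3⟩ := cycle_len _ hw'
  rw [Walk.length_map] at a1 a2 a3
  rw [ZMod.card] at a2
  have hodd : p ^ 3 % 2 = 1 := Nat.odd_iff.1 ((hp.odd_of_ne_two (by omega)).pow)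
  have h27 : 27 ≤ p ^ 3 := by
    calc 27 = 3 ^ 3 := by norm_num
      _ ≤ p ^ 3 := Nat.pow_le_pow_left hp3 3
  generalize p ^ 3 = k at *
  have h1 : w.length % k = 6 := by
    rw [hl, Nat.mod_eq_of_lt (by omega)]
  have h2 := Nat.div_add_mod w.length k
  have h3 : w.length / k < 2 := by
    by_contra h
    have : k * 2 ≤ k * (w.length / k) := Nat.mul_le_mul_left k (by omega)
    omega
  generalize w.length / k = j at *
  interval_cases j <;> omega

theorem frequently_ge : ∃ᶠ k in atTop, ((51 / 50 : ℝ) : EReal) ≤ cc 6 k / (dd 6 k : EReal) := by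
  rw [frequently_atTop]
  intro a
  obtain ⟨p, hp1, hp⟩ := Nat.exists_infinite_primes (a + 300)
  have hp' : (300 : ℝ) ≤ p := by exact_mod_cast (by omega : 300 ≤ p)
  have hk : p ≤ p ^ 3 := Nat.le_self_pow (by norm_num) p
  refine ⟨p ^ 3, by omega, ?_⟩
  have h0 := dd_pos (p ^ 3) (by omega)
  have h1 := dd_le (p ^ 3) (by omega) (261 / 200 * p) (by linarith) (by
    push_cast
    have : (0 : ℝ) < (p : ℝ) ^ 3 := by positivity
    nlinarith)
  have h2 : ((4 / 3 * (p : ℝ) : ℝ) : EReal) ≤ cc 6 (p ^ 3) :=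
    le_iInf₂ fun c hc => EReal.coe_le_coe_iff.2 (forces_ge p hp (by omega) c hc)
  rw [EReal.le_div_iff_mul_le (by exact_mod_cast h0) (EReal.coe_ne_top _), ← EReal.coe_mul]
  refine le_trans (EReal.coe_le_coe_iff.2 ?_) h2
  linarith

theorem not_tendsto : ¬ Tendsto (fun k => cc 6 k / (dd 6 k : EReal)) atTop (𝓝 1) := by
  intro h
  have h1 : (1 : EReal) < ((51 / 50 : ℝ) : EReal) := by
    rw [← EReal.coe_one, EReal.coe_lt_coe_iff]; norm_num
  have h2 := h.eventually (gt_mem_nhds h1)
  obtain ⟨k, a1, a2⟩ := (frequently_ge.and_eventually h2).exists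
  exact absurd a1 (not_le.2 a2)

end Pool.Agent.H905Z.Cyc
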