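import Mathlib

set_option autoImplicit false

/-! Counting entropy on a finite uniform space and the entropy decrement inequality. -/

namespace Pool.Agent.H905Z.Ent

open Finset Real
open scoped Classical

variable {Ω : Type*} [Fintype Ω] {α β γ δ : Type*}

/-- size of a fibre -/
noncomputable def cnt (W : Ω → α) (w : α) : ℝ := ((univ.filter (fun ω => W ω = w)).card : ℝ)

theorem cnt_nonneg (W : Ω → α) (w : α) : 0 ≤ cnt W w := Nat.cast_nonneg _

theorem cnt_pos (W : Ω → α) (ω : Ω) : 0 < cnt W (W ω) := by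
  unfold cnt
  have : 0 < (univ.filter (fun ω' => W ω' = W ω)).card := card_pos.2 ⟨ω, by simp⟩
  exact_mod_cast this

theorem sum_comp_cnt [DecidableEq α] (W : Ω → α) (F : α → ℝ) :
    ∑ ω, F (W ω) = ∑ w ∈ univ.image W, cnt W w * F w := by
  rw [Finset.sum_comp F W]
  refine sum_congr rfl fun w _ => ?_
  rw [nsmul_eq_mul]
  unfold cnt
  congr

theorem sum_cnt (W : Ω → α) : ∑ w ∈ univ.image W, cnt W w = Fintype.card Ω := by
  have := sum_comp_cnt W (fun _ => (1 : ℝ))
  simp only [mul_one, sum_const, card_univ, nsmul_eq_mul] at this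
  exact this.symm

theorem gibbs [Fintype β] (W : Ω → α) (Y : Ω → β) (ψ : α → β → ℝ) (h0 : ∀ w y, 0 ≤ ψ w y)
    (h1 : ∀ ω, ∑ y, ψ (W ω) y ≤ 1) (hp : ∀ ω, 0 < ψ (W ω) (Y ω)) :
    ∑ ω, (log (ψ (W ω) (Y ω)) + log (cnt W (W ω)) -
      log (cnt (fun ω => (W ω, Y ω)) (W ω, Y ω))) ≤ 0 := by
  set Z : Ω → α × β := fun ω => (W ω, Y ω) with hZ
  have step : ∀ ω, log (ψ (W ω) (Y ω)) + log (cnt W (W ω)) - log (cnt Z (Z ω)) ≤
      ψ (W ω) (Y ω) * cnt W (W ω) / cnt Z (Z ω) - 1 := by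
    intro ω
    have a1 := hp ω
    have a2 := cnt_pos W ω
    have a3 := cnt_pos Z ω
    rw [← log_mul a1.ne' a2.ne', ← log_div (mul_pos a1 a2).ne' a3.ne']
    exact log_le_sub_one_of_pos (by positivity)
  refine (sum_le_sum fun ω _ => step ω).trans ?_
  rw [sum_sub_distrib]
  have e1 : ∑ ω, ψ (W ω) (Y ω) * cnt W (W ω) / cnt Z (Z ω) =
      ∑ z ∈ univ.image Z, ψ z.1 z.2 * cnt W z.1 := by
    rw [sum_comp_cnt Z (fun z => ψ z.1 z.2 * cnt W z.1 / cnt Z z)]
    refine sum_congr rfl fun z hz => ?_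
    obtain ⟨ω, _, rfl⟩ := mem_image.1 hz
    have := (cnt_pos Z ω).ne'
    field_simp
  have e2 : ∑ z ∈ univ.image Z, ψ z.1 z.2 * cnt W z.1 ≤
      ∑ z ∈ (univ.image W) ×ˢ (univ : Finset β), ψ z.1 z.2 * cnt W z.1 := by
    refine sum_le_sum_of_subset_of_nonneg ?_ fun z _ _ => mul_nonneg (h0 _ _) (cnt_nonneg _ _)
    intro z hz
    obtain ⟨ω, _, rfl⟩ := mem_image.1 hz
    simp [hZ]
  have e3 : ∑ z ∈ (univ.image W) ×ˢ (univ : Finset β), ψ z.1 z.2 * cnt W z.1 ≤
      ∑ w ∈ univ.image W, cnt W w := by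
    rw [sum_product]
    refine sum_le_sum fun w hw => ?_
    obtain ⟨ω, _, rfl⟩ := mem_image.1 hw
    dsimp only
    rw [← sum_mul]
    have := h1 ω
    have h2 := cnt_nonneg W (W ω)
    nlinarith
  rw [sum_cnt] at e3
  simp only [sum_const, card_univ, nsmul_eq_mul, mul_one]
  linarith

/-- sum of the logarithms of the fibre sizes -/
noncomputable def S (W : Ω → α) : ℝ := ∑ ω, log (cnt W (W ω))

theorem cnt_congr {W : Ω → α} {W' : Ω → β} (h : ∀ ω ω', W ω = W ω' ↔ W' ω = W' ω') (ω : Ω) :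
    cnt W (W ω) = cnt W' (W' ω) := by
  unfold cnt
  congr 2
  ext ω'
  simp [h]

theorem S_congr {W : Ω → α} {W' : Ω → β} (h : ∀ ω ω', W ω = W ω' ↔ W' ω = W' ω') :
    S W = S W' := sum_congr rfl fun ω _ => by rw [cnt_congr h]

theorem cnt_perm (T : Ω ≃ Ω) (W : Ω → α) (w : α) : cnt (fun ω => W (T ω)) w = cnt W w := by
  unfold cnt
  congr 1
  refine card_bij (fun ω _ => T ω) ?_ ?_ ?_
  · intro a ha; simpa using ha
  · intro a _ b _ h; exact T.injective h
  · intro b hb; exact ⟨T.symm b, by simpa using hb, by simp⟩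

theorem S_perm (T : Ω ≃ Ω) (W : Ω → α) : S (fun ω => W (T ω)) = S W := by
  unfold S
  simp only [cnt_perm]
  exact Equiv.sum_comp T (fun ω => log (cnt W (W ω)))

/-- unnormalised conditional entropy of `X` given `V` -/
noncomputable def CH (X : Ω → α) (V : Ω → γ) : ℝ := S V - S (fun ω => (V ω, X ω))

theorem CH_nonneg (X : Ω → α) (V : Ω → γ) : 0 ≤ CH X V := by
  unfold CH S
  rw [← sum_sub_distrib]
  refine sum_nonneg fun ω _ => sub_nonneg.2 (log_le_log (cnt_pos (fun ω => (V ω, X ω)) ω) ?_)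
  unfold cnt
  exact_mod_cast card_le_card fun ω' h => by
    simp only [mem_filter, mem_univ, true_and, Prod.mk.injEq] at h ⊢
    exact h.1

theorem CH_le [Fintype α] [Nonempty α] (X : Ω → α) (V : Ω → γ) :
    CH X V ≤ Fintype.card Ω * log (Fintype.card α) := by
  have hc : (0 : ℝ) < Fintype.card α := by exact_mod_cast Fintype.card_pos
  have := gibbs V X (fun _ _ => (Fintype.card α : ℝ)⁻¹) (fun _ _ => by positivity)
    (fun _ => by simp [hc.ne']) (fun _ => by positivity)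
  simp only [sum_sub_distrib, sum_add_distrib, log_inv, sum_const, card_univ, nsmul_eq_mul] at this
  unfold CH S
  linarith

theorem sum_cnt_pair [Fintype β] (V : Ω → γ) (Y : Ω → β) (v : γ) :
    ∑ y, cnt (fun ω => (V ω, Y ω)) (v, y) = cnt V v := by
  unfold cnt
  rw [card_eq_sum_card_fiberwise (f := Y) (s := univ.filter (fun ω => V ω = v)) (t := univ)
    (fun _ _ => by simp)]
  push_cast
  refine sum_congr rfl fun y _ => ?_
  congr 2
  ext ω
  simp

theorem CH_pair_le [Fintype β] (X : Ω → α) (Y : Ω → β) (V : Ω → γ) :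
    CH (fun ω => (X ω, Y ω)) V ≤ CH X V + CH Y V := by
  have := gibbs (fun ω => (V ω, X ω)) Y
    (fun w y => cnt (fun ω => (V ω, Y ω)) (w.1, y) / cnt V w.1)
    (fun _ _ => div_nonneg (cnt_nonneg _ _) (cnt_nonneg _ _))
    (fun ω => by
      rw [← sum_div, sum_cnt_pair, div_self (cnt_pos V ω).ne'])
    (fun ω => div_pos (cnt_pos (fun ω => (V ω, Y ω)) ω) (cnt_pos V ω))
  have e : ∀ ω, log (cnt (fun ω => (V ω, Y ω)) (V ω, Y ω) / cnt V (V ω)) =
      log (cnt (fun ω => (V ω, Y ω)) (V ω, Y ω)) - log (cnt V (V ω)) := fun ω =>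
    log_div (cnt_pos (fun ω => (V ω, Y ω)) ω).ne' (cnt_pos V ω).ne'
  simp only [e, sum_sub_distrib, sum_add_distrib] at this
  have e2 : S (fun ω => (V ω, X ω, Y ω)) = S (fun ω => ((V ω, X ω), Y ω)) :=
    S_congr fun ω ω' => by simp [and_assoc]
  unfold CH
  rw [e2]
  unfold S
  linarith

theorem CH_congr {X : Ω → α} {X' : Ω → β} {V : Ω → γ} {V' : Ω → δ}
    (hX : ∀ ω ω', X ω = X ω' ↔ X' ω = X' ω') (hV : ∀ ω ω', V ω = V ω' ↔ V' ω = V' ω') :
    CH X V = CH X' V' := by
  unfold CH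
  rw [S_congr hV, S_congr (W := fun ω => (V ω, X ω)) (W' := fun ω => (V' ω, X' ω))
    fun ω ω' => by simp [hX, hV]]

theorem CH_perm (T : Ω ≃ Ω) (X : Ω → α) (V : Ω → γ) :
    CH (fun ω => X (T ω)) (fun ω => V (T ω)) = CH X V := by
  unfold CH
  rw [S_perm T V, S_perm T (fun ω => (V ω, X ω))]

/-- the variational inequality for a variable `Y` that is uniform given `V` -/
theorem variational [Fintype β] [Nonempty β] (X : Ω → α) (V : Ω → γ) (V' : Ω → δ) (Y : Ω → β)
    (hV : ∀ ω ω', V' ω = V' ω' ↔ V ω = V ω' ∧ Y ω = Y ω')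
    (hind : ∀ ω, cnt V' (V' ω) * Fintype.card β = cnt V (V ω))
    (φ : γ × α → β → ℝ) (κ : ℝ) (hκ : ∀ w, ∑ y, exp (φ w y) ≤ exp κ * Fintype.card β) :
    ∑ ω, φ (V ω, X ω) (Y ω) ≤ (CH X V - CH X V') + Fintype.card Ω * κ := by
  have hc : (0 : ℝ) < Fintype.card β := by exact_mod_cast Fintype.card_pos
  have := gibbs (fun ω => (V ω, X ω)) Y (fun w y => exp (φ w y) / (exp κ * Fintype.card β))
    (fun _ _ => by positivity)
    (fun ω => by
      rw [← sum_div, div_le_one (by positivity)]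
      exact hκ _)
    (fun _ => by positivity)
  have e : ∀ ω, log (exp (φ (V ω, X ω) (Y ω)) / (exp κ * Fintype.card β)) =
      φ (V ω, X ω) (Y ω) - κ - log (Fintype.card β) := fun ω => by
    rw [log_div (by positivity) (by positivity), log_mul (by positivity) hc.ne', log_exp, log_exp]
    ring
  simp only [e, sum_sub_distrib, sum_add_distrib, sum_const, card_univ, nsmul_eq_mul] at this
  have e2 : S (fun ω => (V' ω, X ω)) = S (fun ω => ((V ω, X ω), Y ω)) :=
    S_congr fun ω ω' => by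
      simp only [Prod.mk.injEq, hV]; tauto
  have e3 : S V = S V' + Fintype.card Ω * log (Fintype.card β) := by
    unfold S
    have : ∀ ω, log (cnt V (V ω)) = log (cnt V' (V' ω)) + log (Fintype.card β) := fun ω => by
      rw [← hind ω, log_mul (cnt_pos V' ω).ne' hc.ne']
    simp only [this, sum_add_distrib, sum_const, card_univ, nsmul_eq_mul]
  unfold CH
  rw [e2, e3]
  unfold S
  linarith

/-- exponential moment of a sum of independent centred bounded variables -/
theorem mgf {ι : Type*} [Fintype ι] [DecidableEq ι] {B : ι → Type*} [∀ i, Fintype (B i)]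
    (g : ∀ i, B i → ℝ) (c : ℝ) (hc : c ≤ 1) (hg : ∀ i y, |g i y| ≤ c) (h0 : ∀ i, ∑ y, g i y = 0) :
    ∑ y : ∀ i, B i, exp (∑ i, g i (y i)) ≤
      exp (Fintype.card ι * c ^ 2) * Fintype.card (∀ i, B i) := by
  have e1 : ∑ y : ∀ i, B i, exp (∑ i, g i (y i)) = ∏ i, ∑ y, exp (g i y) := by
    rw [Fintype.prod_sum]
    exact sum_congr rfl fun y _ => by rw [exp_sum]
  have e2 : ∀ i, ∑ y, exp (g i y) ≤ exp (c ^ 2) * Fintype.card (B i) := by
    intro i
    have h1 : ∀ y, exp (g i y) ≤ exp (c ^ 2) + g i y := by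
      intro y
      have a1 := abs_exp_sub_one_sub_id_le ((hg i y).trans hc)
      have a2 := add_one_le_exp (c ^ 2)
      have a3 : g i y ^ 2 ≤ c ^ 2 := by
        rw [← sq_abs]; exact pow_le_pow_left₀ (abs_nonneg _) (hg i y) 2
      have := (abs_le.1 a1).2
      linarith
    refine (sum_le_sum fun y _ => h1 y).trans ?_
    rw [sum_add_distrib, h0 i]
    simp [mul_comm]
  rw [e1, Fintype.card_pi]
  refine (prod_le_prod (fun i _ => sum_nonneg fun _ _ => (exp_pos _).le) fun i _ => e2 i).trans ?_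
  rw [prod_mul_distrib, prod_const, card_univ, ← exp_nat_mul]
  push_cast
  rfl

/-- block of length `J` -/
def blk (T : Equiv.Perm Ω) (x : Ω → α) (J : ℕ) (ω : Ω) : Fin J → α := fun j => x ((T ^ (j : ℕ)) ω)

omit [Fintype Ω] in
theorem pow_cov (T : Equiv.Perm Ω) (V : Ω → γ)
    (hV : ∀ ω ω', V (T ω) = V (T ω') ↔ V ω = V ω') (n : ℕ) (ω ω' : Ω) :
    V ((T ^ n) ω) = V ((T ^ n) ω') ↔ V ω = V ω' := by
  induction n with
  | zero => simp
  | succ n ih => rw [pow_succ', Equiv.Perm.mul_apply, Equiv.Perm.mul_apply, hV, ih]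

theorem CH_double [Fintype α] (T : Equiv.Perm Ω) (x : Ω → α) (V : Ω → γ)
    (hV : ∀ ω ω', V (T ω) = V (T ω') ↔ V ω = V ω') (J : ℕ) :
    CH (blk T x (2 * J)) V ≤ 2 * CH (blk T x J) V := by
  have e1 : CH (blk T x (2 * J)) V =
      CH (fun ω => (blk T x J ω, blk T x J ((T ^ J) ω))) V := by
    refine CH_congr (fun ω ω' => ?_) (fun _ _ => Iff.rfl)
    simp only [Prod.mk.injEq, funext_iff, blk]
    constructor
    · intro h
      refine ⟨fun j => h ⟨j, by omega⟩, fun j => ?_⟩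
      have := h ⟨j + J, by omega⟩
      simpa [pow_add] using this
    · rintro ⟨h1, h2⟩ j
      by_cases hj : (j : ℕ) < J
      · exact h1 ⟨j, hj⟩
      · have := h2 ⟨j - J, by omega⟩
        have e : (j : ℕ) = (j - J) + J := by omega
        rw [e]
        simpa [pow_add] using this
  have e2 : CH (fun ω => blk T x J ((T ^ J) ω)) V = CH (blk T x J) V := by
    rw [← CH_perm (T ^ J) (blk T x J) V]
    exact CH_congr (fun _ _ => Iff.rfl) (fun ω ω' => (pow_cov T V hV J ω ω').symm)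
  rw [e1]
  have := CH_pair_le (blk T x J) (fun ω => blk T x J ((T ^ J) ω)) V
  linarith

/-- the entropy decrement inequality -/
theorem decrement [Fintype α] [Nonempty α] (T : Equiv.Perm Ω) (x : Ω → α) (V : ℕ → Ω → γ)
    (hV : ∀ i ω ω', V i (T ω) = V i (T ω') ↔ V i ω = V i ω') (J : ℕ) (hJ : 0 < J) (I : ℕ) :
    ∑ i ∈ range I, (CH (blk T x (J * 2 ^ i)) (V i) - CH (blk T x (J * 2 ^ i)) (V (i + 1))) /
      (J * 2 ^ i) ≤ Fintype.card Ω * log (Fintype.card α) := by
  have hJ' : (0 : ℝ) < J := by exact_mod_cast hJ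
  have key : ∀ I : ℕ, ∑ i ∈ range I, (CH (blk T x (J * 2 ^ i)) (V i) -
      CH (blk T x (J * 2 ^ i)) (V (i + 1))) / (J * 2 ^ i) +
      CH (blk T x (J * 2 ^ I)) (V I) / (J * 2 ^ I) ≤ Fintype.card Ω * log (Fintype.card α) := by
    intro I
    induction I with
    | zero =>
      have := CH_le (blk T x (J * 2 ^ 0)) (V 0)
      simp only [Fintype.card_fun, Fintype.card_fin, Nat.cast_pow, log_pow] at this
      simp only [range_zero, sum_empty, zero_add]
      rw [div_le_iff₀ (by positivity)]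
      simp only [pow_zero, mul_one] at this ⊢
      linarith
    | succ I ih =>
      rw [sum_range_succ]
      have h := CH_double T x (V (I + 1)) (hV (I + 1)) (J * 2 ^ I)
      have e : J * 2 ^ (I + 1) = 2 * (J * 2 ^ I) := by ring
      rw [e]
      have h2 : CH (blk T x (2 * (J * 2 ^ I))) (V (I + 1)) / (J * 2 ^ (I + 1)) ≤
          CH (blk T x (J * 2 ^ I)) (V (I + 1)) / (J * 2 ^ I) := by
        rw [div_le_div_iff₀ (by positivity) (by positivity)]
        have : (0 : ℝ) < J * 2 ^ I := by positivity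
        calc _ ≤ 2 * CH (blk T x (J * 2 ^ I)) (V (I + 1)) * (J * 2 ^ I) :=
              mul_le_mul_of_nonneg_right h this.le
          _ = _ := by ring
      rw [sub_div]
      linarith
  have h1 := key I
  have h2 : 0 ≤ CH (blk T x (J * 2 ^ I)) (V I) / (J * 2 ^ I) :=
    div_nonneg (CH_nonneg _ _) (by positivity)
  linarith

end Pool.Agent.H905Z.Ent
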