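import Mathlib

set_option autoImplicit false

/-! The paperfolding sequence `n ↦ χ₄ (odd part of n)`: completely multiplicative, values `±1`,
with bounded partial sums of `f k * f (k+1)`. -/

namespace Pool.Agent.H905Z.Fold

open Finset

/-- the value of the character mod four at the odd part of `n` -/
def pf (n : ℕ) : ℤ := ZMod.χ₄ ((n / 2 ^ n.factorization 2 : ℕ) : ZMod 4)

theorem pf_mul (m n : ℕ) : pf (m * n) = pf m * pf n := by
  unfold pf
  rw [Nat.ordCompl_mul, Nat.cast_mul, map_mul]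

theorem pf_odd (n : ℕ) (h : n % 2 = 1) : pf n = ZMod.χ₄ (n : ZMod 4) := by
  unfold pf
  have : n.factorization 2 = 0 := by
    apply Nat.factorization_eq_zero_of_not_dvd
    omega
  rw [this]; simp

theorem pf_sq (n : ℕ) (hn : n ≠ 0) : pf n * pf n = 1 := by
  unfold pf
  have h1 : ¬ 2 ∣ n / 2 ^ n.factorization 2 := Nat.not_dvd_ordCompl Nat.prime_two hn
  set m := n / 2 ^ n.factorization 2
  have h2 : m % 4 = 1 ∨ m % 4 = 3 := by omega
  rcases h2 with h | h
  · rw [ZMod.χ₄_nat_one_mod_four h]; norm_num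
  · rw [ZMod.χ₄_nat_three_mod_four h]; norm_num

theorem pf_cases (n : ℕ) (hn : n ≠ 0) : pf n = 1 ∨ pf n = -1 := by
  have := pf_sq n hn
  exact Int.eq_one_or_neg_one_of_mul_eq_one this

theorem pf_pair (m : ℕ) : pf (2 * m + 1) + pf (2 * m + 3) = 0 := by
  rw [pf_odd _ (by omega), pf_odd _ (by omega)]
  rcases Nat.even_or_odd' m with ⟨k, rfl | rfl⟩
  · rw [ZMod.χ₄_nat_one_mod_four (by omega), ZMod.χ₄_nat_three_mod_four (by omega)]; norm_num
  · rw [ZMod.χ₄_nat_three_mod_four (by omega), ZMod.χ₄_nat_one_mod_four (by omega)]; norm_num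

theorem sum_even (m : ℕ) : ∑ k ∈ Icc 1 (2 * m), pf k * pf (k + 1) = 0 := by
  induction m with
  | zero => simp
  | succ m ih =>
    have e : 2 * (m + 1) = 2 * m + 1 + 1 := by ring
    rw [e, sum_Icc_succ_top (by omega), sum_Icc_succ_top (by omega), ih]
    have h := pf_pair m
    have e2 : 2 * m + 1 + 1 + 1 = 2 * m + 3 := by ring
    rw [e2]
    linear_combination pf (2 * m + 1 + 1) * h

/-- partial sums of the correlation take the values `0, 1, -1` -/
theorem sum_cases (n : ℕ) : ∑ k ∈ Icc 1 n, pf k * pf (k + 1) = 0 ∨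
    ∑ k ∈ Icc 1 n, pf k * pf (k + 1) = 1 ∨ ∑ k ∈ Icc 1 n, pf k * pf (k + 1) = -1 := by
  rcases Nat.even_or_odd' n with ⟨m, rfl | rfl⟩
  · exact Or.inl (sum_even m)
  · right
    rw [sum_Icc_succ_top (by omega), sum_even, zero_add, ← pf_mul]
    exact pf_cases _ (by positivity)

theorem abs_sum_le (n : ℕ) : |∑ k ∈ Icc 1 n, pf k * pf (k + 1)| ≤ 1 := by
  rcases sum_cases n with h | h | h <;> rw [h] <;> norm_num

theorem sum_shift (n : ℕ) : ∑ k ∈ Icc 1 n, pf (k + 1) * pf (k + 2) =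
    ∑ k ∈ Icc 1 (n + 1), pf k * pf (k + 1) - 1 := by
  induction n with
  | zero =>
    have h1 : pf 1 = 1 := by rw [pf_odd _ (by norm_num)]; simp
    have h2 : pf 2 = 1 := by
      unfold pf
      have : Nat.factorization 2 2 = 1 := by simp [Nat.Prime.factorization_self Nat.prime_two]
      rw [this]; simp
    simp [h1, h2]
  | succ n ih =>
    rw [sum_Icc_succ_top (by omega), ih, sum_Icc_succ_top (a := 1) (b := n + 1) (by omega)]
    ring

theorem abs_sum_shift_le (n : ℕ) : |∑ k ∈ Icc 1 n, pf (k + 1) * pf (k + 2)| ≤ 2 := by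
  rw [sum_shift]
  rcases sum_cases (n + 1) with h | h | h <;> rw [h] <;> norm_num

theorem norm_pf (n : ℕ) (hn : 1 ≤ n) : ‖(pf n : ℂ)‖ = 1 := by
  rcases pf_cases n (by omega) with h | h <;> rw [h] <;> simp

theorem main01 (d n : ℕ) (hd : 1 ≤ d) :
    ‖∑ k ∈ Icc 1 n, (pf (k * d) : ℂ) * (pf (k * d + d) : ℂ)‖ ≤ 1 := by
  have e : ∑ k ∈ Icc 1 n, (pf (k * d) : ℂ) * (pf (k * d + d) : ℂ) =
      ((∑ k ∈ Icc 1 n, pf k * pf (k + 1) : ℤ) : ℂ) := by
    push_cast
    refine sum_congr rfl fun k _ => ?_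
    have e1 : k * d + d = (k + 1) * d := by ring
    rw [e1, pf_mul, pf_mul]
    have h := pf_sq d (by omega)
    have h' : (pf d : ℂ) * (pf d : ℂ) = 1 := by exact_mod_cast h
    push_cast
    linear_combination (pf k : ℂ) * (pf (k + 1) : ℂ) * h'
  rw [e, Complex.norm_intCast]
  exact_mod_cast abs_sum_le n

theorem main12 (d n : ℕ) (hd : 1 ≤ d) :
    ‖∑ k ∈ Icc 1 n, (pf (d * (k + 1)) : ℂ) * (pf (d * (k + 2)) : ℂ)‖ ≤ 2 := by
  have e : ∑ k ∈ Icc 1 n, (pf (d * (k + 1)) : ℂ) * (pf (d * (k + 2)) : ℂ) =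
      ((∑ k ∈ Icc 1 n, pf (k + 1) * pf (k + 2) : ℤ) : ℂ) := by
    push_cast
    refine sum_congr rfl fun k _ => ?_
    rw [pf_mul, pf_mul]
    have h := pf_sq d (by omega)
    have h' : (pf d : ℂ) * (pf d : ℂ) = 1 := by exact_mod_cast h
    push_cast
    linear_combination (pf (k + 1) : ℂ) * (pf (k + 2) : ℂ) * h'
  rw [e, Complex.norm_intCast]
  exact_mod_cast abs_sum_shift_le n

end Pool.Agent.H905Z.Fold
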