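import Mathlib

/-! Walsh analysis on the sign cube: expansion, Parseval, the noise operator, Khintchine. -/

set_option autoImplicit false

namespace Pool.Agent.H905Z.GP

open Finset

noncomputable def sg (a : Fin 2) : ℝ := (-1 : ℝ) ^ (a : ℕ)

@[simp] lemma sg_zero : sg 0 = 1 := by simp [sg]
@[simp] lemma sg_one : sg 1 = -1 := by simp [sg]

lemma sg_cases (a : Fin 2) : sg a = 1 ∨ sg a = -1 := by
  fin_cases a <;> simp

lemma sg_mul_self (a : Fin 2) : sg a * sg a = 1 := by
  rcases sg_cases a with h | h <;> simp [h]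

variable {m : ℕ}

noncomputable def ex (f : (Fin m → Fin 2) → ℝ) : ℝ := (∑ s, f s) / 2 ^ m

lemma ex_add (f g : (Fin m → Fin 2) → ℝ) : ex (fun s => f s + g s) = ex f + ex g := by
  simp [ex, sum_add_distrib, add_div]

lemma ex_sub (f g : (Fin m → Fin 2) → ℝ) : ex (fun s => f s - g s) = ex f - ex g := by
  simp [ex, sum_sub_distrib, sub_div]

lemma ex_mul (c : ℝ) (f : (Fin m → Fin 2) → ℝ) : ex (fun s => c * f s) = c * ex f := by
  simp [ex, ← mul_sum, mul_div_assoc]

lemma ex_sum {ι : Type*} (S : Finset ι) (f : ι → (Fin m → Fin 2) → ℝ) :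
    ex (fun s => ∑ i ∈ S, f i s) = ∑ i ∈ S, ex (f i) := by
  simp only [ex]
  rw [sum_comm, sum_div]

lemma ex_mono {f g : (Fin m → Fin 2) → ℝ} (h : ∀ s, f s ≤ g s) : ex f ≤ ex g := by
  unfold ex
  exact div_le_div_of_nonneg_right (sum_le_sum fun s _ => h s) (by positivity)

lemma ex_const (c : ℝ) : ex (fun _ : Fin m → Fin 2 => c) = c := by
  simp only [ex, sum_const, card_univ, Fintype.card_fun, Fintype.card_fin, nsmul_eq_mul]
  push_cast
  field_simp

lemma ex_nonneg {f : (Fin m → Fin 2) → ℝ} (h : ∀ s, 0 ≤ f s) : 0 ≤ ex f := by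
  have := ex_mono (f := fun _ => 0) (g := f) h
  rwa [ex_const] at this

lemma ex_comm (f : (Fin m → Fin 2) → (Fin m → Fin 2) → ℝ) :
    ex (fun s => ex (fun t => f s t)) = ex (fun t => ex (fun s => f s t)) := by
  simp only [ex, ← sum_div]
  rw [sum_comm]

lemma ex_abs (f : (Fin m → Fin 2) → ℝ) : |ex f| ≤ ex (fun s => |f s|) := by
  unfold ex
  rw [abs_div, abs_of_pos (by positivity : (0 : ℝ) < 2 ^ m)]
  exact div_le_div_of_nonneg_right (abs_sum_le_sum_abs _ _) (by positivity)

lemma ex_sq_le (f : (Fin m → Fin 2) → ℝ) : (ex f) ^ 2 ≤ ex (fun s => f s ^ 2) := by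
  have h := ex_nonneg (f := fun s => (f s - ex f) ^ 2) (fun s => sq_nonneg _)
  have h2 : ex (fun s => (f s - ex f) ^ 2)
      = ex (fun s => f s ^ 2) - (ex f) ^ 2 := by
    have : (fun s => (f s - ex f) ^ 2) = fun s => (f s ^ 2 - (2 * ex f) * f s) + (ex f) ^ 2 := by
      funext s; ring
    rw [this, ex_add, ex_sub, ex_mul, ex_const]; ring
  linarith

lemma ex_prod (φ : Fin m → Fin 2 → ℝ) :
    ex (fun s => ∏ j, φ j (s j)) = ∏ j, ((φ j 0 + φ j 1) / 2) := by
  unfold ex
  have h := Finset.prod_univ_sum (fun _ : Fin m => (Finset.univ : Finset (Fin 2))) φ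
  rw [Fintype.piFinset_univ] at h
  rw [← h, prod_div_distrib]
  simp [Fin.sum_univ_two]

lemma ex_succ (f : (Fin (m + 1) → Fin 2) → ℝ) :
    ex f = (ex (fun s => f (Fin.cons 0 s)) + ex (fun s => f (Fin.cons 1 s))) / 2 := by
  unfold ex
  rw [← (Fin.consEquiv (fun _ : Fin (m + 1) => Fin 2)).sum_comp f, Fintype.sum_prod_type,
    Fin.sum_univ_two]
  simp only [Fin.consEquiv, Equiv.coe_fn_mk]
  rw [pow_succ]
  field_simp

noncomputable def lin (b : Fin m → ℝ) (s : Fin m → Fin 2) : ℝ := ∑ j, b j * sg (s j)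

lemma lin_cons (b : Fin (m + 1) → ℝ) (a : Fin 2) (s : Fin m → Fin 2) :
    lin b (Fin.cons a s) = b 0 * sg a + lin (fun j => b j.succ) s := by
  simp [lin, Fin.sum_univ_succ]

lemma ex_lin_mul : ∀ {m : ℕ} (b c : Fin m → ℝ),
    ex (fun s => lin b s * lin c s) = ∑ j, b j * c j := by
  intro m
  induction m with
  | zero => intro b c; simp [lin, ex]
  | succ m ih =>
    intro b c
    rw [ex_succ, ← ex_add, Fin.sum_univ_succ, ← ih]
    simp only [lin_cons, sg_zero, sg_one]
    have : (fun s => (b 0 * 1 + lin (fun j => b j.succ) s) * (c 0 * 1 + lin (fun j => c j.succ) s) +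
        (b 0 * -1 + lin (fun j => b j.succ) s) * (c 0 * -1 + lin (fun j => c j.succ) s)) =
        fun s => 2 * (b 0 * c 0) + 2 * (lin (fun j => b j.succ) s * lin (fun j => c j.succ) s) := by
      funext s; ring
    rw [this, ex_add, ex_const, ex_mul]; ring

lemma ex_lin_sq (b : Fin m → ℝ) : ex (fun s => lin b s ^ 2) = ∑ j, b j ^ 2 := by
  simp only [sq]; exact ex_lin_mul b b

lemma ex_lin_four : ∀ {m : ℕ} (b : Fin m → ℝ),
    ex (fun s => lin b s ^ 4) ≤ 3 * (∑ j, b j ^ 2) ^ 2 := by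
  intro m
  induction m with
  | zero => intro b; simp [lin, ex]
  | succ m ih =>
    intro b
    rw [ex_succ, ← ex_add, Fin.sum_univ_succ]
    simp only [lin_cons, sg_zero, sg_one]
    have : (fun s => (b 0 * 1 + lin (fun j => b j.succ) s) ^ 4 +
        (b 0 * -1 + lin (fun j => b j.succ) s) ^ 4) =
        fun s => 2 * (b 0) ^ 4 + (12 * b 0 ^ 2 * lin (fun j => b j.succ) s ^ 2
          + 2 * lin (fun j => b j.succ) s ^ 4) := by
      funext s; ring
    rw [this, ex_add, ex_const, ex_add, ex_mul, ex_mul, ex_lin_sq]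
    have h := ih (fun j => b j.succ)
    have h4 : 0 ≤ b 0 ^ 4 := by positivity
    nlinarith

lemma lin_single (j : Fin m) (s : Fin m → Fin 2) : lin (Pi.single j (1 : ℝ)) s = sg (s j) := by
  simp [lin, Pi.single_apply]

lemma ex_lin_sg (b : Fin m → ℝ) (j : Fin m) : ex (fun s => lin b s * sg (s j)) = b j := by
  have := ex_lin_mul b (Pi.single j (1 : ℝ))
  simp only [lin_single] at this
  rw [this]
  simp [Pi.single_apply]

/-- Khintchine's lower bound. -/
lemma khin (b : Fin m → ℝ) :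
    9 * √(∑ j, b j ^ 2) ≤ 16 * ex (fun s => |lin b s|) := by
  set σ := √(∑ j, b j ^ 2) with hσ
  have h0 : 0 ≤ σ := Real.sqrt_nonneg _
  have hs : σ ^ 2 = ∑ j, b j ^ 2 := Real.sq_sqrt (sum_nonneg fun j _ => sq_nonneg _)
  have hE : 0 ≤ ex (fun s => |lin b s|) := ex_nonneg fun s => abs_nonneg _
  rcases h0.eq_or_lt with h | h
  · rw [← h]; linarith
  have key : ∀ s, 12 * σ ^ 2 * lin b s ^ 2 - lin b s ^ 4 ≤ 16 * σ ^ 3 * |lin b s| := by
    intro s
    have hu : 0 ≤ |lin b s| := abs_nonneg _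
    have e2 : lin b s ^ 2 = |lin b s| ^ 2 := (sq_abs _).symm
    have e4 : lin b s ^ 4 = |lin b s| ^ 4 := by
      rw [show (4 : ℕ) = 2 * 2 from rfl, pow_mul, pow_mul, sq_abs]
    rw [e2, e4]
    generalize |lin b s| = u at hu
    have : 0 ≤ u * ((u - 2 * σ) ^ 2 * (u + 4 * σ)) := by positivity
    nlinarith
  have h1 := ex_mono key
  rw [ex_sub, ex_mul, ex_mul, ex_lin_sq, ← hs] at h1
  have h2 := ex_lin_four b
  rw [← hs] at h2
  have h3 : σ ^ 3 * (9 * σ) ≤ σ ^ 3 * (16 * ex (fun s => |lin b s|)) := by nlinarith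
  exact le_of_mul_le_mul_left h3 (by positivity)

noncomputable def wal (A : Finset (Fin m)) (s : Fin m → Fin 2) : ℝ := ∏ j ∈ A, sg (s j)

noncomputable def hat (f : (Fin m → Fin 2) → ℝ) (A : Finset (Fin m)) : ℝ :=
  ex (fun s => f s * wal A s)

noncomputable def ker (s t : Fin m → Fin 2) : ℝ := ∏ j, (1 + sg (s j) * sg (t j) / 2)

noncomputable def noise (f : (Fin m → Fin 2) → ℝ) (s : Fin m → Fin 2) : ℝ :=
  ex (fun t => ker s t * f t)

lemma ker_nonneg (s t : Fin m → Fin 2) : 0 ≤ ker s t := by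
  refine prod_nonneg fun j _ => ?_
  rcases sg_cases (s j) with h | h <;> rcases sg_cases (t j) with h' | h' <;> rw [h, h'] <;> norm_num

lemma ker_symm (s t : Fin m → Fin 2) : ker s t = ker t s := by
  unfold ker
  exact prod_congr rfl fun j _ => by ring

lemma sum_wal (s t : Fin m → Fin 2) :
    ∑ A : Finset (Fin m), wal A s * wal A t = if s = t then 2 ^ m else 0 := by
  have h := Finset.prod_one_add (s := (univ : Finset (Fin m))) (f := fun j => sg (s j) * sg (t j))
  rw [powerset_univ] at h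
  simp only [wal, ← prod_mul_distrib]
  rw [← h]
  split_ifs with hst
  · subst hst
    simp only [sg_mul_self]
    norm_num
  · obtain ⟨j, hj⟩ := Function.ne_iff.1 hst
    refine prod_eq_zero (mem_univ j) ?_
    revert hj
    generalize s j = a
    generalize t j = c
    fin_cases a <;> fin_cases c <;> simp

lemma expansion (f : (Fin m → Fin 2) → ℝ) (s : Fin m → Fin 2) :
    f s = ∑ A : Finset (Fin m), hat f A * wal A s := by
  have : ∀ A : Finset (Fin m), hat f A * wal A s = ex (fun t => f t * (wal A t * wal A s)) := by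
    intro A
    rw [hat, mul_comm, ← ex_mul]
    congr 1; funext t; ring
  simp only [this]
  rw [← ex_sum]
  simp only [← mul_sum, sum_wal]
  simp only [ex, mul_ite, mul_zero, sum_ite_eq', mem_univ, if_true]
  field_simp

lemma parseval (f : (Fin m → Fin 2) → ℝ) :
    ex (fun s => f s ^ 2) = ∑ A : Finset (Fin m), hat f A ^ 2 := by
  have : (fun s => f s ^ 2) = fun s => ∑ A : Finset (Fin m), hat f A * (f s * wal A s) := by
    funext s
    rw [sq]
    nth_rewrite 2 [expansion f s]
    rw [mul_sum]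
    exact sum_congr rfl fun A _ => by ring
  rw [this, ex_sum]
  refine sum_congr rfl fun A _ => ?_
  rw [ex_mul, sq]; rfl

lemma eigen (A : Finset (Fin m)) (t : Fin m → Fin 2) :
    ex (fun s => ker s t * wal A s) = (1 / 2) ^ A.card * wal A t := by
  have h1 : (fun s => ker s t * wal A s) =
      fun s => ∏ j, (fun (j : Fin m) (a : Fin 2) =>
        (1 + sg a * sg (t j) / 2) * (if j ∈ A then sg a else 1)) j (s j) := by
    funext s
    simp only [ker, wal, prod_mul_distrib]
    congr 1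
    rw [prod_ite_mem, univ_inter]
  rw [h1, ex_prod (fun (j : Fin m) (a : Fin 2) =>
        (1 + sg a * sg (t j) / 2) * (if j ∈ A then sg a else 1))]
  have h2 : (1 / 2 : ℝ) ^ A.card * wal A t = ∏ j, if j ∈ A then (1 / 2) * sg (t j) else 1 := by
    rw [prod_ite_mem, univ_inter, prod_mul_distrib, prod_const, wal]
  rw [h2]
  refine prod_congr rfl fun j _ => ?_
  split_ifs <;> simp <;> ring

lemma hat_noise (f : (Fin m → Fin 2) → ℝ) (A : Finset (Fin m)) :
    hat (noise f) A = (1 / 2) ^ A.card * hat f A := by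
  unfold hat noise
  have h1 : (fun s => ex (fun t => ker s t * f t) * wal A s) =
      fun s => ex (fun t => f t * (ker s t * wal A s)) := by
    funext s
    rw [mul_comm, ← ex_mul]
    congr 1; funext t; ring
  rw [h1, ex_comm]
  simp only [ex_mul, eigen]
  rw [← ex_mul]
  congr 1; funext t; ring

lemma noise_contr (f : (Fin m → Fin 2) → ℝ) :
    ex (fun s => noise f s ^ 2) ≤ ex (fun s => f s ^ 2) := by
  rw [parseval, parseval]
  refine sum_le_sum fun A _ => ?_
  rw [hat_noise, mul_pow]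
  have : ((1 / 2 : ℝ) ^ A.card) ^ 2 ≤ 1 :=
    pow_le_one₀ (by positivity) (pow_le_one₀ (by norm_num) (by norm_num))
  nlinarith [sq_nonneg (hat f A)]

lemma noise_sg (j : Fin m) (s : Fin m → Fin 2) :
    ex (fun t => ker s t * sg (t j)) = sg (s j) / 2 := by
  have := eigen {j} s
  simp only [wal, prod_singleton, card_singleton, pow_one] at this
  simp only [ker_symm s]
  rw [this]; ring

/-- first level coefficients -/
noncomputable def co (f : (Fin m → Fin 2) → ℝ) (j : Fin m) : ℝ := ex (fun s => f s * sg (s j))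

lemma co_eq (f : (Fin m → Fin 2) → ℝ) (j : Fin m) : co f j = hat f {j} := by
  simp [co, hat, wal]

lemma rem_eq (f : (Fin m → Fin 2) → ℝ) :
    ex (fun s => (f s - lin (co f) s) ^ 2) = ex (fun s => f s ^ 2) - ∑ j, co f j ^ 2 := by
  have h1 : (fun s => (f s - lin (co f) s) ^ 2) =
      fun s => (f s ^ 2 - 2 * ∑ j, co f j * (f s * sg (s j))) + lin (co f) s ^ 2 := by
    funext s
    have : ∑ j, co f j * (f s * sg (s j)) = f s * lin (co f) s := by
      rw [lin, mul_sum]; exact sum_congr rfl fun j _ => by ring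
    rw [this]; ring
  rw [h1, ex_add, ex_sub, ex_mul, ex_sum, ex_lin_sq]
  simp only [ex_mul]
  have : ∑ j, co f j * ex (fun s => f s * sg (s j)) = ∑ j, co f j ^ 2 :=
    sum_congr rfl fun j _ => by rw [sq]; rfl
  rw [this]; ring

lemma bessel (f : (Fin m → Fin 2) → ℝ) : ∑ j, co f j ^ 2 ≤ ex (fun s => f s ^ 2) := by
  have := ex_nonneg (f := fun s => (f s - lin (co f) s) ^ 2) fun s => sq_nonneg _
  rw [rem_eq] at this
  linarith

lemma noise_lower (f : (Fin m → Fin 2) → ℝ) :
    ex (fun s => f s ^ 2) - ∑ j, co f j ^ 2 ≤ 4 * ex (fun s => (2 * noise f s - f s) ^ 2) := by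
  rw [parseval, parseval]
  have h1 : ∑ j, co f j ^ 2 = ∑ A : Finset (Fin m), if A.card = 1 then hat f A ^ 2 else 0 := by
    rw [← sum_filter]
    have : (univ.filter fun A : Finset (Fin m) => A.card = 1) = univ.image fun j => {j} := by
      ext A
      simp [card_eq_one, eq_comm]
    rw [this, sum_image (fun a _ b _ h => singleton_injective h)]
    simp only [co_eq]
  rw [h1, ← sum_sub_distrib, mul_sum]
  refine sum_le_sum fun A _ => ?_
  have h2 : hat (fun s => 2 * noise f s - f s) A = (2 * (1 / 2) ^ A.card - 1) * hat f A := by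
    have : hat (fun s => 2 * noise f s - f s) A = 2 * hat (noise f) A - hat f A := by
      unfold hat
      rw [← ex_mul, ← ex_sub]
      congr 1; funext s; ring
    rw [this, hat_noise]; ring
  rw [h2, mul_pow]
  have h0 := sq_nonneg (hat f A)
  split_ifs with hA
  · rw [sub_self]; positivity
  · have : (1 / 4 : ℝ) ≤ (2 * (1 / 2) ^ A.card - 1) ^ 2 := by
      rcases Nat.lt_or_ge A.card 2 with h | h
      · have : A.card = 0 := by omega
        rw [this]; norm_num
      · have h3 : (1 / 2 : ℝ) ^ A.card ≤ (1 / 2) ^ 2 :=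
          pow_le_pow_of_le_one (by norm_num) (by norm_num) h
        have h4 : (0 : ℝ) ≤ (1 / 2) ^ A.card := by positivity
        nlinarith
    nlinarith

lemma level_bound (f : (Fin m → Fin 2) → ℝ) :
    ∑ j, co f j ^ 2 ≤ 7 * ((ex fun s => |f s|) ^ 2 +
      (ex (fun s => f s ^ 2) - ∑ j, co f j ^ 2)) := by
  rw [← rem_eq]
  have hk := khin (co f)
  set σ := √(∑ j, co f j ^ 2) with hσ
  have h0 : 0 ≤ σ := Real.sqrt_nonneg _
  have hs : σ ^ 2 = ∑ j, co f j ^ 2 := Real.sq_sqrt (sum_nonneg fun j _ => sq_nonneg _)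
  have h1 : ex (fun s => |lin (co f) s|) ≤
      (ex fun s => |f s|) + ex (fun s => |f s - lin (co f) s|) := by
    rw [← ex_add]
    refine ex_mono fun s => ?_
    have := abs_sub (f s) (f s - lin (co f) s)
    rwa [sub_sub_cancel] at this
  have h2 := ex_sq_le (fun s => |f s - lin (co f) s|)
  simp only [sq_abs] at h2
  rw [← hs]
  set a := ex fun s => |f s|
  set e := ex (fun s => |f s - lin (co f) s|)
  have h3 : 9 * σ ≤ 16 * (a + e) := by linarith
  have h4 : (9 * σ) ^ 2 ≤ (16 * (a + e)) ^ 2 := pow_le_pow_left₀ (by positivity) h3 2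
  nlinarith [sq_nonneg (a - e), sq_nonneg a, sq_nonneg e]

end Pool.Agent.H905Z.GP
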