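import Mathlib
import Pool.Agent.H905Z.GPCube

/-! Cotype two of a quotient of `ℓ¹` from three inequalities on the quotient map. -/

set_option autoImplicit false

namespace Pool.Agent.H905Z.GP

open Finset

variable {m N n : ℕ}

noncomputable def l1 {ι : Type*} [Fintype ι] (v : ι → ℝ) : ℝ := ∑ i, |v i|
noncomputable def s2 {ι : Type*} [Fintype ι] (v : ι → ℝ) : ℝ := ∑ i, v i ^ 2

lemma l1_nonneg {ι : Type*} [Fintype ι] (v : ι → ℝ) : 0 ≤ l1 v :=
  sum_nonneg fun _ _ => abs_nonneg _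

lemma s2_nonneg {ι : Type*} [Fintype ι] (v : ι → ℝ) : 0 ≤ s2 v :=
  sum_nonneg fun _ _ => sq_nonneg _

lemma l1_add {ι : Type*} [Fintype ι] (v w : ι → ℝ) : l1 (v + w) ≤ l1 v + l1 w := by
  unfold l1
  rw [← sum_add_distrib]
  exact sum_le_sum fun i _ => abs_add_le _ _

/-- vector valued average -/
noncomputable def exv {ι : Type*} (F : (Fin m → Fin 2) → ι → ℝ) : ι → ℝ :=
  fun i => ex (fun s => F s i)

lemma map_exv (Γ : (Fin N → ℝ) →ₗ[ℝ] (Fin n → ℝ)) (c : (Fin m → Fin 2) → ℝ)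
    (F : (Fin m → Fin 2) → Fin N → ℝ) (k : Fin n) :
    Γ (exv (fun s i => c s * F s i)) k = ex (fun s => c s * Γ (F s) k) := by
  have : exv (fun s i => c s * F s i) = ((2 : ℝ) ^ m)⁻¹ • ∑ s, c s • F s := by
    funext i
    simp [exv, ex, Finset.sum_apply, div_eq_inv_mul]
  rw [this, map_smul, map_sum]
  simp [ex, Finset.sum_apply, div_eq_inv_mul]

lemma minkowski {ι : Type*} (I : Finset ι) (b : Fin m → ι → ℝ) (μ : ι → ℝ) (hμ : ∀ i, 0 ≤ μ i)
    (h : ∀ i ∈ I, ∑ j, b j i ^ 2 ≤ μ i ^ 2) :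
    ∑ j, (∑ i ∈ I, |b j i|) ^ 2 ≤ (∑ i ∈ I, μ i) ^ 2 := by
  simp only [sq (∑ i ∈ I, _), sum_mul_sum]
  rw [sum_comm]
  refine sum_le_sum fun i hi => ?_
  rw [sum_comm]
  refine sum_le_sum fun k hk => ?_
  have h1 := Finset.sum_mul_sq_le_sq_mul_sq univ (fun j => |b j i|) (fun j => |b j k|)
  simp only [sq_abs] at h1
  have h2 : (∑ j, b j i ^ 2) * ∑ j, b j k ^ 2 ≤ μ i ^ 2 * μ k ^ 2 :=
    mul_le_mul (h i hi) (h k hk) (sum_nonneg fun _ _ => sq_nonneg _) (sq_nonneg _)
  refine le_of_sq_le_sq (h1.trans (h2.trans (le_of_eq (by ring)))) (mul_nonneg (hμ i) (hμ k))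

theorem cot_lift (Γ : (Fin N → ℝ) →ₗ[ℝ] (Fin n → ℝ)) (φ : (Fin n → ℝ) → ℝ) (C L : ℝ)
    (hC : 0 ≤ C) (hL : 0 < L)
    (hU : ∀ v, s2 (Γ v) ≤ C * (n * s2 v + L * l1 v ^ 2))
    (hW : ∀ v, Γ v = 0 → n * s2 v ≤ C * (L * l1 v ^ 2))
    (hB : ∀ v, ∃ w, Γ w = Γ v ∧ L * l1 w ^ 2 ≤ C * (s2 (Γ v) + n * s2 v))
    (hG : ∀ a, φ (Γ a) ≤ l1 a) (hφ : ∀ x, 0 ≤ φ x)
    (x : Fin m → Fin n → ℝ) (a : (Fin m → Fin 2) → Fin N → ℝ)
    (ha : ∀ s, Γ (a s) = ∑ j, sg (s j) • x j) :
    ∑ j, φ (x j) ^ 2 ≤ (32 + 2 * C * (C * (600 * C + 1) + 560 * C)) * ex (fun s => l1 (a s) ^ 2) := by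
  classical
  set A2 := ex (fun s => l1 (a s) ^ 2) with hA2
  have hA0 : 0 ≤ A2 := ex_nonneg fun s => sq_nonneg _
  have hlin : ∀ s k, Γ (a s) k = lin (fun j => x j k) s := by
    intro s k
    rw [ha]
    simp [lin, Finset.sum_apply, mul_comm]
  -- the kernel vectors
  set w : (Fin m → Fin 2) → Fin N → ℝ :=
    fun s i => 2 * noise (fun t => a t i) s - a s i with hw
  have hw0 : ∀ s, Γ (w s) = 0 := by
    intro s
    have h1 : w s = (2 : ℝ) • exv (fun t i => ker s t * a t i) - a s := by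
      funext i; simp [hw, exv, noise]
    rw [h1, map_sub, map_smul]
    funext k
    simp only [Pi.sub_apply, Pi.smul_apply, smul_eq_mul, Pi.zero_apply]
    rw [map_exv]
    simp only [hlin, lin, mul_sum]
    rw [ex_sum]
    have : ∀ j, ex (fun t => ker s t * (x j k * sg (t j))) = x j k * (sg (s j) / 2) := by
      intro j
      rw [← noise_sg, ← ex_mul]
      congr 1; funext t; ring
    simp only [this]
    rw [mul_sum, ← sum_sub_distrib]
    exact sum_eq_zero fun j _ => by ring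
  have hw1 : ∀ s, l1 (w s) ≤ 2 * noise (fun t => l1 (a t)) s + l1 (a s) := by
    intro s
    have h1 : noise (fun t => l1 (a t)) s = ∑ i, ex (fun t => ker s t * |a t i|) := by
      rw [← ex_sum]
      simp only [noise, l1, mul_sum]
    rw [h1, l1, l1, mul_sum, ← sum_add_distrib]
    refine sum_le_sum fun i _ => ?_
    have h2 : |noise (fun t => a t i) s| ≤ ex (fun t => ker s t * |a t i|) := by
      refine (ex_abs _).trans (ex_mono fun t => ?_)
      rw [abs_mul, abs_of_nonneg (ker_nonneg s t)]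
    have h3 := abs_sub (2 * noise (fun t => a t i) s) (a s i)
    rw [abs_mul, abs_two] at h3
    simp only [hw]
    linarith
  have hw2 : ex (fun s => l1 (w s) ^ 2) ≤ 10 * A2 := by
    have h1 := noise_contr (fun t => l1 (a t))
    have h2 : ex (fun s => l1 (w s) ^ 2) ≤
        ex (fun s => 8 * noise (fun t => l1 (a t)) s ^ 2 + 2 * l1 (a s) ^ 2) := by
      refine ex_mono fun s => ?_
      have h3 := pow_le_pow_left₀ (l1_nonneg _) (hw1 s) 2
      nlinarith [sq_nonneg (2 * noise (fun t => l1 (a t)) s - l1 (a s))]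
    rw [ex_add, ex_mul, ex_mul] at h2
    linarith
  -- coordinate data
  set β : Fin m → Fin N → ℝ := fun j i => co (fun s => a s i) j with hβ
  set e2 : Fin N → ℝ := fun i => ex (fun s => a s i ^ 2) - ∑ j, β j i ^ 2 with he2
  set μ : Fin N → ℝ := fun i => ex (fun s => |a s i|) with hμ
  have he0 : ∀ i, 0 ≤ e2 i := fun i => sub_nonneg.2 (bessel _)
  have hμ0 : ∀ i, 0 ≤ μ i := fun i => ex_nonneg fun s => abs_nonneg _
  have hlev : ∀ i, ∑ j, β j i ^ 2 ≤ 7 * (μ i ^ 2 + e2 i) := fun i => level_bound _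
  have hE : n * ∑ i, e2 i ≤ 40 * C * L * A2 := by
    have h1 : ∑ i, e2 i ≤ 4 * ex (fun s => s2 (w s)) := by
      simp only [s2]
      rw [ex_sum, mul_sum]
      exact sum_le_sum fun i _ => noise_lower _
    have h2 : n * ex (fun s => s2 (w s)) ≤ C * L * ex (fun s => l1 (w s) ^ 2) := by
      rw [← ex_mul, ← ex_mul]
      refine ex_mono fun s => ?_
      rw [mul_assoc]; exact hW _ (hw0 s)
    have h3 : C * L * ex (fun s => l1 (w s) ^ 2) ≤ C * L * (10 * A2) :=
      mul_le_mul_of_nonneg_left hw2 (by positivity)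
    have h4 : (n : ℝ) * ∑ i, e2 i ≤ n * (4 * ex (fun s => s2 (w s))) :=
      mul_le_mul_of_nonneg_left h1 (Nat.cast_nonneg n)
    nlinarith
  set I : Finset (Fin N) := univ.filter fun i => e2 i ≤ μ i ^ 2 with hI
  set u : Fin m → Fin N → ℝ := fun j i => if i ∈ I then β j i else 0 with hu
  set v : Fin m → Fin N → ℝ := fun j i => if i ∈ I then 0 else β j i with hv
  set r : (Fin m → Fin 2) → Fin N → ℝ := fun s i => if i ∈ I then 0 else a s i with hr
  have hβx : ∀ j, Γ (β j) = x j := by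
    intro j
    have h1 : β j = exv (fun s i => sg (s j) * a s i) := by
      funext i
      simp only [hβ, co, exv]
      congr 1; funext s; ring
    funext k
    rw [h1, map_exv]
    simp only [hlin]
    rw [← ex_lin_sg (fun j => x j k) j]
    congr 1; funext s; ring
  have huv : ∀ j, β j = u j + v j := by
    intro j; funext i
    simp only [hu, hv, Pi.add_apply]
    split_ifs <;> simp
  have hu1 : ∑ j, l1 (u j) ^ 2 ≤ 16 * A2 := by
    have h1 : ∀ j, l1 (u j) = ∑ i ∈ I, |β j i| := by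
      intro j
      simp only [l1, hu]
      rw [← sum_filter_add_sum_filter_not univ (fun i => i ∈ I)]
      rw [sum_eq_zero (s := univ.filter fun i => ¬ i ∈ I) (fun i hi => by
        rw [if_neg (mem_filter.1 hi).2, abs_zero]), add_zero, filter_mem_eq_inter, univ_inter]
      exact sum_congr rfl fun i hi => by rw [if_pos hi]
    simp only [h1]
    have h2 := minkowski I β (fun i => 4 * μ i) (fun i => by have := hμ0 i; positivity)
      (fun i hi => by
        have := (mem_filter.1 hi).2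
        have := hlev i
        nlinarith [sq_nonneg (μ i)])
    have h3 : ∑ i ∈ I, 4 * μ i ≤ 4 * ex (fun s => l1 (a s)) := by
      simp only [l1]
      rw [ex_sum, mul_sum]
      exact sum_le_sum_of_subset_of_nonneg (subset_univ _)
        (fun i _ _ => by have := hμ0 i; positivity)
    have h4 := pow_le_pow_left₀ (sum_nonneg fun i _ => by have := hμ0 i; positivity) h3 2
    have h5 := ex_sq_le (fun s => l1 (a s))
    nlinarith
  have hoff : ∀ i, i ∉ I → ∑ j, β j i ^ 2 ≤ 14 * e2 i := by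
    intro i hi
    have h1 : ¬ e2 i ≤ μ i ^ 2 := fun h => hi (mem_filter.2 ⟨mem_univ _, h⟩)
    have := hlev i
    linarith [not_le.1 h1]
  have hv1 : ∑ j, s2 (v j) ≤ 14 * ∑ i, e2 i := by
    simp only [s2]
    rw [sum_comm, mul_sum]
    refine sum_le_sum fun i _ => ?_
    by_cases hi : i ∈ I
    · simp only [hv, if_pos hi]
      have := he0 i
      simp; linarith
    · simp only [hv, if_neg hi]
      exact hoff i hi
  have hr1 : ex (fun s => s2 (r s)) ≤ 15 * ∑ i, e2 i := by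
    simp only [s2]
    rw [ex_sum, mul_sum]
    refine sum_le_sum fun i _ => ?_
    by_cases hi : i ∈ I
    · simp only [hr, if_pos hi]
      have := he0 i
      rw [ex_const]
      simp; linarith
    · simp only [hr, if_neg hi]
      have := hoff i hi
      simp only [he2] at this ⊢
      linarith
  have hr2 : ∀ s, l1 (r s) ≤ l1 (a s) := by
    intro s
    refine sum_le_sum fun i _ => ?_
    simp only [hr]
    split_ifs
    · simp
    · exact le_rfl
  have hv2 : ∑ j, s2 (Γ (v j)) ≤ C * (600 * C + 1) * L * A2 := by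
    have h1 : ∀ j k, Γ (v j) k = co (fun s => Γ (r s) k) j := by
      intro j k
      have h2 : v j = exv (fun s i => sg (s j) * r s i) := by
        funext i
        simp only [hv, hr, exv, hβ, co]
        split_ifs
        · simp [ex]
        · congr 1; funext s; ring
      rw [h2, map_exv, co]
      congr 1; funext s; ring
    have h2 : ∑ j, s2 (Γ (v j)) ≤ ex (fun s => s2 (Γ (r s))) := by
      simp only [s2, h1]
      rw [sum_comm, ex_sum]
      exact sum_le_sum fun k _ => bessel _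
    have h3 : ex (fun s => s2 (Γ (r s))) ≤
        ex (fun s => C * n * s2 (r s) + C * L * l1 (a s) ^ 2) := by
      refine ex_mono fun s => (hU _).trans ?_
      have h4 := pow_le_pow_left₀ (l1_nonneg _) (hr2 s) 2
      have h5 : C * L * l1 (r s) ^ 2 ≤ C * L * l1 (a s) ^ 2 :=
        mul_le_mul_of_nonneg_left h4 (by positivity)
      nlinarith
    rw [ex_add, ex_mul, ex_mul] at h3
    have h4 : C * n * ex (fun s => s2 (r s)) ≤ C * n * (15 * ∑ i, e2 i) :=
      mul_le_mul_of_nonneg_left hr1 (by positivity)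
    have h5 : C * (n * ∑ i, e2 i) ≤ C * (40 * C * L * A2) := mul_le_mul_of_nonneg_left hE hC
    nlinarith
  choose z hz hz' using fun j => hB (v j)
  have hz2 : ∑ j, l1 (z j) ^ 2 ≤ C * (C * (600 * C + 1) + 560 * C) * A2 := by
    have h1 : L * ∑ j, l1 (z j) ^ 2 ≤ C * (∑ j, s2 (Γ (v j)) + n * ∑ j, s2 (v j)) := by
      rw [mul_sum, mul_sum, ← sum_add_distrib, mul_sum]
      exact sum_le_sum fun j _ => hz' j
    have h2 : (n : ℝ) * ∑ j, s2 (v j) ≤ n * (14 * ∑ i, e2 i) :=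
      mul_le_mul_of_nonneg_left hv1 (Nat.cast_nonneg n)
    have h3 : ∑ j, s2 (Γ (v j)) + n * ∑ j, s2 (v j) ≤
        (C * (600 * C + 1) + 560 * C) * L * A2 := by nlinarith
    have h4 := mul_le_mul_of_nonneg_left h3 hC
    have h5 : L * ∑ j, l1 (z j) ^ 2 ≤ L * (C * (C * (600 * C + 1) + 560 * C) * A2) := by
      nlinarith
    exact le_of_mul_le_mul_left h5 hL
  have hfin : ∀ j, φ (x j) ^ 2 ≤ 2 * l1 (u j) ^ 2 + 2 * l1 (z j) ^ 2 := by
    intro j
    have h1 : x j = Γ (u j + z j) := by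
      rw [map_add, hz, ← map_add, ← huv, hβx]
    have h2 : φ (x j) ≤ l1 (u j) + l1 (z j) := by
      rw [h1]; exact (hG _).trans (l1_add _ _)
    have h3 := pow_le_pow_left₀ (hφ _) h2 2
    nlinarith [sq_nonneg (l1 (u j) - l1 (z j))]
  have h6 := sum_le_sum fun j (_ : j ∈ univ) => hfin j
  rw [sum_add_distrib, ← mul_sum, ← mul_sum] at h6
  nlinarith

theorem cot_det (Γ : (Fin N → ℝ) →ₗ[ℝ] (Fin n → ℝ)) (φ : (Fin n → ℝ) → ℝ) (C L : ℝ)
    (hC : 0 ≤ C) (hL : 0 < L)
    (hU : ∀ v, s2 (Γ v) ≤ C * (n * s2 v + L * l1 v ^ 2))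
    (hW : ∀ v, Γ v = 0 → n * s2 v ≤ C * (L * l1 v ^ 2))
    (hB : ∀ v, ∃ w, Γ w = Γ v ∧ L * l1 w ^ 2 ≤ C * (s2 (Γ v) + n * s2 v))
    (hG : ∀ a, φ (Γ a) ≤ l1 a) (hφ : ∀ x, 0 ≤ φ x)
    (hG2 : ∀ x δ, 0 < δ → ∃ a, Γ a = x ∧ l1 a ≤ φ x + δ)
    (x : Fin m → Fin n → ℝ) :
    ∑ j, φ (x j) ^ 2 ≤ 2 * (32 + 2 * C * (C * (600 * C + 1) + 560 * C)) *
      ex (fun s => φ (∑ j, sg (s j) • x j) ^ 2) := by
  set D := 32 + 2 * C * (C * (600 * C + 1) + 560 * C) with hD
  have hD0 : 0 < D := by positivity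
  refine le_of_forall_pos_le_add fun ε hε => ?_
  set δ := √(ε / (2 * D)) with hδ
  have hδ0 : 0 < δ := Real.sqrt_pos.2 (by positivity)
  have hδ2 : δ ^ 2 = ε / (2 * D) := Real.sq_sqrt (by positivity)
  choose a ha ha' using fun s : Fin m → Fin 2 => hG2 (∑ j, sg (s j) • x j) δ hδ0
  have h1 := cot_lift Γ φ C L hC hL hU hW hB hG hφ x a ha
  have h2 : ex (fun s => l1 (a s) ^ 2) ≤
      ex (fun s : Fin m → Fin 2 => 2 * φ (∑ j, sg (s j) • x j) ^ 2 + 2 * δ ^ 2) := by
    refine ex_mono fun s => ?_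
    have h3 := pow_le_pow_left₀ (l1_nonneg _) (ha' s) 2
    nlinarith [sq_nonneg (φ (∑ j, sg (s j) • x j) - δ)]
  rw [ex_add, ex_mul, ex_const] at h2
  have h3 := mul_le_mul_of_nonneg_left h2 hD0.le
  have h4 : D * (2 * δ ^ 2) = ε := by rw [hδ2]; field_simp
  rw [← hD] at h1
  nlinarith

end Pool.Agent.H905Z.GP
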