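import Mathlib
import Pool.Agent.H905Z.GPDet

/-! Deterministic consequences of the three good events for the map `v ↦ ∑ v i • g i`. -/

set_option autoImplicit false

namespace Pool.Agent.H905Z.GP

open Finset

variable {N n : ℕ}

noncomputable def ip {ι : Type*} [Fintype ι] (x y : ι → ℝ) : ℝ := ∑ j, x j * y j
noncomputable def nr {ι : Type*} [Fintype ι] (x : ι → ℝ) : ℝ := √(s2 x)

section basic
variable {ι : Type*} [Fintype ι]

lemma nr_nonneg (x : ι → ℝ) : 0 ≤ nr x := Real.sqrt_nonneg _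
lemma nr_sq (x : ι → ℝ) : nr x ^ 2 = s2 x := Real.sq_sqrt (s2_nonneg x)
lemma ip_le (x y : ι → ℝ) : ip x y ≤ nr x * nr y := Real.sum_mul_le_sqrt_mul_sqrt _ _ _
lemma ip_self (x : ι → ℝ) : ip x x = s2 x := by simp [ip, s2, sq]
lemma ip_add (x y z : ι → ℝ) : ip x (y + z) = ip x y + ip x z := by
  simp [ip, mul_add, sum_add_distrib]
lemma ip_sub (x y z : ι → ℝ) : ip x (y - z) = ip x y - ip x z := by
  simp [ip, mul_sub, sum_sub_distrib]
lemma ip_smul (c : ℝ) (x y : ι → ℝ) : ip x (c • y) = c * ip x y := by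
  simp only [ip, Pi.smul_apply, smul_eq_mul, mul_sum]
  exact sum_congr rfl fun j _ => by ring
lemma s2_smul (c : ℝ) (x : ι → ℝ) : s2 (c • x) = c ^ 2 * s2 x := by
  simp [s2, mul_pow, mul_sum]
lemma nr_smul (c : ℝ) (x : ι → ℝ) : nr (c • x) = |c| * nr x := by
  rw [nr, s2_smul, Real.sqrt_mul (sq_nonneg c), Real.sqrt_sq_eq_abs, nr]
lemma l1_smul (c : ℝ) (x : ι → ℝ) : l1 (c • x) = |c| * l1 x := by
  simp [l1, abs_mul, mul_sum]
lemma nr_add (x y : ι → ℝ) : nr (x + y) ≤ nr x + nr y := by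
  refine le_of_sq_le_sq ?_ (add_nonneg (nr_nonneg x) (nr_nonneg y))
  have h : s2 (x + y) = s2 x + 2 * ip x y + s2 y := by
    simp only [s2, ip, Pi.add_apply, mul_sum, ← sum_add_distrib]
    exact sum_congr rfl fun j _ => by ring
  rw [nr_sq, h, add_sq, nr_sq, nr_sq]
  linarith [ip_le x y]
lemma nr_neg (x : ι → ℝ) : nr (-x) = nr x := by simp [nr, s2]
lemma nr_zero : nr (0 : ι → ℝ) = 0 := by simp [nr, s2]
lemma s2_unit (x : ι → ℝ) (hx : 0 < nr x) : s2 ((nr x)⁻¹ • x) = 1 := by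
  rw [s2_smul, ← nr_sq]; field_simp
lemma nr_le_of {x : ι → ℝ} {a : ℝ} (ha : 0 ≤ a) (h : s2 x ≤ a ^ 2) : nr x ≤ a := by
  refine le_of_sq_le_sq ?_ ha
  rwa [nr_sq]
lemma l1_sq_le (x : ι → ℝ) : l1 x ^ 2 ≤ Fintype.card ι * s2 x := by
  have := sq_sum_le_card_mul_sum_sq (s := (univ : Finset ι)) (f := fun i => |x i|)
  simpa [l1, s2] using this
lemma eq_zero_of_l1 {x : ι → ℝ} (h : l1 x = 0) : x = 0 := by
  funext i
  have := (sum_eq_zero_iff_of_nonneg (fun i _ => abs_nonneg (x i))).1 h i (mem_univ i)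
  simpa using this
end basic

noncomputable def Gam (g : Fin N → Fin n → ℝ) : (Fin N → ℝ) →ₗ[ℝ] (Fin n → ℝ) :=
  Fintype.linearCombination ℝ g

lemma Gam_apply (g : Fin N → Fin n → ℝ) (v : Fin N → ℝ) (k : Fin n) :
    Gam g v k = ∑ i, v i * g i k := by
  simp [Gam, Fintype.linearCombination_apply, Finset.sum_apply]

lemma ip_Gam (g : Fin N → Fin n → ℝ) (v : Fin N → ℝ) (y : Fin n → ℝ) :
    ip (Gam g v) y = ∑ i, v i * ip (g i) y := by
  simp only [ip, Gam_apply, sum_mul, mul_sum]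
  rw [sum_comm]
  exact sum_congr rfl fun i _ => sum_congr rfl fun j _ => by ring

lemma Gam_single (g : Fin N → Fin n → ℝ) (i : Fin N) : Gam g (Pi.single i 1) = g i := by
  funext k
  simp [Gam_apply, Pi.single_apply]

def IsNet (S : Finset (Fin n → ℝ)) (δ : ℝ) : Prop :=
  ∀ y, s2 y = 1 → ∃ u ∈ S, nr (y - u) ≤ δ

theorem upper_of (g : Fin N → Fin n → ℝ) (S : Finset (Fin n → ℝ)) (ρ : ℝ) (hρ : 0 ≤ ρ)
    (hS : IsNet S (1 / 2))
    (h : ∀ u ∈ S, ∑ i, (max (|ip (g i) u| - 2 * ρ) 0) ^ 2 ≤ 16 * n) (v : Fin N → ℝ) :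
    nr (Gam g v) ≤ 8 * (√n * nr v + ρ * l1 v) := by
  have hv := nr_nonneg v
  have hl := l1_nonneg v
  have hn := Real.sqrt_nonneg (n : ℝ)
  rcases (nr_nonneg (Gam g v)).eq_or_lt with h0 | h0
  · rw [← h0]; positivity
  obtain ⟨u, hu, hd⟩ := hS _ (s2_unit _ h0)
  set x := Gam g v with hx
  have h1 : nr x = ip x ((nr x)⁻¹ • x) := by
    rw [ip_smul, ip_self, ← nr_sq]; field_simp
  have h2 : ip x ((nr x)⁻¹ • x) = ip x u + ip x ((nr x)⁻¹ • x - u) := by
    rw [ip_sub]; ring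
  have h3 : ip x ((nr x)⁻¹ • x - u) ≤ nr x * (1 / 2) :=
    (ip_le _ _).trans (mul_le_mul_of_nonneg_left hd h0.le)
  have h4 : ip x u ≤ ip (fun i => |v i|) (fun i => max (|ip (g i) u| - 2 * ρ) 0)
      + 2 * ρ * l1 v := by
    rw [hx, ip_Gam, ip, l1, mul_sum, ← sum_add_distrib]
    refine sum_le_sum fun i _ => ?_
    have h5 : v i * ip (g i) u ≤ |v i| * |ip (g i) u| := by
      rw [← abs_mul]; exact le_abs_self _
    have h6 : |ip (g i) u| ≤ max (|ip (g i) u| - 2 * ρ) 0 + 2 * ρ := by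
      linarith [le_max_left (|ip (g i) u| - 2 * ρ) 0]
    have h7 := mul_le_mul_of_nonneg_left h6 (abs_nonneg (v i))
    nlinarith
  have h5 : nr (fun i => |v i|) = nr v := by simp [nr, s2]
  have h6 : nr (fun i => max (|ip (g i) u| - 2 * ρ) 0) ≤ 4 * √n := by
    refine nr_le_of (by positivity) ?_
    rw [mul_pow, Real.sq_sqrt (Nat.cast_nonneg n)]
    have := h u hu
    simp only [s2]
    linarith
  have h7 := ip_le (fun i => |v i|) (fun i => max (|ip (g i) u| - 2 * ρ) 0)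
  rw [h5] at h7
  have h8 := mul_le_mul_of_nonneg_left h6 hv
  have h9 : 0 ≤ ρ * l1 v := by positivity
  nlinarith

lemma trunc (x h : ℝ) (hh : 0 < h) :
    ∃ k : ℤ, |h * k| ≤ |x| ∧ |x - h * k| ≤ h ∧ |x - h * k| ≤ |x| := by
  have key : ∀ y : ℝ, 0 ≤ y → ∃ k : ℤ, |h * k| ≤ |y| ∧ |y - h * k| ≤ h ∧ |y - h * k| ≤ |y| := by
    intro y hy
    have h1 : (⌊y / h⌋ : ℝ) ≤ y / h := Int.floor_le _
    have h2 : y / h < ⌊y / h⌋ + 1 := Int.lt_floor_add_one _
    have h3 : (0 : ℝ) ≤ ⌊y / h⌋ := by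
      exact_mod_cast Int.floor_nonneg.2 (div_nonneg hy hh.le)
    rw [le_div_iff₀ hh] at h1
    rw [div_lt_iff₀ hh] at h2
    have h4 : 0 ≤ h * ⌊y / h⌋ := by positivity
    refine ⟨⌊y / h⌋, ?_, ?_, ?_⟩
    · rw [abs_of_nonneg h4, abs_of_nonneg hy]; linarith
    · rw [abs_of_nonneg (by linarith)]; linarith
    · rw [abs_of_nonneg (by linarith), abs_of_nonneg hy]; linarith
  rcases le_total 0 x with hx | hx
  · exact key x hx
  · obtain ⟨k, h1, h2, h3⟩ := key (-x) (by linarith)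
    refine ⟨-k, ?_, ?_, ?_⟩
    · rw [Int.cast_neg, mul_neg, abs_neg]; rwa [abs_neg] at h1
    · rw [Int.cast_neg, ← abs_neg]; convert h2 using 2; ring
    · rw [abs_neg] at h3
      rw [Int.cast_neg, ← abs_neg]; convert h3 using 2; ring

theorem lower_of (g : Fin N → Fin n → ℝ) (ρ : ℝ) (hρ : 0 < ρ)
    (hU : ∀ v, nr (Gam g v) ≤ 8 * (√n * nr v + ρ * l1 v))
    (h : ∀ k : Fin N → ℤ, k ≠ 0 → l1 (fun i => (k i : ℝ)) ≤ n / (100 * ρ ^ 2) →
      n * s2 (fun i => (k i : ℝ)) ≤ 100 * s2 (Gam g fun i => (k i : ℝ)))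
    (v : Fin N → ℝ) (hv : Gam g v = 0) : √n * nr v ≤ 1000 * ρ * l1 v := by
  by_contra hcon
  push Not at hcon
  have hl := l1_nonneg v
  have hpos : 0 < √n * nr v := lt_of_le_of_lt (by positivity) hcon
  have hn : 0 < √(n : ℝ) := by
    rcases (Real.sqrt_nonneg (n : ℝ)).eq_or_lt with h0 | h0
    · rw [← h0] at hpos; simp at hpos
    · exact h0
  have ha : 0 < nr v := by
    rcases (nr_nonneg v).eq_or_lt with h0 | h0
    · rw [← h0] at hpos; simp at hpos
    · exact h0
  have hnn : √(n : ℝ) ^ 2 = n := Real.sq_sqrt (Nat.cast_nonneg n)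
  set q := √(n : ℝ) with hq
  set a := nr v with hadef
  set t := ρ * a / (10 * q) with ht
  have ht0 : 0 < t := by positivity
  choose k hk1 hk2 hk3 using fun i => trunc (v i) t ht0
  set κ : Fin N → ℝ := fun i => (k i : ℝ) with hκ
  set r : Fin N → ℝ := v - t • κ with hr
  have hr1 : l1 r ≤ l1 v := sum_le_sum fun i _ => by simpa [hr, hκ] using hk3 i
  have hr2 : s2 r ≤ t * l1 r := by
    rw [s2, l1, mul_sum]
    refine sum_le_sum fun i _ => ?_
    have h1 : |r i| ≤ t := by simpa [hr, hκ] using hk2 i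
    rw [← sq_abs, sq]
    exact mul_le_mul_of_nonneg_right h1 (abs_nonneg _)
  have htl : t * l1 v ≤ (a / 100) ^ 2 := by
    have : t * l1 v = a / (10000 * q) * (1000 * ρ * l1 v) := by rw [ht]; field_simp; ring
    rw [this]
    have h2 : a / (10000 * q) * (1000 * ρ * l1 v) ≤ a / (10000 * q) * (q * a) :=
      mul_le_mul_of_nonneg_left hcon.le (by positivity)
    refine h2.trans (le_of_eq ?_)
    field_simp; ring
  have hr3 : nr r ≤ a / 100 :=
    nr_le_of (by positivity) (hr2.trans ((mul_le_mul_of_nonneg_left hr1 ht0.le).trans htl))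
  have hk4 : t * l1 κ ≤ l1 v := by
    rw [l1, l1, mul_sum]
    refine sum_le_sum fun i _ => ?_
    have := hk1 i
    rwa [abs_mul, abs_of_pos ht0] at this
  have hk5 : l1 κ ≤ n / (100 * ρ ^ 2) := by
    rw [le_div_iff₀ (by positivity), ← hnn]
    have h1 : l1 κ * (100 * ρ ^ 2) = (t * l1 κ) * (1000 * ρ * q / a) := by
      rw [ht]; field_simp; ring
    have h2 : (t * l1 κ) * (1000 * ρ * q / a) ≤ l1 v * (1000 * ρ * q / a) :=
      mul_le_mul_of_nonneg_right hk4 (by positivity)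
    have h3 : l1 v * (1000 * ρ * q / a) = (1000 * ρ * l1 v) * (q / a) := by ring
    have h4 : (1000 * ρ * l1 v) * (q / a) ≤ (q * a) * (q / a) :=
      mul_le_mul_of_nonneg_right hcon.le (by positivity)
    have h5 : (q * a) * (q / a) = q ^ 2 := by field_simp
    linarith
  have hv2 : v = t • κ + r := by simp [hr]
  have hk6 : a - a / 100 ≤ t * nr κ := by
    have := nr_add (t • κ) r
    rw [← hv2, nr_smul, abs_of_pos ht0] at this
    linarith
  have hk0 : k ≠ 0 := by
    intro h0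
    have : κ = 0 := by funext i; simp [hκ, h0]
    rw [this, nr_zero] at hk6
    linarith
  have h7 := h k hk0 hk5
  have h8 : q * nr κ ≤ 10 * nr (Gam g κ) := by
    refine le_of_sq_le_sq ?_ (by have := nr_nonneg (Gam g κ); positivity)
    rw [mul_pow, mul_pow, hnn, nr_sq, nr_sq]
    linarith
  have h9 : t * nr (Gam g κ) = nr (Gam g r) := by
    have : Gam g r = -(t • Gam g κ) := by rw [hr, map_sub, hv, map_smul]; simp
    rw [this, nr_neg, nr_smul, abs_of_pos ht0]
  have h10 := hU r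
  have h11 : q * nr r ≤ q * (a / 100) := mul_le_mul_of_nonneg_left hr3 hn.le
  have h12 : ρ * l1 r ≤ ρ * l1 v := mul_le_mul_of_nonneg_left hr1 hρ.le
  have h13 : q * (a - a / 100) ≤ q * (t * nr κ) := mul_le_mul_of_nonneg_left hk6 hn.le
  have h14 : t * (q * nr κ) ≤ t * (10 * nr (Gam g κ)) := mul_le_mul_of_nonneg_left h8 ht0.le
  nlinarith

theorem spread_of (g : Fin N → Fin n → ℝ) (S : Finset (Fin n → ℝ)) (ρ : ℝ) (hρ : 1 ≤ ρ)
    (hn : 0 < n) (hS : IsNet S (1 / 100))
    (hU : ∀ v, nr (Gam g v) ≤ 8 * (√n * nr v + ρ * l1 v))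
    (h : ∀ u ∈ S, n ≤ (univ.filter fun i => ρ / 2 ≤ |ip (g i) u|).card)
    (y : Fin n → ℝ) (hy : s2 y = 1) : ∃ i, ρ / 4 ≤ |ip (g i) y| := by
  classical
  by_contra hcon
  push Not at hcon
  obtain ⟨u, hu, hd⟩ := hS y hy
  obtain ⟨T, hT, hTc⟩ := Finset.exists_subset_card_eq (h u hu)
  set v : Fin N → ℝ := fun i => if i ∈ T then (if 0 ≤ ip (g i) (y - u) then 1 else -1) else 0
    with hv
  have habs : ∀ i, |v i| = if i ∈ T then 1 else 0 := by
    intro i
    simp only [hv]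
    split_ifs <;> simp
  have h1 : l1 v = n := by
    simp only [l1, habs]
    rw [sum_ite_mem, univ_inter, sum_const, hTc]; simp
  have h2 : s2 v = n := by
    have : ∀ i, v i ^ 2 = if i ∈ T then 1 else 0 := by
      intro i
      rw [← sq_abs, habs]
      split_ifs <;> simp
    simp only [s2, this]
    rw [sum_ite_mem, univ_inter, sum_const, hTc]; simp
  have h3 : n * (ρ / 4) ≤ ip (Gam g v) (y - u) := by
    rw [ip_Gam]
    have : (n : ℝ) * (ρ / 4) = ∑ i, if i ∈ T then ρ / 4 else 0 := by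
      rw [sum_ite_mem, univ_inter, sum_const, hTc]; simp
    rw [this]
    refine sum_le_sum fun i _ => ?_
    simp only [hv]
    by_cases hi : i ∈ T
    · have h4 := (mem_filter.1 (hT hi)).2
      have h5 := hcon i
      have h6 : ρ / 4 ≤ |ip (g i) (y - u)| := by
        rw [ip_sub]
        have := abs_sub_abs_le_abs_sub (ip (g i) u) (ip (g i) y)
        rw [abs_sub_comm] at this
        linarith
      simp only [if_pos hi]
      split_ifs with h7
      · rw [abs_of_nonneg h7] at h6; linarith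
      · rw [abs_of_neg (not_le.1 h7)] at h6; linarith
    · simp [hi]
  have h4 := hU v
  have h4' : nr v = √n := by rw [nr, h2]
  rw [h1, h4', Real.mul_self_sqrt (Nat.cast_nonneg n)] at h4
  have h5 := ip_le (Gam g v) (y - u)
  have h6 : nr (Gam g v) * nr (y - u) ≤ (8 * (n + ρ * n)) * (1 / 100) :=
    mul_le_mul h4 hd (nr_nonneg _) (by positivity)
  have h7 : (0 : ℝ) < n := by exact_mod_cast hn
  nlinarith

/-- the image of the unit ball of `ℓ¹` -/
def body (g : Fin N → Fin n → ℝ) : Set (Fin n → ℝ) := Gam g '' {a | l1 a ≤ 1}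

lemma convex_body (g : Fin N → Fin n → ℝ) : Convex ℝ (body g) := by
  refine Convex.linear_image ?_ _
  intro a ha b hb s t hs ht hst
  have h1 := l1_add (s • a) (t • b)
  rw [l1_smul, l1_smul, abs_of_nonneg hs, abs_of_nonneg ht] at h1
  have h2 : s * l1 a ≤ s * 1 := mul_le_mul_of_nonneg_left ha hs
  have h3 : t * l1 b ≤ t * 1 := mul_le_mul_of_nonneg_left hb ht
  change l1 _ ≤ 1
  linarith

lemma compact_body (g : Fin N → Fin n → ℝ) : IsCompact (body g) := by
  refine IsCompact.image ?_ (LinearMap.continuous_of_finiteDimensional _)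
  refine (isCompact_univ_pi fun _ : Fin N => isCompact_Icc (a := (-1 : ℝ)) (b := 1)).of_isClosed_subset
    (isClosed_le (by unfold l1; fun_prop) continuous_const) ?_
  intro a ha i _
  have : |a i| ≤ l1 a := single_le_sum (f := fun i => |a i|) (fun _ _ => abs_nonneg _) (mem_univ i)
  exact abs_le.1 (this.trans ha)

lemma l1_single (i : Fin N) : l1 (Pi.single i (1 : ℝ) : Fin N → ℝ) = 1 := by
  simp [l1, Pi.single_apply, apply_ite]

lemma mem_body (g : Fin N → Fin n → ℝ) (i : Fin N) : g i ∈ body g :=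
  ⟨Pi.single i 1, (l1_single i).le, Gam_single g i⟩

lemma neg_mem_body (g : Fin N → Fin n → ℝ) (i : Fin N) : -g i ∈ body g := by
  refine ⟨(-1 : ℝ) • Pi.single i 1, ?_, ?_⟩
  · change l1 _ ≤ 1
    rw [l1_smul, l1_single]; simp
  · rw [map_smul, Gam_single]; simp

lemma zero_mem_body (g : Fin N → Fin n → ℝ) : (0 : Fin n → ℝ) ∈ body g :=
  ⟨0, by simp [l1], map_zero _⟩

theorem ball_of (g : Fin N → Fin n → ℝ) (c : ℝ) (hc : 0 < c)
    (h : ∀ y, s2 y = 1 → ∃ i, c ≤ |ip (g i) y|) (x : Fin n → ℝ) :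
    ∃ w, Gam g w = x ∧ c * l1 w ≤ nr x := by
  have key : ∀ z : Fin n → ℝ, nr z ≤ c → z ∈ body g := by
    intro z hz
    by_contra hcon
    obtain ⟨f, u, h1, h2⟩ :=
      geometric_hahn_banach_closed_point (convex_body g) (compact_body g).isClosed hcon
    set y : Fin n → ℝ := fun j => f (Pi.single j 1) with hy
    have hf : ∀ p, f p = ip p y := by
      intro p
      conv_lhs => rw [pi_eq_sum_univ' p]
      simp [ip, hy]
    have hu : 0 < u := by simpa using h1 0 (zero_mem_body g)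
    have h3 := ip_le z y
    rw [hf] at h2
    have hy0 : 0 < nr y := by
      rcases (nr_nonneg y).eq_or_lt with h0 | h0
      · rw [← h0] at h3; linarith
      · exact h0
    obtain ⟨i, hi⟩ := h _ (s2_unit y hy0)
    rw [ip_smul, abs_mul, abs_of_pos (inv_pos.2 hy0), le_inv_mul_iff₀ hy0] at hi
    have h4 := h1 _ (mem_body g i)
    have h5 := h1 _ (neg_mem_body g i)
    rw [map_neg] at h5
    rw [hf] at h4 h5
    have h6 : |ip (g i) y| < u := abs_lt.2 ⟨by linarith, h4⟩
    have h7 : nr z * nr y ≤ c * nr y := mul_le_mul_of_nonneg_right hz hy0.le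
    linarith
  rcases (nr_nonneg x).eq_or_lt with h0 | h0
  · refine ⟨0, ?_, by simp [l1, ← h0]⟩
    have : s2 x = 0 := by rw [← nr_sq, ← h0]; simp
    funext k
    have := (sum_eq_zero_iff_of_nonneg (fun i _ => sq_nonneg (x i))).1 this k (mem_univ k)
    simp only [map_zero, Pi.zero_apply]
    exact (pow_eq_zero_iff two_ne_zero).1 this |>.symm
  obtain ⟨a, ha, ha'⟩ := key ((c / nr x) • x) (by
    rw [nr_smul, abs_of_pos (by positivity)]; field_simp; exact le_rfl)
  refine ⟨(nr x / c) • a, ?_, ?_⟩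
  · rw [map_smul, ha', smul_smul]
    have : nr x / c * (c / nr x) = 1 := by field_simp
    rw [this, one_smul]
  · rw [l1_smul, abs_of_pos (by positivity)]
    have h1 : l1 a ≤ 1 := ha
    have : c * (nr x / c * l1 a) = nr x * l1 a := by field_simp
    rw [this]
    nlinarith

lemma hull_eq (g : Fin N → Fin n → ℝ) (hN : 0 < N) :
    convexHull ℝ (Set.range g ∪ Set.range (-g)) = body g := by
  apply Set.Subset.antisymm
  · refine convexHull_min ?_ (convex_body g)
    rintro x (⟨i, rfl⟩ | ⟨i, rfl⟩)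
    · exact mem_body g i
    · exact neg_mem_body g i
  · rintro _ ⟨a, ha, rfl⟩
    have ha' : l1 a ≤ 1 := ha
    have hN' : (0 : ℝ) < N := by exact_mod_cast hN
    set c := (1 - l1 a) / (2 * N) with hc
    have hc0 : 0 ≤ c := div_nonneg (by linarith) (by positivity)
    have h := (convex_convexHull ℝ (Set.range g ∪ Set.range (-g))).sum_mem
      (t := (univ : Finset (Fin N ⊕ Fin N)))
      (w := Sum.elim (fun i => max (a i) 0 + c) (fun i => max (-a i) 0 + c))
      (z := Sum.elim g (-g)) ?_ ?_ ?_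
    · convert h using 1
      rw [Fintype.sum_sum_type, ← sum_add_distrib, Gam, Fintype.linearCombination_apply]
      refine sum_congr rfl fun i _ => ?_
      simp only [Sum.elim_inl, Sum.elim_inr, Pi.neg_apply, smul_neg]
      rw [← sub_eq_add_neg, ← sub_smul]
      congr 1
      rcases le_total 0 (a i) with h | h
      · rw [max_eq_left h, max_eq_right (by linarith)]; ring
      · rw [max_eq_right h, max_eq_left (by linarith)]; ring
    · rintro (i | i) _
      · exact add_nonneg (le_max_right _ _) hc0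
      · exact add_nonneg (le_max_right _ _) hc0
    · rw [Fintype.sum_sum_type, ← sum_add_distrib]
      have : ∀ i, Sum.elim (fun i => max (a i) 0 + c) (fun i => max (-a i) 0 + c) (Sum.inl i) +
          Sum.elim (fun i => max (a i) 0 + c) (fun i => max (-a i) 0 + c) (Sum.inr i)
          = |a i| + 2 * c := by
        intro i
        simp only [Sum.elim_inl, Sum.elim_inr]
        rcases le_total 0 (a i) with h | h
        · rw [max_eq_left h, max_eq_right (by linarith), abs_of_nonneg h]; ring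
        · rw [max_eq_right h, max_eq_left (by linarith), abs_of_nonpos h]; ring
      simp only [this]
      rw [sum_add_distrib, sum_const, card_univ, Fintype.card_fin, nsmul_eq_mul, hc]
      change l1 a + _ = 1
      field_simp
      ring
    · rintro (i | i) _
      · exact subset_convexHull ℝ _ (Or.inl ⟨i, rfl⟩)
      · exact subset_convexHull ℝ _ (Or.inr ⟨i, rfl⟩)

open Pointwise in
lemma mem_smul_body (g : Fin N → Fin n → ℝ) (a : Fin N → ℝ) (r : ℝ) (hr : 0 < r)
    (h : l1 a ≤ r) : Gam g a ∈ r • body g := by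
  refine ⟨Gam g (r⁻¹ • a), ⟨r⁻¹ • a, ?_, rfl⟩, ?_⟩
  · change l1 _ ≤ 1
    rw [l1_smul, abs_of_pos (inv_pos.2 hr), inv_mul_le_iff₀ hr, mul_one]
    exact h
  · change r • Gam g (r⁻¹ • a) = _
    rw [map_smul, smul_smul, mul_inv_cancel₀ hr.ne', one_smul]

lemma gauge_le (g : Fin N → Fin n → ℝ) (a : Fin N → ℝ) : gauge (body g) (Gam g a) ≤ l1 a := by
  rcases (l1_nonneg a).eq_or_lt with h0 | h0
  · rw [eq_zero_of_l1 h0.symm, map_zero, gauge_zero]
    exact l1_nonneg _
  · exact gauge_le_of_mem h0.le (mem_smul_body g a _ h0 le_rfl)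

open Pointwise in
lemma gauge_lift (g : Fin N → Fin n → ℝ) (hg : Function.Surjective (Gam g)) (x : Fin n → ℝ)
    (δ : ℝ) (hδ : 0 < δ) : ∃ a, Gam g a = x ∧ l1 a ≤ gauge (body g) x + δ := by
  obtain ⟨b, rfl⟩ := hg x
  have hne : {r : ℝ | 0 < r ∧ Gam g b ∈ r • body g}.Nonempty :=
    ⟨l1 b + 1, by have := l1_nonneg b; positivity,
      mem_smul_body g b _ (by have := l1_nonneg b; positivity) (by linarith)⟩
  obtain ⟨r, ⟨hr, _, ⟨a, ha, rfl⟩, hx⟩, hlt⟩ := Real.lt_sInf_add_pos hne hδ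
  refine ⟨r • a, by rw [map_smul]; exact hx, ?_⟩
  have ha' : l1 a ≤ 1 := ha
  rw [l1_smul, abs_of_pos hr]
  have : r * l1 a ≤ r * 1 := mul_le_mul_of_nonneg_left ha' hr.le
  unfold gauge
  linarith

end Pool.Agent.H905Z.GP
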