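import Mathlib
import Pool.Agent.H905Z.GPGeom

/-! Nets of the Euclidean sphere and the number of integer points in an `ℓ¹` ball. -/

set_option autoImplicit false

namespace Pool.Agent.H905Z.GP

section pack
open MeasureTheory Metric Set Function Module
open scoped ENNReal

theorem packing {E : Type*} [NormedAddCommGroup E] [NormedSpace ℝ E] [FiniteDimensional ℝ E]
    (s : Finset E) (R δ : ℝ) (hR : 0 < R) (hδ : 0 < δ) (h1 : ∀ c ∈ s, ‖c‖ ≤ R)
    (h2 : ∀ c ∈ s, ∀ c' ∈ s, c ≠ c' → δ ≤ ‖c - c'‖) :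
    (s.card : ℝ) ≤ (1 + 2 * R / δ) ^ (Module.finrank ℝ E) := by
  borelize E
  let μ : Measure E := Measure.addHaar
  have hδ2 : 0 < δ / 2 := by positivity
  have ρpos : 0 < R + δ / 2 := by positivity
  set A := ⋃ c ∈ s, ball (c : E) (δ / 2) with hA
  have D : Set.Pairwise (s : Set E) (Disjoint on fun c => ball (c : E) (δ / 2)) := by
    rintro c hc d hd hcd
    apply ball_disjoint_ball
    rw [dist_eq_norm]
    have := h2 c hc d hd hcd
    linarith
  have A_subset : A ⊆ ball (0 : E) (R + δ / 2) := by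
    refine iUnion₂_subset fun x hx => ?_
    apply ball_subset_ball'
    rw [dist_zero_right]
    have := h1 x hx
    linarith
  have I :
    (s.card : ℝ≥0∞) * ENNReal.ofReal ((δ / 2) ^ finrank ℝ E) * μ (ball 0 1) ≤
      ENNReal.ofReal ((R + δ / 2) ^ finrank ℝ E) * μ (ball 0 1) :=
    calc
      (s.card : ℝ≥0∞) * ENNReal.ofReal ((δ / 2) ^ finrank ℝ E) * μ (ball 0 1) = μ A := by
        rw [hA, measure_biUnion_finset D fun c _ => measurableSet_ball]
        simp only [μ.addHaar_ball_of_pos _ hδ2]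
        simp only [Finset.sum_const, nsmul_eq_mul, mul_assoc]
      _ ≤ μ (ball (0 : E) (R + δ / 2)) := measure_mono A_subset
      _ = ENNReal.ofReal ((R + δ / 2) ^ finrank ℝ E) * μ (ball 0 1) := by
        simp only [μ.addHaar_ball_of_pos _ ρpos]
  have J : (s.card : ℝ≥0∞) * ENNReal.ofReal ((δ / 2) ^ finrank ℝ E) ≤
      ENNReal.ofReal ((R + δ / 2) ^ finrank ℝ E) :=
    (ENNReal.mul_le_mul_iff_left (measure_ball_pos _ _ zero_lt_one).ne' measure_ball_lt_top.ne).1 I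
  have K : (s.card : ℝ) * (δ / 2) ^ finrank ℝ E ≤ (R + δ / 2) ^ finrank ℝ E := by
    have := ENNReal.toReal_le_of_le_ofReal (pow_nonneg ρpos.le _) J
    rwa [ENNReal.toReal_mul, ENNReal.toReal_natCast,
      ENNReal.toReal_ofReal (pow_nonneg hδ2.le _)] at this
  have h3 : (1 + 2 * R / δ) ^ finrank ℝ E * (δ / 2) ^ finrank ℝ E =
      (R + δ / 2) ^ finrank ℝ E := by
    rw [← mul_pow]
    congr 1
    field_simp
    ring
  rw [← h3] at K
  exact le_of_mul_le_mul_right K (pow_pos hδ2 _)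


theorem net_sphere {E : Type*} [NormedAddCommGroup E] [NormedSpace ℝ E] [FiniteDimensional ℝ E]
    (δ : ℝ) (hδ : 0 < δ) :
    ∃ s : Finset E, (s.card : ℝ) ≤ (1 + 2 * 1 / δ) ^ (Module.finrank ℝ E) ∧ (∀ c ∈ s, ‖c‖ = 1) ∧
      ∀ x : E, ‖x‖ = 1 → ∃ c ∈ s, ‖x - c‖ ≤ δ := by
  classical
  set P : ℕ → Prop := fun n => ∃ s : Finset E, s.card = n ∧ (∀ c ∈ s, ‖c‖ = 1) ∧
    (∀ c ∈ s, ∀ c' ∈ s, c ≠ c' → δ ≤ ‖c - c'‖) with hP
  obtain ⟨K, hK⟩ := exists_nat_ge ((1 + 2 * 1 / δ) ^ (Module.finrank ℝ E))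
  have hbd : ∀ n, P n → n ≤ K := by
    rintro n ⟨s, rfl, h1, h2⟩
    exact_mod_cast (packing s 1 δ one_pos hδ (fun c hc => (h1 c hc).le) h2).trans hK
  have h0 : P 0 := ⟨∅, by simp⟩
  obtain ⟨s, hs, h1, h2⟩ := Nat.findGreatest_spec (P := P) (Nat.zero_le K) h0
  refine ⟨s, packing s 1 δ one_pos hδ (fun c hc => (h1 c hc).le) h2, h1, ?_⟩
  intro x hx
  by_contra hcon
  push Not at hcon
  have hxs : x ∉ s := by
    intro h
    have := hcon x h
    rw [sub_self, norm_zero] at this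
    linarith
  have h3 : P (s.card + 1) := by
    refine ⟨insert x s, Finset.card_insert_of_notMem hxs, ?_, ?_⟩
    · intro c hc
      rcases Finset.mem_insert.1 hc with rfl | hc
      · exact hx
      · exact h1 c hc
    · intro c hc c' hc' hne
      rcases Finset.mem_insert.1 hc with rfl | hcs
      · rcases Finset.mem_insert.1 hc' with rfl | hcs'
        · exact absurd rfl hne
        · exact (hcon c' hcs').le
      · rcases Finset.mem_insert.1 hc' with rfl | hcs'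
        · rw [norm_sub_rev]
          exact (hcon c hcs).le
        · exact h2 c hcs c' hcs' hne
  have h4 := Nat.le_findGreatest (hbd _ h3) h3
  omega

end pack

open Finset

lemma nr_eq {n : ℕ} (x : EuclideanSpace ℝ (Fin n)) : nr (WithLp.ofLp x) = ‖x‖ := by
  rw [EuclideanSpace.norm_eq]
  simp [nr, s2]

theorem exists_net (n : ℕ) (δ : ℝ) (hδ : 0 < δ) :
    ∃ S : Finset (Fin n → ℝ), (S.card : ℝ) ≤ (1 + 2 / δ) ^ n ∧ (∀ u ∈ S, s2 u = 1) ∧
      IsNet S δ := by
  classical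
  obtain ⟨s, h1, h2, h3⟩ := net_sphere (E := EuclideanSpace ℝ (Fin n)) δ hδ
  refine ⟨s.image WithLp.ofLp, ?_, ?_, ?_⟩
  · rw [finrank_euclideanSpace_fin, mul_one] at h1
    exact le_trans (by exact_mod_cast card_image_le) h1
  · intro u hu
    obtain ⟨c, hc, rfl⟩ := mem_image.1 hu
    rw [← nr_sq, nr_eq, h2 c hc, one_pow]
  · intro y hy
    obtain ⟨c, hc, hd⟩ := h3 (WithLp.toLp 2 y) (by
      rw [← nr_eq, WithLp.ofLp_toLp, nr, hy, Real.sqrt_one])
    refine ⟨_, mem_image_of_mem _ hc, ?_⟩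
    rw [← nr_eq] at hd
    simpa using hd

lemma geo_sum (x : ℝ) (R : ℕ) :
    (1 - x) * ∑ j ∈ Icc (-(R : ℤ)) R, x ^ j.natAbs = 1 + x - 2 * x ^ (R + 1) := by
  induction R with
  | zero => simp; ring
  | succ R ih =>
    have h : Icc (-((R + 1 : ℕ) : ℤ)) ((R + 1 : ℕ) : ℤ) =
        insert (-((R + 1 : ℕ) : ℤ)) (insert ((R + 1 : ℕ) : ℤ) (Icc (-(R : ℤ)) R)) := by
      ext j
      simp only [mem_Icc, mem_insert]
      omega
    rw [h, sum_insert (by simp only [mem_Icc, mem_insert]; omega),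
      sum_insert (by simp only [mem_Icc]; omega), Int.natAbs_neg, Int.natAbs_natCast,
      mul_add, mul_add, ih]
    ring

theorem count (N : ℕ) (M x : ℝ) (hx : 0 < x) (hx3 : x ≤ 1 / 3) :
    ∃ S : Finset (Fin N → ℤ), (∀ k : Fin N → ℤ, l1 (fun i => (k i : ℝ)) ≤ M → k ∈ S) ∧
      (S.card : ℝ) ≤ Real.exp (-Real.log x * M + 3 * x * N) := by
  classical
  set R := ⌈M⌉₊ with hR
  set B := Fintype.piFinset fun _ : Fin N => Icc (-(R : ℤ)) R with hB
  refine ⟨B.filter fun k => l1 (fun i => (k i : ℝ)) ≤ M, ?_, ?_⟩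
  · intro k hk
    refine mem_filter.2 ⟨Fintype.mem_piFinset.2 fun i => ?_, hk⟩
    have h1 : |(k i : ℝ)| ≤ l1 (fun i => (k i : ℝ)) :=
      single_le_sum (f := fun i => |(k i : ℝ)|) (fun _ _ => abs_nonneg _) (mem_univ i)
    have h2 : |(k i : ℝ)| ≤ ((R : ℤ) : ℝ) := by
      rw [Int.cast_natCast]; exact h1.trans (hk.trans (Nat.le_ceil M))
    rw [← Int.cast_abs, Int.cast_le] at h2
    exact mem_Icc.2 (abs_le.1 h2)
  have hlog : Real.log x ≤ 0 := Real.log_nonpos hx.le (by linarith)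
  have h1 : ∀ k ∈ B.filter fun k => l1 (fun i => (k i : ℝ)) ≤ M,
      Real.exp (Real.log x * M) ≤ ∏ i, x ^ (k i).natAbs := by
    intro k hk
    have h2 := (mem_filter.1 hk).2
    have h3 : ∏ i, x ^ (k i).natAbs = Real.exp (Real.log x * l1 (fun i => (k i : ℝ))) := by
      rw [l1, mul_sum, Real.exp_sum]
      refine prod_congr rfl fun i _ => ?_
      rw [← Int.cast_abs, Int.abs_eq_natAbs, Int.cast_natCast, mul_comm, Real.exp_nat_mul,
        Real.exp_log hx]
    rw [h3, Real.exp_le_exp]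
    exact mul_le_mul_of_nonpos_left h2 hlog
  have h2 := card_nsmul_le_sum _ _ _ h1
  have h3 : ∑ k ∈ B.filter (fun k => l1 (fun i => (k i : ℝ)) ≤ M), ∏ i, x ^ (k i).natAbs ≤
      ∑ k ∈ B, ∏ i, x ^ (k i).natAbs :=
    sum_le_sum_of_subset_of_nonneg (filter_subset _ _) fun _ _ _ => by positivity
  have h4 : ∑ k ∈ B, ∏ i, x ^ (k i).natAbs = (∑ j ∈ Icc (-(R : ℤ)) R, x ^ j.natAbs) ^ N := by
    rw [hB, ← Finset.prod_univ_sum (fun _ : Fin N => Icc (-(R : ℤ)) R)
      (fun _ j => x ^ j.natAbs)]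
    simp
  have h5 : ∑ j ∈ Icc (-(R : ℤ)) R, x ^ j.natAbs ≤ Real.exp (3 * x) := by
    have h6 := geo_sum x R
    have h7 : 0 ≤ x ^ (R + 1) := by positivity
    have h8 : (1 - x) * ∑ j ∈ Icc (-(R : ℤ)) R, x ^ j.natAbs ≤ (1 - x) * (3 * x + 1) := by
      nlinarith
    exact (le_of_mul_le_mul_left h8 (by linarith)).trans (Real.add_one_le_exp _)
  have h6 := pow_le_pow_left₀ (sum_nonneg fun _ _ => by positivity) h5 N
  rw [← Real.exp_nat_mul] at h6
  rw [nsmul_eq_mul] at h2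
  rw [Real.exp_add, neg_mul, Real.exp_neg, le_inv_mul_iff₀ (Real.exp_pos _), mul_comm,
    mul_comm (3 * x)]
  linarith

end Pool.Agent.H905Z.GP
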