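import Mathlib
import Pool.Agent.H905Z.GPGeom

/-! Gaussian facts: laws of linear forms, exponential moments, almost sure surjectivity. -/

set_option autoImplicit false

namespace Pool.Agent.H905Z.GP

open Finset MeasureTheory ProbabilityTheory

noncomputable abbrev gam : Measure ℝ := gaussianReal 0 1
noncomputable abbrev gp (n : ℕ) : Measure (Fin n → ℝ) := Measure.pi fun _ : Fin n => gam
noncomputable abbrev gpp (N n : ℕ) : Measure (Fin N → Fin n → ℝ) :=
  Measure.pi fun _ : Fin N => gp n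

variable {N n : ℕ}

lemma measurable_ip (u : Fin n → ℝ) : Measurable (fun z : Fin n → ℝ => ip z u) := by
  unfold ip; fun_prop

lemma law_ip (u : Fin n → ℝ) (hu : s2 u = 1) :
    MeasurePreserving (fun z : Fin n → ℝ => ip z u) (gp n) gam := by
  refine ⟨measurable_ip u, ?_⟩
  set U : EuclideanSpace ℝ (Fin n) := WithLp.toLp 2 u with hU
  have h1 : (fun z : Fin n → ℝ => ip z u) = (innerSL ℝ U) ∘ (WithLp.toLp 2) := by
    funext z
    simp [hU, ip, PiLp.inner_apply]
  have hn : ‖U‖ ^ 2 = 1 := by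
    rw [EuclideanSpace.real_norm_sq_eq, ← hu]; simp [hU, s2]
  rw [h1, ← Measure.map_map (by fun_prop) (by fun_prop), map_pi_eq_stdGaussian,
    IsGaussian.map_eq_gaussianReal, variance_dual_stdGaussian, integral_strongDual_stdGaussian,
    innerSL_apply_norm, hn]
  simp

lemma law_rows (u : Fin n → ℝ) (hu : s2 u = 1) :
    MeasurePreserving (fun (g : Fin N → Fin n → ℝ) i => ip (g i) u) (gpp N n) (gp N) :=
  measurePreserving_pi (fun _ => gp n) (fun _ => gam) (f := fun _ z => ip z u)
    (fun _ => law_ip u hu)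

lemma law_swap :
    MeasurePreserving (fun (g : Fin N → Fin n → ℝ) j i => g i j) (gpp N n) (gpp n N) := by
  have h1 : ∀ a b : ℕ, MeasurePreserving (MeasurableEquiv.curry (Fin a) (Fin b) ℝ)
      (Measure.pi fun _ : Fin a × Fin b => gam) (gpp a b) := by
    intro a b
    refine ⟨MeasurableEquiv.measurable _, ?_⟩
    have := Measure.infinitePi_map_curry (fun (_ : Fin a) (_ : Fin b) => gam)
    simp only [Measure.infinitePi_eq_pi] at this
    exact this
  have h2 := measurePreserving_piCongrLeft (α := fun _ : Fin n × Fin N => ℝ)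
    (fun _ => gam) (Equiv.prodComm (Fin N) (Fin n))
  have h3 := (h1 n N).comp (h2.comp ((h1 N n).symm _))
  convert h3 using 1
  funext g j i
  simp only [Function.comp, MeasurableEquiv.coe_curry, MeasurableEquiv.coe_curry_symm,
    Function.curry, MeasurableEquiv.coe_piCongrLeft]
  exact (Equiv.piCongrLeft_apply_apply (fun _ : Fin n × Fin N => ℝ)
    (Equiv.prodComm (Fin N) (Fin n)) (Function.uncurry g) (i, j)).symm

lemma law_cols (k : Fin N → ℝ) (hk : s2 k = 1) :
    MeasurePreserving (fun g : Fin N → Fin n → ℝ => Gam g k) (gpp N n) (gp n) := by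
  have := (law_rows (N := n) k hk).comp (law_swap (N := N) (n := n))
  convert this using 1
  funext g j
  simp [Gam_apply, ip, mul_comm]

lemma chernoff (ψ : ℝ → ℝ) (hint : Integrable (fun z => Real.exp (ψ z)) gam) (B : ℝ)
    (hB : ∫ z, Real.exp (ψ z) ∂gam ≤ B) (a : ℝ) :
    (gp N).real {z | a ≤ ∑ i, ψ (z i)} ≤ Real.exp (-a) * B ^ N := by
  have h1 := mul_meas_ge_le_integral_of_nonneg (μ := gp N)
    (f := fun z => ∏ i, Real.exp (ψ (z i)))
    (ae_of_all _ fun z => prod_nonneg fun i _ => (Real.exp_pos _).le)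
    (Integrable.fintype_prod (f := fun _ z => Real.exp (ψ z)) fun _ => hint) (Real.exp a)
  rw [integral_fintype_prod_eq_pow (f := fun z => Real.exp (ψ z)), Fintype.card_fin] at h1
  have h2 : {z : Fin N → ℝ | a ≤ ∑ i, ψ (z i)} =
      {z | Real.exp a ≤ ∏ i, Real.exp (ψ (z i))} := by
    ext z
    simp only [Set.mem_setOf_eq]
    rw [← Real.exp_sum, Real.exp_le_exp]
  have h3 : (∫ z, Real.exp (ψ z) ∂gam) ^ N ≤ B ^ N :=
    pow_le_pow_left₀ (integral_nonneg fun z => (Real.exp_pos _).le) hB N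
  rw [h2, Real.exp_neg, le_inv_mul_iff₀ (Real.exp_pos a)]
  exact h1.trans h3

lemma pdf_mul (b z : ℝ) : gaussianPDFReal 0 1 z * Real.exp (-b * z ^ 2) =
    (√(2 * Real.pi))⁻¹ * Real.exp (-(b + 1 / 2) * z ^ 2) := by
  simp only [gaussianPDFReal, NNReal.coe_one, mul_one, sub_zero]
  rw [mul_assoc, ← Real.exp_add]
  congr 2; ring

lemma int_sq (b : ℝ) (hb : 0 < b + 1 / 2) :
    Integrable (fun z => Real.exp (-b * z ^ 2)) gam := by
  rw [gam, gaussianReal_of_var_ne_zero _ one_ne_zero,
    integrable_withDensity_iff_integrable_smul' (measurable_gaussianPDF _ _)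
      (ae_of_all _ fun _ => gaussianPDF_lt_top)]
  simp only [toReal_gaussianPDF, smul_eq_mul, pdf_mul]
  exact (integrable_exp_neg_mul_sq hb).const_mul _

lemma val_sq (b c : ℝ) (hb : 0 < b + 1 / 2) (hc : 0 ≤ c) (h : 1 ≤ c ^ 2 * (2 * b + 1)) :
    ∫ z, Real.exp (-b * z ^ 2) ∂gam ≤ c := by
  rw [gam, integral_gaussianReal_eq_integral_smul one_ne_zero]
  simp only [smul_eq_mul, pdf_mul]
  rw [integral_const_mul, integral_gaussian]
  have hp := Real.pi_pos
  rw [inv_mul_le_iff₀ (Real.sqrt_pos.2 (by positivity))]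
  refine le_of_sq_le_sq ?_ (by positivity)
  rw [mul_pow, Real.sq_sqrt (by positivity), Real.sq_sqrt (by positivity), div_le_iff₀ hb]
  nlinarith

lemma mom1 (τ : ℝ) (hτ : 0 ≤ τ) :
    Integrable (fun z => Real.exp ((max (|z| - τ) 0) ^ 2 / 4)) gam ∧
    ∫ z, Real.exp ((max (|z| - τ) 0) ^ 2 / 4) ∂gam ≤ 1 + 2 * Real.exp (-(τ ^ 2 / 4)) := by
  have hpt : ∀ z : ℝ, Real.exp ((max (|z| - τ) 0) ^ 2 / 4) ≤
      1 + Real.exp (-(τ ^ 2 / 4)) * Real.exp (-(-1 / 4) * z ^ 2) := by
    intro z
    rcases le_total (|z| - τ) 0 with h | h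
    · rw [max_eq_right h]
      have : 0 ≤ Real.exp (-(τ ^ 2 / 4)) * Real.exp (-(-1 / 4) * z ^ 2) := by positivity
      simp only [ne_eq, OfNat.ofNat_ne_zero, not_false_eq_true, zero_pow, zero_div, Real.exp_zero]
      linarith
    · rw [max_eq_left h, ← Real.exp_add]
      have : (|z| - τ) ^ 2 / 4 ≤ -(τ ^ 2 / 4) + -(-1 / 4) * z ^ 2 := by
        rw [← sq_abs z]; nlinarith
      linarith [Real.exp_le_exp.2 this]
  have hi := int_sq (-1 / 4) (by norm_num)
  have hi2 : Integrable (fun z : ℝ => 1 + Real.exp (-(τ ^ 2 / 4)) * Real.exp (-(-1 / 4) * z ^ 2))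
      gam := (integrable_const _).add (hi.const_mul _)
  have hi3 : Integrable (fun z => Real.exp ((max (|z| - τ) 0) ^ 2 / 4)) gam := by
    refine hi2.mono' (by fun_prop) (ae_of_all _ fun z => ?_)
    rw [Real.norm_eq_abs, abs_of_pos (Real.exp_pos _)]
    exact hpt z
  refine ⟨hi3, (integral_mono hi3 hi2 hpt).trans ?_⟩
  rw [integral_add (integrable_const _) (hi.const_mul _), integral_const_mul]
  have := val_sq (-1 / 4) 2 (by norm_num) (by norm_num) (by norm_num)
  have h2 := Real.exp_pos (-(τ ^ 2 / 4))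
  simp only [integral_const, probReal_univ, smul_eq_mul, mul_one]
  nlinarith

lemma tail_lower (t : ℝ) (ht : 0 ≤ t) :
    Real.exp (-(t ^ 2 + 1)) / 3 ≤ gam.real {z | t ≤ |z|} := by
  have h1 : gam.real (Set.Icc t (t + 1)) ≤ gam.real {z | t ≤ |z|} :=
    measureReal_mono fun z hz => hz.1.trans (le_abs_self z)
  refine le_trans ?_ h1
  rw [measureReal_def, gaussianReal_apply_eq_integral _ one_ne_zero,
    ENNReal.toReal_ofReal (integral_nonneg (gaussianPDFReal_nonneg _ _))]
  have h2 := setIntegral_ge_of_const_le_real (μ := volume) (s := Set.Icc t (t + 1))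
    (f := gaussianPDFReal 0 1) (c := Real.exp (-(t ^ 2 + 1)) / 3) measurableSet_Icc
    (by simp) ?_ (integrable_gaussianPDFReal _ _).integrableOn
  · simpa using h2
  · intro z hz
    simp only [gaussianPDFReal, NNReal.coe_one, mul_one, sub_zero]
    have h3 : √(2 * Real.pi) ≤ 3 := by
      rw [Real.sqrt_le_iff]
      exact ⟨by norm_num, by linarith [Real.pi_lt_four]⟩
    have h4 : (3 : ℝ)⁻¹ ≤ (√(2 * Real.pi))⁻¹ :=
      inv_anti₀ (Real.sqrt_pos.2 (by have := Real.pi_pos; positivity)) h3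
    have h5 : Real.exp (-(t ^ 2 + 1)) ≤ Real.exp (-z ^ 2 / 2) := by
      rw [Real.exp_le_exp]
      have h6 : z ^ 2 ≤ (t + 1) ^ 2 := pow_le_pow_left₀ (ht.trans hz.1) hz.2 2
      nlinarith [sq_nonneg (t - 1)]
    rw [div_eq_inv_mul]
    exact mul_le_mul h4 h5 (Real.exp_pos _).le (by positivity)

lemma mom3 (t : ℝ) (ht : 0 ≤ t) :
    Integrable (fun z => Real.exp (if t ≤ |z| then -1 else 0)) gam ∧
    ∫ z, Real.exp (if t ≤ |z| then -1 else 0) ∂gam ≤
      Real.exp (-(Real.exp (-(t ^ 2 + 1)) / 6)) := by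
  have hm : MeasurableSet {z : ℝ | t ≤ |z|} := measurableSet_le measurable_const (by fun_prop)
  have h1 : (fun z : ℝ => Real.exp (if t ≤ |z| then -1 else 0)) =
      fun z => 1 - (1 - Real.exp (-1)) * Set.indicator {z : ℝ | t ≤ |z|} 1 z := by
    funext z
    by_cases h : t ≤ |z|
    · simp [h]
    · simp [h]
  have hi : Integrable (Set.indicator {z : ℝ | t ≤ |z|} (1 : ℝ → ℝ)) gam :=
    (integrable_const (1 : ℝ)).indicator hm
  rw [h1]
  refine ⟨(integrable_const _).sub (hi.const_mul _), ?_⟩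
  rw [integral_sub (integrable_const _) (hi.const_mul _), integral_const_mul,
    integral_indicator_one hm]
  simp only [integral_const, probReal_univ, smul_eq_mul, mul_one]
  have h2 := tail_lower t ht
  have h3 : Real.exp (-1) ≤ 1 / 2 := by
    rw [Real.exp_neg, inv_le_comm₀ (Real.exp_pos 1) (by norm_num)]
    linarith [Real.add_one_le_exp (1 : ℝ)]
  have h4 := Real.add_one_le_exp (-(Real.exp (-(t ^ 2 + 1)) / 6))
  have h5 := Real.exp_pos (-(t ^ 2 + 1))
  nlinarith

lemma not_mem_ae (W : Submodule ℝ (Fin n → ℝ)) (hW : W < ⊤) : ∀ᵐ z ∂(gp n), z ∉ W := by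
  obtain ⟨f, hf, hle⟩ := W.exists_le_ker_of_lt_top hW
  set y : Fin n → ℝ := fun j => f (Pi.single j 1) with hy
  have hfy : ∀ p, f p = ip p y := by
    intro p
    conv_lhs => rw [pi_eq_sum_univ' p]
    simp [ip, hy]
  have hy0 : 0 < nr y := by
    rcases (nr_nonneg y).eq_or_lt with h0 | h0
    · exfalso
      apply hf
      refine LinearMap.ext fun p => ?_
      have h1 := ip_le p y
      have h2 := ip_le (-p) y
      rw [← hfy, ← h0] at h1 h2
      rw [map_neg] at h2
      simp only [LinearMap.zero_apply]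
      linarith
    · exact h0
  have h1 := law_ip _ (s2_unit y hy0)
  haveI := nullSingletonClass_gaussianReal (μ := 0) (v := 1) one_ne_zero
  have h2 := h1.quasiMeasurePreserving.preimage_null (s := {0}) (measure_singleton 0)
  refine measure_mono_null (fun z hz => ?_) h2
  have hz' : z ∈ W := by simpa using hz
  have h3 : f z = 0 := hle hz'
  rw [hfy] at h3
  simp [ip_smul, h3]

lemma indep_ae (n : ℕ) : ∀ k : ℕ, k ≤ n → ∀ᵐ g ∂(gpp k n), LinearIndependent ℝ g := by
  intro k
  induction k with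
  | zero => intro _; exact ae_of_all _ fun g => linearIndependent_empty_type
  | succ k ih =>
    intro hk
    have hmp := measurePreserving_piFinSuccAbove (fun _ : Fin (k + 1) => gp n) 0
    have hmeas : MeasurableSet {p : (Fin n → ℝ) × (Fin k → Fin n → ℝ) |
        LinearIndependent ℝ (Fin.cons p.1 p.2 : Fin (k + 1) → Fin n → ℝ)} := by
      refine (isOpen_setOfPred_linearIndependent.preimage (f := fun p :
        (Fin n → ℝ) × (Fin k → Fin n → ℝ) => (Fin.cons p.1 p.2 : Fin (k + 1) → Fin n → ℝ))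
        ?_).measurableSet
      exact Continuous.finCons continuous_fst continuous_snd
    have h1 : ∀ᵐ p ∂((gp n).prod (gpp k n)),
        LinearIndependent ℝ (Fin.cons p.1 p.2 : Fin (k + 1) → Fin n → ℝ) := by
      rw [Measure.ae_prod_iff_ae_ae hmeas,
        Measure.ae_ae_comm (p := fun x y => LinearIndependent ℝ
          (Fin.cons x y : Fin (k + 1) → Fin n → ℝ)) hmeas]
      filter_upwards [ih (by omega)] with t ht
      have hW : Submodule.span ℝ (Set.range t) < ⊤ := by
        refine lt_top_iff_ne_top.2 fun h => ?_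
        have h2 := finrank_range_le_card (R := ℝ) t
        rw [Set.finrank, h] at h2
        simp at h2
        omega
      filter_upwards [not_mem_ae _ hW] with z hz
      exact linearIndependent_finCons.2 ⟨ht, hz⟩
    filter_upwards [hmp.quasiMeasurePreserving.ae h1] with g hg
    have : (Fin.cons ((MeasurableEquiv.piFinSuccAbove (fun _ : Fin (k + 1) => Fin n → ℝ) 0) g).1
        ((MeasurableEquiv.piFinSuccAbove (fun _ : Fin (k + 1) => Fin n → ℝ) 0) g).2 :
          Fin (k + 1) → Fin n → ℝ) = g := by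
      funext i
      refine Fin.cases ?_ (fun j => ?_) i
      · simp
      · simp [Fin.tail]
    rwa [this] at hg

lemma surj_ae (h : n ≤ N) : ∀ᵐ g ∂(gpp N n), Function.Surjective (Gam g) := by
  have hind : iIndepFun (fun (i : Fin N) (g : Fin N → Fin n → ℝ) => g i) (gpp N n) :=
    iIndepFun_pi (X := fun _ => id) (fun _ => aemeasurable_id)
  have h1 := (hind.precomp (Fin.castLE_injective h)).map_fun_eq_pi_map
    (fun i => (measurable_pi_apply _).aemeasurable)
  have h2 : ∀ i : Fin N, (gpp N n).map (fun g => g i) = gp n :=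
    fun i => (measurePreserving_eval (fun _ : Fin N => gp n) i).map_eq
  simp only [h2] at h1
  have h3 : MeasurePreserving (fun (g : Fin N → Fin n → ℝ) (j : Fin n) => g (Fin.castLE h j))
      (gpp N n) (gpp n n) := ⟨by fun_prop, h1⟩
  filter_upwards [h3.quasiMeasurePreserving.ae (indep_ae n n le_rfl)] with g hg
  have h4 := hg.span_eq_top_of_card_eq_finrank' (by simp)
  rw [← LinearMap.range_eq_top, Gam, Fintype.range_linearCombination, eq_top_iff, ← h4]
  exact Submodule.span_mono (by rintro _ ⟨j, rfl⟩; exact ⟨_, rfl⟩)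

end Pool.Agent.H905Z.GP
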