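import Mathlib
import Pool.Agent.H905Z.GPGauss
import Pool.Agent.H905Z.GPCount

/-! The three bad events have small probability; off them the polytope norm has cotype two. -/

set_option autoImplicit false

namespace Pool.Agent.H905Z.GP

open Finset MeasureTheory ProbabilityTheory

variable {N n : ℕ}

lemma pow_le_exp (a : ℝ) (k : ℕ) (h : a ≤ 2.7 ^ k) : a ≤ Real.exp k := by
  rw [← Real.exp_one_pow]
  exact h.trans (pow_le_pow_left₀ (by norm_num) (by linarith [Real.exp_one_gt_d9]) k)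

lemma real_pre {α β : Type*} [MeasurableSpace α] [MeasurableSpace β] {μ : Measure α}
    {ν : Measure β} {f : α → β} (hf : MeasurePreserving f μ ν) {s : Set β}
    (hs : MeasurableSet s) : μ.real (f ⁻¹' s) = ν.real s := by
  rw [measureReal_def, measureReal_def, hf.measure_preimage hs.nullMeasurableSet]

lemma union_bound {α ι : Type*} [MeasurableSpace α] (μ : Measure α) (S : Finset ι)
    (f : ι → Set α) (b c : ℝ) (hb : 0 ≤ b) (h : ∀ i ∈ S, μ.real (f i) ≤ b) (hc : (S.card : ℝ) ≤ c) :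
    μ.real (⋃ i ∈ S, f i) ≤ c * b := by
  refine (measureReal_biUnion_finset_le S f).trans ((sum_le_card_nsmul _ _ _ h).trans ?_)
  rw [nsmul_eq_mul]
  exact mul_le_mul_of_nonneg_right hc hb

theorem event1 (L : ℝ) (hL : 0 ≤ L) (hN : (N : ℝ) = n * Real.exp (L - 1)) :
    ∃ B : Set (Fin N → Fin n → ℝ), (gpp N n).real B ≤ Real.exp (-(n / 2)) ∧
      ∀ g, g ∉ B → ∀ v, nr (Gam g v) ≤ 8 * (√n * nr v + √L * l1 v) := by
  obtain ⟨S, hS1, hS2, hS3⟩ := exists_net n (1 / 2) (by norm_num)
  have hρ := Real.sqrt_nonneg L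
  refine ⟨⋃ u ∈ S, (fun (g : Fin N → Fin n → ℝ) i => ip (g i) u) ⁻¹'
    {z | (4 * n : ℝ) ≤ ∑ i, (max (|z i| - 2 * √L) 0) ^ 2 / 4}, ?_, ?_⟩
  · refine (union_bound _ S _ (Real.exp (-(3 * n))) (Real.exp (2 * n)) (Real.exp_pos _).le
      (fun u hu => ?_) ?_).trans ?_
    · rw [real_pre (law_rows u (hS2 u hu)) (measurableSet_le measurable_const (by fun_prop))]
      obtain ⟨h1, h2⟩ := mom1 (2 * √L) (by positivity)
      refine (chernoff (fun z => (max (|z| - 2 * √L) 0) ^ 2 / 4) h1 _ h2 _).trans ?_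
      have h3 : (2 * √L) ^ 2 / 4 = L := by rw [mul_pow, Real.sq_sqrt hL]; ring
      rw [h3]
      have h4 : (1 + 2 * Real.exp (-L)) ^ N ≤ Real.exp (2 * Real.exp (-L)) ^ N :=
        pow_le_pow_left₀ (by positivity) (by linarith [Real.add_one_le_exp (2 * Real.exp (-L))]) N
      have h5 : Real.exp (2 * Real.exp (-L)) ^ N ≤ Real.exp n := by
        rw [← Real.exp_nat_mul, Real.exp_le_exp, hN]
        have h6 : Real.exp (L - 1) * Real.exp (-L) = Real.exp (-1) := by
          rw [← Real.exp_add]; congr 1; ring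
        have h7 : Real.exp (-1) ≤ 1 / 2 := by
          rw [Real.exp_neg, inv_le_comm₀ (Real.exp_pos 1) (by norm_num)]
          linarith [Real.add_one_le_exp (1 : ℝ)]
        have h8 : (0 : ℝ) ≤ n := Nat.cast_nonneg n
        calc (n : ℝ) * Real.exp (L - 1) * (2 * Real.exp (-L))
            = n * (2 * (Real.exp (L - 1) * Real.exp (-L))) := by ring
          _ ≤ n := by rw [h6]; nlinarith
      calc Real.exp (-(4 * n)) * (1 + 2 * Real.exp (-L)) ^ N
          ≤ Real.exp (-(4 * n)) * Real.exp n :=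
            mul_le_mul_of_nonneg_left (h4.trans h5) (Real.exp_pos _).le
        _ = Real.exp (-(3 * n)) := by rw [← Real.exp_add]; congr 1; ring
    · refine hS1.trans ?_
      rw [mul_comm, Real.exp_nat_mul]
      refine pow_le_pow_left₀ (by norm_num) ?_ n
      exact_mod_cast pow_le_exp _ 2 (by norm_num)
    · rw [← Real.exp_add, Real.exp_le_exp]
      have h8 : (0 : ℝ) ≤ n := Nat.cast_nonneg n
      linarith
  · intro g hg
    refine upper_of g S _ hρ hS3 fun u hu => ?_
    simp only [Set.mem_iUnion, not_exists, Set.mem_preimage, Set.mem_setOf_eq, not_le] at hg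
    have := hg u hu
    rw [← sum_div] at this
    linarith

theorem event2 (L : ℝ) (hL : 1 ≤ L) (hn : 0 < n) (hN : (N : ℝ) = n * Real.exp (L - 1)) :
    ∃ B : Set (Fin N → Fin n → ℝ), (gpp N n).real B ≤ Real.exp (-(n / 2)) ∧
      ∀ g, g ∉ B → ∀ k : Fin N → ℤ, k ≠ 0 → l1 (fun i => (k i : ℝ)) ≤ n / (100 * L) →
        n * s2 (fun i => (k i : ℝ)) ≤ 100 * s2 (Gam g fun i => (k i : ℝ)) := by
  classical
  have hn' : (0 : ℝ) < n := by exact_mod_cast hn
  have he : 1 ≤ Real.exp (L - 1) := Real.one_le_exp (by linarith)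
  set x := (100 * L * Real.exp (L - 1))⁻¹ with hx
  have hx1 : 100 ≤ 100 * L * Real.exp (L - 1) := by nlinarith
  have hx0 : 0 < x := by positivity
  have hx3 : x ≤ 1 / 3 := by
    rw [hx, inv_le_comm₀ (by positivity) (by norm_num)]; linarith
  obtain ⟨S, hS1, hS2⟩ := count N (n / (100 * L)) x hx0 hx3
  have hpos : ∀ k : Fin N → ℤ, k ≠ 0 → 0 < nr (fun i => (k i : ℝ)) := by
    intro k hk
    obtain ⟨i, hi⟩ := Function.ne_iff.1 hk
    refine Real.sqrt_pos.2 (lt_of_lt_of_le ?_
      (single_le_sum (f := fun i => (k i : ℝ) ^ 2) (fun _ _ => sq_nonneg _) (mem_univ i)))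
    have : (k i : ℝ) ≠ 0 := by exact_mod_cast hi
    positivity
  refine ⟨⋃ k ∈ S.filter (· ≠ 0), (fun g : Fin N → Fin n → ℝ =>
    Gam g ((nr (fun i => (k i : ℝ)))⁻¹ • fun i => (k i : ℝ))) ⁻¹'
    {z | (-(n / 25) : ℝ) ≤ ∑ j, -4 * z j ^ 2}, ?_, ?_⟩
  · refine (union_bound _ _ _ (Real.exp (n / 25 - n)) (Real.exp (8 * n / 100)) (Real.exp_pos _).le
      (fun k hk => ?_) ?_).trans ?_
    · rw [real_pre (law_cols _ (s2_unit _ (hpos k (mem_filter.1 hk).2)))
        (measurableSet_le measurable_const (by fun_prop))]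
      refine (chernoff (fun z => -4 * z ^ 2) (int_sq 4 (by norm_num)) _
        (val_sq 4 (1 / 3) (by norm_num) (by norm_num) (by norm_num)) _).trans ?_
      have h1 : (1 / 3 : ℝ) ≤ Real.exp (-1) := by
        rw [Real.exp_neg, le_inv_comm₀ (by norm_num) (Real.exp_pos 1)]
        linarith [Real.exp_one_lt_d9]
      have h2 := pow_le_pow_left₀ (by norm_num) h1 n
      rw [← Real.exp_nat_mul] at h2
      rw [neg_neg, sub_eq_add_neg, Real.exp_add]
      refine mul_le_mul_of_nonneg_left (h2.trans (le_of_eq ?_)) (Real.exp_pos _).le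
      congr 1; ring
    · refine le_trans (by exact_mod_cast card_filter_le _ _) (hS2.trans ?_)
      rw [Real.exp_le_exp]
      have h1 : -Real.log x ≤ 2 * L + 3 := by
        rw [hx, Real.log_inv, neg_neg, Real.log_mul (by positivity) (by positivity),
          Real.log_mul (by norm_num) (by positivity), Real.log_exp]
        have h2 : Real.log 100 ≤ 5 := by
          rw [Real.log_le_iff_le_exp (by norm_num)]
          exact_mod_cast pow_le_exp _ 5 (by norm_num)
        have h3 := Real.log_le_sub_one_of_pos (by linarith : 0 < L)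
        linarith
      have h2 : 3 * x * N = 3 * (n / (100 * L)) := by
        rw [hN, hx]; field_simp
      have h3 : -Real.log x * (n / (100 * L)) ≤ (2 * L + 3) * (n / (100 * L)) :=
        mul_le_mul_of_nonneg_right h1 (by positivity)
      have h4 : (2 * L + 6) * (n / (100 * L)) ≤ (8 * L) * (n / (100 * L)) :=
        mul_le_mul_of_nonneg_right (by linarith) (by positivity)
      have h5 : (8 * L) * (n / (100 * L)) = 8 * n / 100 := by field_simp
      linarith
    · rw [← Real.exp_add, Real.exp_le_exp]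
      linarith
  · intro g hg k hk hk1
    simp only [Set.mem_iUnion, not_exists, Set.mem_preimage, Set.mem_setOf_eq, not_le] at hg
    have h1 := hg k (mem_filter.2 ⟨hS1 k hk1, hk⟩)
    rw [← mul_sum] at h1
    change -4 * s2 _ < _ at h1
    rw [map_smul, s2_smul] at h1
    have h2 := hpos k hk
    rw [← nr_sq]
    set a := nr (fun i => (k i : ℝ))
    set b := s2 (Gam g fun i => (k i : ℝ))
    have h3 : (n : ℝ) ≤ 100 * (a⁻¹ ^ 2 * b) := by linarith
    have h4 := mul_le_mul_of_nonneg_right h3 (sq_nonneg a)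
    refine h4.trans (le_of_eq ?_)
    field_simp

theorem event3 (L : ℝ) (hL : 8 ≤ L) (hN : (N : ℝ) = n * Real.exp (L - 1)) :
    ∃ S : Finset (Fin n → ℝ), IsNet S (1 / 100) ∧
    ∃ B : Set (Fin N → Fin n → ℝ), (gpp N n).real B ≤ Real.exp (-(n / 2)) ∧
      ∀ g, g ∉ B → ∀ u ∈ S, n ≤ (univ.filter fun i => √L / 2 ≤ |ip (g i) u|).card := by
  obtain ⟨S, hS1, hS2, hS3⟩ := exists_net n (1 / 100) (by norm_num)
  have hρ := Real.sqrt_nonneg L
  have h8 : (0 : ℝ) ≤ n := Nat.cast_nonneg n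
  refine ⟨S, hS3, ⋃ u ∈ S, (fun (g : Fin N → Fin n → ℝ) i => ip (g i) u) ⁻¹'
    {z | (-n : ℝ) ≤ ∑ i, if √L / 2 ≤ |z i| then -1 else 0}, ?_, ?_⟩
  · refine (union_bound _ S _ (Real.exp (-(7 * n))) (Real.exp (6 * n)) (Real.exp_pos _).le
      (fun u hu => ?_) ?_).trans ?_
    · rw [real_pre (law_rows u (hS2 u hu)) (measurableSet_le measurable_const
        (Finset.measurable_sum _ fun i _ => Measurable.ite
          (measurableSet_le measurable_const (by fun_prop)) measurable_const measurable_const))]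
      obtain ⟨h1, h2⟩ := mom3 (√L / 2) (by positivity)
      refine (chernoff (fun z => if √L / 2 ≤ |z| then -1 else 0) h1 _ h2 _).trans ?_
      have h3 : (√L / 2) ^ 2 = L / 4 := by rw [div_pow, Real.sq_sqrt (by linarith)]; ring
      rw [h3, ← Real.exp_nat_mul, ← Real.exp_add, Real.exp_le_exp, hN]
      have h6 : 48 ≤ Real.exp (L - 1) * Real.exp (-(L / 4 + 1)) := by
        rw [← Real.exp_add]
        refine le_trans ?_ (Real.exp_le_exp.2 (show (4 : ℝ) ≤ _ by linarith))
        exact_mod_cast pow_le_exp _ 4 (by norm_num)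
      have h7 := mul_le_mul_of_nonneg_left h6 h8
      nlinarith
    · refine hS1.trans ?_
      rw [mul_comm, Real.exp_nat_mul]
      refine pow_le_pow_left₀ (by norm_num) ?_ n
      exact_mod_cast pow_le_exp _ 6 (by norm_num)
    · rw [← Real.exp_add, Real.exp_le_exp]
      linarith
  · intro g hg u hu
    simp only [Set.mem_iUnion, not_exists, Set.mem_preimage, Set.mem_setOf_eq, not_le] at hg
    have := hg u hu
    rw [← sum_filter, sum_const, nsmul_eq_mul] at this
    have h2 : (n : ℝ) ≤ (univ.filter fun i => √L / 2 ≤ |ip (g i) u|).card := by linarith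
    exact_mod_cast h2

noncomputable def bigD : ℝ :=
  2 * (32 + 2 * 1000000 * (1000000 * (600 * 1000000 + 1) + 560 * 1000000))

theorem good (hn : 0 < n) (hnN : n ≤ N) :
    ∃ B : Set (Fin N → Fin n → ℝ), (gpp N n).real B ≤ 3 * Real.exp (-(n / 2)) ∧
      ∀ g, g ∉ B → ∀ (m : ℕ) (x : Fin m → Fin n → ℝ), ∑ j, gauge (body g) (x j) ^ 2 ≤
        bigD * ex (fun s => gauge (body g) (∑ j, sg (s j) • x j) ^ 2) := by
  have hn' : (0 : ℝ) < n := by exact_mod_cast hn
  have hnN' : (n : ℝ) ≤ N := by exact_mod_cast hnN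
  set L := 1 + Real.log (N / n) with hLdef
  have hq : (1 : ℝ) ≤ N / n := by rw [le_div_iff₀ hn']; linarith
  have hL : 1 ≤ L := by linarith [Real.log_nonneg hq]
  have hN : (N : ℝ) = n * Real.exp (L - 1) := by
    rw [hLdef, add_sub_cancel_left, Real.exp_log (by linarith)]; field_simp
  have hρ : 1 ≤ √L := Real.one_le_sqrt.2 hL
  have hρ2 : √L ^ 2 = L := Real.sq_sqrt (by linarith)
  have hn2 : √(n : ℝ) ^ 2 = n := Real.sq_sqrt hn'.le
  obtain ⟨B1, hB1, h1⟩ := event1 (N := N) (n := n) L (by linarith) hN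
  obtain ⟨B2, hB2, h2⟩ := event2 (N := N) (n := n) L hL hn hN
  have h3 : ∃ B : Set (Fin N → Fin n → ℝ), (gpp N n).real B ≤ Real.exp (-(n / 2)) ∧
      ∀ g, g ∉ B → g ∉ B1 → Function.Surjective (Gam g) ∧ ∀ v, ∃ w, Gam g w = Gam g v ∧
        L * l1 w ^ 2 ≤ 1000000 * (s2 (Gam g v) + n * s2 v) := by
    rcases le_total 8 L with h8 | h8
    · obtain ⟨S, hS, B3, hB3, h3⟩ := event3 (N := N) (n := n) L h8 hN
      refine ⟨B3, hB3, fun g hg hg1 => ?_⟩
      have h4 := ball_of g (√L / 4) (by positivity)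
        (spread_of g S _ hρ hn hS (h1 g hg1) (h3 g hg))
      refine ⟨fun x => (h4 x).imp fun w hw => hw.1, fun v => ?_⟩
      obtain ⟨w, hw, hw'⟩ := h4 (Gam g v)
      refine ⟨w, hw, ?_⟩
      have h5 := pow_le_pow_left₀ (by have := l1_nonneg w; positivity) hw' 2
      rw [mul_pow, div_pow, hρ2, nr_sq] at h5
      have h6 := s2_nonneg (Gam g v)
      have h7 : 0 ≤ n * s2 v := mul_nonneg hn'.le (s2_nonneg v)
      linarith
    · refine ⟨{g | ¬ Function.Surjective (Gam g)}, ?_, fun g hg _ => ⟨not_not.1 hg, fun v => ?_⟩⟩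
      · have := ae_iff.1 (surj_ae hnN)
        rw [measureReal_def, this]
        simpa using (Real.exp_pos _).le
      · refine ⟨v, rfl, ?_⟩
        have h4 := l1_sq_le v
        rw [Fintype.card_fin] at h4
        have h5 : Real.exp (L - 1) ≤ 2187 := by
          refine (Real.exp_le_exp.2 (show L - 1 ≤ (7 : ℕ) by push_cast; linarith)).trans ?_
          rw [← Real.exp_one_pow]
          exact (pow_le_pow_left₀ (Real.exp_pos 1).le
            (show Real.exp 1 ≤ 3 by linarith [Real.exp_one_lt_d9]) 7).trans (by norm_num)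
        have h6 := s2_nonneg (Gam g v)
        have h7 : 0 ≤ n * s2 v := mul_nonneg hn'.le (s2_nonneg v)
        have h9 : (N : ℝ) * s2 v ≤ 2187 * (n * s2 v) := by
          rw [hN]; nlinarith
        have h10 : L * l1 v ^ 2 ≤ 8 * l1 v ^ 2 := mul_le_mul_of_nonneg_right h8 (sq_nonneg _)
        linarith
  obtain ⟨B3, hB3, h3⟩ := h3
  refine ⟨B1 ∪ B2 ∪ B3, ?_, fun g hg m x => ?_⟩
  · have := measureReal_union_le (μ := gpp N n) (B1 ∪ B2) B3
    have := measureReal_union_le (μ := gpp N n) B1 B2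
    linarith
  simp only [Set.mem_union, not_or] at hg
  obtain ⟨⟨hg1, hg2⟩, hg3⟩ := hg
  obtain ⟨hs, hB⟩ := h3 g hg3 hg1
  refine cot_det (Gam g) (gauge (body g)) 1000000 L (by norm_num) (by linarith) (fun v => ?_)
    (fun v hv => ?_) hB (gauge_le g) (fun x => gauge_nonneg x) (gauge_lift g hs) x
  · have h4 := pow_le_pow_left₀ (nr_nonneg _) (h1 g hg1 v) 2
    rw [nr_sq] at h4
    have h5 : (√n * nr v) ^ 2 = n * s2 v := by rw [mul_pow, hn2, nr_sq]
    have h6 : (√L * l1 v) ^ 2 = L * l1 v ^ 2 := by rw [mul_pow, hρ2]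
    rw [← h5, ← h6]
    nlinarith [sq_nonneg (√n * nr v - √L * l1 v), sq_nonneg (√n * nr v), sq_nonneg (√L * l1 v)]
  · have h4 := lower_of g √L (by linarith) (h1 g hg1) (by rw [hρ2]; exact h2 g hg2) v hv
    have h5 := pow_le_pow_left₀ (by have := nr_nonneg v; positivity) h4 2
    rw [mul_pow, mul_pow, mul_pow, hn2, hρ2, nr_sq] at h5
    linarith

end Pool.Agent.H905Z.GP
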