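import Mathlib
import Pool.Agent.H905Z.GPProb

/-! Kahane's comparison of the first two moments for a quotient norm, and the cotype bound
with the first moment on the right. -/

set_option autoImplicit false

namespace Pool.Agent.H905Z.GP

open Finset MeasureTheory ProbabilityTheory

variable {m N n : ℕ}

lemma sg_rev (a : Fin 2) : sg (Fin.rev a) = -sg a := by
  fin_cases a <;> simp [Fin.rev]

lemma ex_rev (f : (Fin m → Fin 2) → ℝ) : ex (fun s => f (fun j => Fin.rev (s j))) = ex f := by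
  unfold ex
  congr 1
  exact Equiv.sum_comp (Equiv.piCongrRight fun _ : Fin m => (Fin.revPerm : Equiv.Perm (Fin 2))) f

lemma parseval2 (f g : (Fin m → Fin 2) → ℝ) :
    ex (fun s => f s * g s) = ∑ A : Finset (Fin m), hat f A * hat g A := by
  have : (fun s => f s * g s) = fun s => ∑ A : Finset (Fin m), hat f A * (g s * wal A s) := by
    funext s
    nth_rewrite 1 [expansion f s]
    rw [sum_mul]
    exact sum_congr rfl fun A _ => by ring
  rw [this, ex_sum]
  refine sum_congr rfl fun A _ => ?_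
  rw [ex_mul]; rfl

lemma ker_mean (s : Fin m → Fin 2) : ex (fun t => ker s t) = 1 := by
  have := eigen ∅ s
  simp only [wal, prod_empty, card_empty, pow_zero, mul_one] at this
  simp only [ker_symm s]
  exact this

lemma even_bound (f : (Fin m → Fin 2) → ℝ) (hf : ∀ s, f (fun j => Fin.rev (s j)) = f s) :
    ex (fun s => f s * noise f s) ≤ ex (fun s => f s ^ 2) / 4 + 3 / 4 * ex f ^ 2 := by
  have h0 : ∀ j, hat f {j} = 0 := by
    intro j
    rw [← co_eq, co]
    have h1 := ex_rev (fun s => f s * sg (s j))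
    simp only [hf, sg_rev] at h1
    have h2 : ex (fun s => f s * -sg (s j)) = -ex (fun s => f s * sg (s j)) := by
      rw [← neg_one_mul, ← ex_mul]
      congr 1; funext s; ring
    linarith
  have h1 : ex f = hat f ∅ := by simp [hat, wal]
  have h2 : 3 / 4 * ex f ^ 2 =
      ∑ A : Finset (Fin m), if A = ∅ then 3 / 4 * hat f A ^ 2 else 0 := by
    rw [h1]; simp
  rw [parseval2, parseval, h2, sum_div, ← sum_add_distrib]
  refine sum_le_sum fun A _ => ?_
  rw [hat_noise]
  have h3 := sq_nonneg (hat f A)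
  split_ifs with hA
  · subst hA; simp; nlinarith
  · rcases Nat.lt_or_ge A.card 2 with h | h
    · have h4 : A.card = 1 := by
        have := card_pos.2 (nonempty_iff_ne_empty.2 hA)
        omega
      obtain ⟨j, rfl⟩ := card_eq_one.1 h4
      simp [h0]
    · have h4 : (1 / 2 : ℝ) ^ A.card ≤ (1 / 2) ^ 2 :=
        pow_le_pow_of_le_one (by norm_num) (by norm_num) h
      nlinarith

theorem kahane (Γ : (Fin N → ℝ) →ₗ[ℝ] (Fin n → ℝ)) (φ : (Fin n → ℝ) → ℝ)
    (hG : ∀ a, φ (Γ a) ≤ l1 a) (hφ : ∀ x, 0 ≤ φ x)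
    (hG2 : ∀ x δ, 0 < δ → ∃ a, Γ a = x ∧ l1 a ≤ φ x + δ) (x : Fin m → Fin n → ℝ) :
    ex (fun s => φ (∑ j, sg (s j) • x j) ^ 2) ≤ 3 * ex (fun s => φ (∑ j, sg (s j) • x j)) ^ 2 := by
  set f : (Fin m → Fin 2) → ℝ := fun s => φ (∑ j, sg (s j) • x j) with hfdef
  have hneg : ∀ y, φ (-y) ≤ φ y := by
    intro y
    refine le_of_forall_pos_le_add fun δ hδ => ?_
    obtain ⟨a, rfl, ha⟩ := hG2 y δ hδ
    have h1 := hG ((-1 : ℝ) • a)
    rw [map_smul, l1_smul] at h1
    simp only [neg_smul, one_smul, abs_neg, abs_one, one_mul] at h1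
    linarith
  have hev : ∀ s, f (fun j => Fin.rev (s j)) = f s := by
    intro s
    simp only [hfdef, sg_rev, neg_smul, sum_neg_distrib]
    exact le_antisymm (hneg _) (by simpa using hneg (-∑ j, sg (s j) • x j))
  have hT : ∀ s, f s ≤ 2 * noise f s := by
    intro s
    refine le_of_forall_pos_le_add fun δ hδ => ?_
    choose a ha ha' using fun t : Fin m → Fin 2 => hG2 (∑ j, sg (t j) • x j) (δ / 2) (by positivity)
    have h1 : Γ ((2 : ℝ) • exv (fun t i => ker s t * a t i)) = ∑ j, sg (s j) • x j := by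
      rw [map_smul]
      funext k
      simp only [Pi.smul_apply, smul_eq_mul]
      rw [map_exv]
      simp only [ha, Finset.sum_apply, Pi.smul_apply, smul_eq_mul, mul_sum]
      rw [ex_sum, mul_sum]
      refine sum_congr rfl fun j _ => ?_
      have : ex (fun t => ker s t * (sg (t j) * x j k)) = x j k * (sg (s j) / 2) := by
        rw [← noise_sg, ← ex_mul]
        congr 1; funext t; ring
      rw [this]; ring
    have h2 := hG ((2 : ℝ) • exv (fun t i => ker s t * a t i))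
    rw [h1, l1_smul, abs_two] at h2
    have h3 : l1 (exv (fun t i => ker s t * a t i)) ≤ ex (fun t => ker s t * l1 (a t)) := by
      simp only [l1, mul_sum]
      rw [ex_sum]
      refine sum_le_sum fun i _ => (ex_abs _).trans (ex_mono fun t => ?_)
      rw [abs_mul, abs_of_nonneg (ker_nonneg s t)]
    have h4 : ex (fun t => ker s t * l1 (a t)) ≤
        ex (fun t => ker s t * f t + δ / 2 * ker s t) := by
      refine ex_mono fun t => ?_
      have := mul_le_mul_of_nonneg_left (ha' t) (ker_nonneg s t)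
      simp only [hfdef]
      linarith
    rw [ex_add, ex_mul, ker_mean] at h4
    change f s ≤ _ at h2
    unfold noise
    linarith
  have h1 : ex (fun s => f s ^ 2) ≤ ex (fun s => 2 * (f s * noise f s)) := by
    refine ex_mono fun s => ?_
    have := mul_le_mul_of_nonneg_left (hT s) (hφ (∑ j, sg (s j) • x j))
    change f s * f s ≤ f s * _ at this
    nlinarith
  rw [ex_mul] at h1
  have h2 := even_bound f hev
  linarith

theorem good2 (hn : 0 < n) (hnN : n ≤ N) :
    ∃ B : Set (Fin N → Fin n → ℝ), (gpp N n).real B ≤ 3 * Real.exp (-(n / 2)) ∧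
      ∀ g, g ∉ B → Function.Surjective (Gam g) ∧ ∀ φ : (Fin n → ℝ) → ℝ,
        (∀ a, φ (Gam g a) ≤ l1 a) → (∀ x, 0 ≤ φ x) →
        (∀ x δ, 0 < δ → ∃ a, Gam g a = x ∧ l1 a ≤ φ x + δ) →
        ∀ (m : ℕ) (x : Fin m → Fin n → ℝ), √(∑ j, φ (x j) ^ 2) ≤
          √(3 * bigD) * ex (fun s => φ (∑ j, sg (s j) • x j)) := by
  have hn' : (0 : ℝ) < n := by exact_mod_cast hn
  have hnN' : (n : ℝ) ≤ N := by exact_mod_cast hnN
  set L := 1 + Real.log (N / n) with hLdef
  have hq : (1 : ℝ) ≤ N / n := by rw [le_div_iff₀ hn']; linarith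
  have hL : 1 ≤ L := by linarith [Real.log_nonneg hq]
  have hN : (N : ℝ) = n * Real.exp (L - 1) := by
    rw [hLdef, add_sub_cancel_left, Real.exp_log (by linarith)]; field_simp
  have hρ : 1 ≤ √L := Real.one_le_sqrt.2 hL
  have hρ2 : √L ^ 2 = L := Real.sq_sqrt (by linarith)
  have hn2 : √(n : ℝ) ^ 2 = n := Real.sq_sqrt hn'.le
  obtain ⟨B1, hB1, h1⟩ := event1 (N := N) (n := n) L (by linarith) hN
  obtain ⟨B2, hB2, h2⟩ := event2 (N := N) (n := n) L hL hn hN
  have h3 : ∃ B : Set (Fin N → Fin n → ℝ), (gpp N n).real B ≤ Real.exp (-(n / 2)) ∧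
      ∀ g, g ∉ B → g ∉ B1 → Function.Surjective (Gam g) ∧ ∀ v, ∃ w, Gam g w = Gam g v ∧
        L * l1 w ^ 2 ≤ 1000000 * (s2 (Gam g v) + n * s2 v) := by
    rcases le_total 8 L with h8 | h8
    · obtain ⟨S, hS, B3, hB3, h3⟩ := event3 (N := N) (n := n) L h8 hN
      refine ⟨B3, hB3, fun g hg hg1 => ?_⟩
      have h4 := ball_of g (√L / 4) (by positivity)
        (spread_of g S _ hρ hn hS (h1 g hg1) (h3 g hg))
      refine ⟨fun x => (h4 x).imp fun w hw => hw.1, fun v => ?_⟩
      obtain ⟨w, hw, hw'⟩ := h4 (Gam g v)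
      refine ⟨w, hw, ?_⟩
      have h5 := pow_le_pow_left₀ (by have := l1_nonneg w; positivity) hw' 2
      rw [mul_pow, div_pow, hρ2, nr_sq] at h5
      have h6 := s2_nonneg (Gam g v)
      have h7 : 0 ≤ n * s2 v := mul_nonneg hn'.le (s2_nonneg v)
      linarith
    · refine ⟨{g | ¬ Function.Surjective (Gam g)}, ?_, fun g hg _ => ⟨not_not.1 hg, fun v => ?_⟩⟩
      · have := ae_iff.1 (surj_ae hnN)
        rw [measureReal_def, this]
        simpa using (Real.exp_pos _).le
      · refine ⟨v, rfl, ?_⟩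
        have h4 := l1_sq_le v
        rw [Fintype.card_fin] at h4
        have h5 : Real.exp (L - 1) ≤ 2187 := by
          refine (Real.exp_le_exp.2 (show L - 1 ≤ (7 : ℕ) by push_cast; linarith)).trans ?_
          rw [← Real.exp_one_pow]
          exact (pow_le_pow_left₀ (Real.exp_pos 1).le
            (show Real.exp 1 ≤ 3 by linarith [Real.exp_one_lt_d9]) 7).trans (by norm_num)
        have h6 := s2_nonneg (Gam g v)
        have h7 : 0 ≤ n * s2 v := mul_nonneg hn'.le (s2_nonneg v)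
        have h9 : (N : ℝ) * s2 v ≤ 2187 * (n * s2 v) := by
          rw [hN]; nlinarith
        have h10 : L * l1 v ^ 2 ≤ 8 * l1 v ^ 2 := mul_le_mul_of_nonneg_right h8 (sq_nonneg _)
        linarith
  obtain ⟨B3, hB3, h3⟩ := h3
  refine ⟨B1 ∪ B2 ∪ B3, ?_, fun g hg => ?_⟩
  · have := measureReal_union_le (μ := gpp N n) (B1 ∪ B2) B3
    have := measureReal_union_le (μ := gpp N n) B1 B2
    linarith
  simp only [Set.mem_union, not_or] at hg
  obtain ⟨⟨hg1, hg2⟩, hg3⟩ := hg
  obtain ⟨hs, hB⟩ := h3 g hg3 hg1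
  refine ⟨hs, fun φ hG hφ hG2 m x => ?_⟩
  have hD : 0 < bigD := by unfold bigD; norm_num
  have hk := kahane (Gam g) φ hG hφ hG2 x
  have hE : 0 ≤ ex (fun s : Fin m → Fin 2 => φ (∑ j, sg (s j) • x j)) := ex_nonneg fun s => hφ _
  rw [← Real.sqrt_sq hE, ← Real.sqrt_mul (by positivity)]
  refine Real.sqrt_le_sqrt (le_trans ?_ ((mul_le_mul_of_nonneg_left hk hD.le).trans
    (le_of_eq (by ring))))
  refine cot_det (Gam g) φ 1000000 L (by norm_num) (by linarith) (fun v => ?_)
    (fun v hv => ?_) hB hG hφ hG2 x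
  · have h4 := pow_le_pow_left₀ (nr_nonneg _) (h1 g hg1 v) 2
    rw [nr_sq] at h4
    have h5 : (√n * nr v) ^ 2 = n * s2 v := by rw [mul_pow, hn2, nr_sq]
    have h6 : (√L * l1 v) ^ 2 = L * l1 v ^ 2 := by rw [mul_pow, hρ2]
    rw [← h5, ← h6]
    nlinarith [sq_nonneg (√n * nr v - √L * l1 v), sq_nonneg (√n * nr v), sq_nonneg (√L * l1 v)]
  · have h4 := lower_of g √L (by linarith) (h1 g hg1) (by rw [hρ2]; exact h2 g hg2) v hv
    have h5 := pow_le_pow_left₀ (by have := nr_nonneg v; positivity) h4 2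
    rw [mul_pow, mul_pow, mul_pow, hn2, hρ2, nr_sq] at h5
    linarith


theorem small (ε : ℝ) (hε : 0 < ε) : ∃ n₀ : ℕ, ∀ n : ℕ, n₀ ≤ n →
    0 < n ∧ 3 * Real.exp (-(n / 2)) ≤ ε := by
  obtain ⟨n₀, hn₀⟩ := exists_nat_gt (6 / ε)
  refine ⟨n₀, fun n hn => ?_⟩
  have h0 : (0 : ℝ) < n₀ := lt_trans (by positivity) hn₀
  have h1 : (n₀ : ℝ) ≤ n := by exact_mod_cast hn
  refine ⟨by exact_mod_cast h0.trans_le h1, ?_⟩
  rw [div_lt_iff₀ hε] at hn₀
  have h3 := Real.add_one_le_exp ((n : ℝ) / 2)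
  rw [Real.exp_neg, ← div_eq_mul_inv, div_le_iff₀ (Real.exp_pos _)]
  nlinarith

lemma compl_bound (B S : Set (Fin N → Fin n → ℝ)) (ε : ℝ) (hB : (gpp N n).real B ≤ ε)
    (h : ∀ g, g ∉ B → g ∈ S) : 1 - ε ≤ (gpp N n).real S := by
  have h3 : (gpp N n).real Set.univ ≤ (gpp N n).real Bᶜ + (gpp N n).real B := by
    rw [← Set.compl_union_self B]
    exact measureReal_union_le _ _
  rw [probReal_univ] at h3
  exact le_trans (show 1 - ε ≤ (gpp N n).real Bᶜ by linarith) (measureReal_mono fun g hg => h g hg)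

/-- sums over Boolean sign patterns -/
lemma ex_bool (F : (Fin m → ℝ) → ℝ) :
    ex (fun s : Fin m → Fin 2 => F (fun j => sg (s j))) =
      (1 / (2 : ℝ) ^ m) * ∑ σ : Fin m → Bool, F (fun j => if σ j then (1 : ℝ) else -1) := by
  rw [← ex_rev, ex, div_eq_inv_mul, one_div]
  congr 1
  refine Fintype.sum_equiv (Equiv.piCongrRight fun _ : Fin m => finTwoEquiv) _ _ fun s => ?_
  congr 1
  funext j
  simp only [Equiv.piCongrRight_apply, Pi.map_apply]
  generalize s j = a
  fin_cases a <;> simp [finTwoEquiv, Fin.rev]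

end Pool.Agent.H905Z.GP
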