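import Mathlib

set_option autoImplicit false

/-! An upper bound for the average degree of hexagon-free graphs: `d³ ≤ (2 + o(1)) n`. -/

namespace Pool.Agent.H905Z.Hex

open Finset

variable {V : Type*} [DecidableEq V] (G : SimpleGraph V) [DecidableRel G.Adj]

/-- no hexagon -/
def NoHex : Prop := ∀ a b c d e f : V, G.Adj a b → G.Adj b c → G.Adj c d → G.Adj d e →
  G.Adj e f → G.Adj f a → a ≠ c → a ≠ d → a ≠ e → b ≠ d → b ≠ e → b ≠ f → c ≠ e → c ≠ f →
  d ≠ f → False

/-- neighbours inside `S` -/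
def N (S : Finset V) (x : V) : Finset V := S.filter (fun y => G.Adj x y)

/-- common neighbours inside `S` -/
def Co (S : Finset V) (x y : V) : Finset V := S.filter (fun z => G.Adj x z ∧ G.Adj y z)

/-- good pairs of ends of a two-edge path -/
def Good (S : Finset V) (u y : V) : Prop := u ≠ y ∧ (Co G S u y).card ≤ 2 ∧ ¬ G.Adj u y

instance (S : Finset V) (u y : V) : Decidable (Good G S u y) := by unfold Good; infer_instance

variable {G}

omit [DecidableEq V] in
theorem mem_N {S : Finset V} {x y : V} : y ∈ N G S x ↔ y ∈ S ∧ G.Adj x y := mem_filter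

omit [DecidableEq V] in
theorem mem_Co {S : Finset V} {x y z : V} : z ∈ Co G S x y ↔ z ∈ S ∧ G.Adj x z ∧ G.Adj y z :=
  mem_filter

theorem two_of_three {s : Finset V} (h : 3 ≤ s.card) (x : V) :
    ∃ a ∈ s, ∃ b ∈ s, a ≠ b ∧ a ≠ x ∧ b ≠ x := by
  have h1 : 1 < (s.erase x).card := by
    have := pred_card_le_card_erase (s := s) (a := x)
    omega
  obtain ⟨a, ha, b, hb, hab⟩ := one_lt_card.1 h1
  exact ⟨a, mem_of_mem_erase ha, b, mem_of_mem_erase hb, hab, ne_of_mem_erase ha,
    ne_of_mem_erase hb⟩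

theorem big_le (hG : NoHex G) (S : Finset V) (x y : V) (hxy : G.Adj x y) :
    ((N G S x).filter (fun u => u ≠ y ∧ 3 ≤ (Co G S u y).card)).card ≤ 3 := by
  by_contra hcon
  set B := (N G S x).filter (fun u => u ≠ y ∧ 3 ≤ (Co G S u y).card) with hB
  obtain ⟨w, hw⟩ : B.Nonempty := card_pos.1 (by omega)
  obtain ⟨hw1, hw2, hw3⟩ := mem_filter.1 hw
  obtain ⟨y1, hy1, y2, hy2, h12, h1x, h2x⟩ := two_of_three hw3 x
  have : ¬ B ⊆ {w, y1, y2} := fun h => by
    have := (card_le_card h).trans card_le_three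
    omega
  obtain ⟨z, hz, hzn⟩ := not_subset.1 this
  simp only [mem_insert, mem_singleton, not_or] at hzn
  obtain ⟨hz1, hz2, hz3⟩ := mem_filter.1 hz
  obtain ⟨s1, hs1, s2, hs2, hs12, hs1x, hs2x⟩ := two_of_three hz3 x
  have a1 : ∃ s ∈ Co G S z y, s ≠ x ∧ s ≠ w := by
    by_cases h : s1 = w
    · exact ⟨s2, hs2, hs2x, fun h' => hs12 (h.trans h'.symm)⟩
    · exact ⟨s1, hs1, hs1x, h⟩
  obtain ⟨s, hs, hsx, hsw⟩ := a1
  have a2 : ∃ t ∈ Co G S w y, t ≠ x ∧ t ≠ s ∧ z ≠ t := by
    by_cases h : y1 = s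
    · exact ⟨y2, hy2, h2x, fun h' => h12 (h.trans h'.symm), hzn.2.2⟩
    · exact ⟨y1, hy1, h1x, h, hzn.2.1⟩
  obtain ⟨t, ht, htx, hts, hzt⟩ := a2
  rw [mem_Co] at hs ht
  rw [mem_N] at hw1 hz1
  exact hG w x z s y t hw1.2.symm hz1.2 hs.2.1 hs.2.2.symm ht.2.2 ht.2.1.symm (Ne.symm hzn.1)
    hsw.symm hw2 hsx.symm hxy.ne htx.symm hz2 hzt hts.symm

theorem bad_le (hG : NoHex G) (S : Finset V) (y : V) :
    ∑ x ∈ N G S y, ((N G S x).filter (fun u => ¬ Good G S u y)).card ≤ 6 * (N G S y).card := by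
  have h1 : ∀ x ∈ N G S y, ((N G S x).filter (fun u => ¬ Good G S u y)).card ≤
      4 + ((N G S y).filter (fun u => (Co G S u y).card ≤ 2 ∧ G.Adj u x)).card := by
    intro x hx
    have hsub : (N G S x).filter (fun u => ¬ Good G S u y) ⊆
        insert y ((N G S x).filter (fun u => u ≠ y ∧ 3 ≤ (Co G S u y).card) ∪
          (N G S y).filter (fun u => (Co G S u y).card ≤ 2 ∧ G.Adj u x)) := by
      intro u hu
      obtain ⟨h1, h2⟩ := mem_filter.1 hu
      rw [mem_insert, mem_union, mem_filter, mem_filter]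
      by_cases a1 : u = y
      · exact Or.inl a1
      right
      by_cases a2 : (Co G S u y).card ≤ 2
      · right
        have a3 : G.Adj u y := by
          by_contra a3; exact h2 ⟨a1, a2, a3⟩
        exact ⟨mem_N.2 ⟨(mem_N.1 h1).1, a3.symm⟩, a2, (mem_N.1 h1).2.symm⟩
      · exact Or.inl ⟨h1, a1, by omega⟩
    have b1 := card_le_card hsub
    have b2 := card_insert_le y ((N G S x).filter (fun u => u ≠ y ∧ 3 ≤ (Co G S u y).card) ∪
          (N G S y).filter (fun u => (Co G S u y).card ≤ 2 ∧ G.Adj u x))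
    have b3 := card_union_le ((N G S x).filter (fun u => u ≠ y ∧ 3 ≤ (Co G S u y).card))
          ((N G S y).filter (fun u => (Co G S u y).card ≤ 2 ∧ G.Adj u x))
    have b4 := big_le hG S x y (mem_N.1 hx).2.symm
    omega
  refine (sum_le_sum h1).trans ?_
  rw [sum_add_distrib, sum_const, smul_eq_mul]
  have h2 : ∑ x ∈ N G S y, ((N G S y).filter (fun u => (Co G S u y).card ≤ 2 ∧ G.Adj u x)).card ≤
      ∑ u ∈ N G S y, 2 := by
    simp only [card_filter]
    rw [sum_comm]
    refine sum_le_sum fun u _ => ?_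
    by_cases a2 : (Co G S u y).card ≤ 2
    · refine le_trans ?_ a2
      rw [← card_filter]
      refine card_le_card fun x hx => ?_
      obtain ⟨c1, _, c3⟩ := mem_filter.1 hx
      exact mem_Co.2 ⟨(mem_N.1 c1).1, c3, (mem_N.1 c1).2⟩
    · simp [a2]
  rw [sum_const, smul_eq_mul] at h2
  omega

theorem fiber_le (hG : NoHex G) (S : Finset V) (u v : V) :
    ((S ×ˢ S).filter (fun q : V × V => G.Adj q.1 q.2 ∧ (G.Adj q.1 u ∧ Good G S u q.2) ∧
      (G.Adj q.2 v ∧ Good G S v q.1))).card ≤ 2 := by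
  set F := (S ×ˢ S).filter (fun q : V × V => G.Adj q.1 q.2 ∧ (G.Adj q.1 u ∧ Good G S u q.2) ∧
      (G.Adj q.2 v ∧ Good G S v q.1)) with hF
  have key : ∀ q ∈ F, ∀ q' ∈ F, q.1 = q'.1 ∨ q.2 = q'.2 := by
    intro q hq q' hq'
    by_contra hcon
    rw [not_or] at hcon
    obtain ⟨_, a1, ⟨a2, a3, _, a4⟩, a5, a6, _, a7⟩ := mem_filter.1 hq
    obtain ⟨_, b1, ⟨b2, b3, _, b4⟩, b5, b6, _, b7⟩ := mem_filter.1 hq'
    refine hG u q.1 q.2 v q'.2 q'.1 a2.symm a1 a5 b5.symm b1.symm b2 a3 ?_ b3 a6.symm ?_ hcon.1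
      hcon.2 ?_ b6
    · rintro rfl; exact a4 a5.symm
    · intro h; rw [← h] at b5; exact a7 b5.symm
    · intro h; rw [← h] at b2; exact a4 b2.symm
  rcases F.eq_empty_or_nonempty with h | ⟨q0, hq0⟩
  · rw [h]; simp
  obtain ⟨_, _, ⟨_, _, a3, _⟩, _, _, a6, _⟩ := mem_filter.1 hq0
  by_cases hall : ∀ q ∈ F, q.1 = q0.1
  · refine le_trans (card_le_card_of_injOn Prod.snd ?_ ?_) a6
    · intro q hq
      have e := hall q hq
      obtain ⟨b0, b1, _, b5, _⟩ := mem_filter.1 (mem_coe.1 hq)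
      exact mem_coe.2 (mem_Co.2 ⟨(mem_product.1 b0).2, b5.symm, e ▸ b1⟩)
    · intro q hq q' hq' h
      exact Prod.ext ((hall q hq).trans (hall q' hq').symm) h
  · push Not at hall
    obtain ⟨q1, hq1, hne⟩ := hall
    have e1 : q1.2 = q0.2 := (key q1 hq1 q0 hq0).resolve_left hne
    have hall : ∀ q ∈ F, q.2 = q0.2 := by
      intro q hq
      by_contra h
      have c1 := (key q hq q0 hq0).resolve_right h
      have c2 := (key q hq q1 hq1).resolve_right (by rw [e1]; exact h)
      exact hne (c2.symm.trans c1)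
    refine le_trans (card_le_card_of_injOn Prod.fst ?_ ?_) a3
    · intro q hq
      have e := hall q hq
      obtain ⟨b0, b1, ⟨b2, _⟩, _⟩ := mem_filter.1 (mem_coe.1 hq)
      exact mem_coe.2 (mem_Co.2 ⟨(mem_product.1 b0).1, b2.symm, e ▸ b1.symm⟩)
    · intro q hq q' hq' h
      exact Prod.ext h ((hall q hq).trans (hall q' hq').symm)

theorem good_le (hG : NoHex G) (S : Finset V) :
    ∑ x ∈ S, ∑ y ∈ N G S x, ((N G S x).filter (fun u => Good G S u y)).card *
      ((N G S y).filter (fun v => Good G S v x)).card ≤ 2 * S.card ^ 2 := by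
  have e : ∑ x ∈ S, ∑ y ∈ N G S x, ((N G S x).filter (fun u => Good G S u y)).card *
      ((N G S y).filter (fun v => Good G S v x)).card =
      ∑ u ∈ S, ∑ v ∈ S, ((S ×ˢ S).filter (fun q : V × V => G.Adj q.1 q.2 ∧
        (G.Adj q.1 u ∧ Good G S u q.2) ∧ (G.Adj q.2 v ∧ Good G S v q.1))).card := by
    have four : ∀ f : V → V → V → V → ℕ, ∑ u ∈ S, ∑ v ∈ S, ∑ x ∈ S, ∑ y ∈ S, f u v x y =
        ∑ x ∈ S, ∑ y ∈ S, ∑ u ∈ S, ∑ v ∈ S, f u v x y := by
      intro f
      calc _ = ∑ q ∈ S ×ˢ S, ∑ r ∈ S ×ˢ S, f q.1 q.2 r.1 r.2 := by simp only [sum_product]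
        _ = ∑ r ∈ S ×ˢ S, ∑ q ∈ S ×ˢ S, f q.1 q.2 r.1 r.2 := sum_comm
        _ = _ := by simp only [sum_product]
    simp only [N, filter_filter, card_filter, sum_filter, sum_mul_sum, sum_product]
    rw [four (fun u v x y => if G.Adj x y ∧ (G.Adj x u ∧ Good G S u y) ∧
      (G.Adj y v ∧ Good G S v x) then 1 else 0)]
    refine sum_congr rfl fun x _ => sum_congr rfl fun y _ => ?_
    by_cases h : G.Adj x y
    · simp only [h, if_true, true_and]
      refine sum_congr rfl fun u _ => sum_congr rfl fun v _ => ?_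
      by_cases h1 : G.Adj x u ∧ Good G S u y <;> by_cases h2 : G.Adj y v ∧ Good G S v x <;>
        simp [h1, h2]
    · simp [h]
  rw [e]
  refine (sum_le_sum fun u _ => sum_le_sum fun v _ => fiber_le hG S u v).trans ?_
  simp only [sum_const, smul_eq_mul]
  exact le_of_eq (by ring)

omit [DecidableEq V] in
theorem sum_swap {M : Type*} [AddCommMonoid M] (S : Finset V) (f : V → V → M) :
    ∑ x ∈ S, ∑ y ∈ N G S x, f x y = ∑ y ∈ S, ∑ x ∈ N G S y, f x y := by
  simp only [N, sum_filter]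
  rw [sum_comm]
  refine sum_congr rfl fun y _ => sum_congr rfl fun x _ => ?_
  simp only [G.adj_comm]

theorem walks_le (hG : NoHex G) (S : Finset V) :
    ∑ x ∈ S, ∑ y ∈ N G S x, (N G S x).card * (N G S y).card ≤
      2 * S.card ^ 2 + 12 * ∑ y ∈ S, (N G S y).card * (N G S y).card := by
  have h1 : ∀ x y : V, (N G S x).card * (N G S y).card ≤
      ((N G S x).filter (fun u => Good G S u y)).card *
        ((N G S y).filter (fun v => Good G S v x)).card +
      (((N G S x).filter (fun u => ¬ Good G S u y)).card * (N G S y).card +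
        ((N G S y).filter (fun u => ¬ Good G S u x)).card * (N G S x).card) := by
    intro x y
    have a1 := card_filter_add_card_filter_not (s := N G S x) (fun u => Good G S u y)
    have a2 := card_filter_add_card_filter_not (s := N G S y) (fun u => Good G S u x)
    rw [← a1, ← a2]
    nlinarith [Nat.zero_le (((N G S x).filter (fun u => ¬ Good G S u y)).card *
      ((N G S y).filter (fun u => ¬ Good G S u x)).card)]
  have h2 : ∑ x ∈ S, ∑ y ∈ N G S x,
      ((N G S y).filter (fun u => ¬ Good G S u x)).card * (N G S x).card ≤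
      6 * ∑ y ∈ S, (N G S y).card * (N G S y).card := by
    rw [mul_sum]
    refine sum_le_sum fun x _ => ?_
    rw [← sum_mul, ← mul_assoc]
    exact Nat.mul_le_mul_right _ (bad_le hG S x)
  refine (sum_le_sum fun x _ => sum_le_sum fun y _ => h1 x y).trans ?_
  simp only [sum_add_distrib]
  rw [sum_swap S (fun x y => ((N G S x).filter (fun u => ¬ Good G S u y)).card * (N G S y).card)]
  have := good_le hG S
  omega

theorem amgm {a b t : ℝ} (ha : 0 < a) (hb : 0 < b) (ht : 0 < t) :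
    3 ≤ a * b / t ^ 2 + t / a + t / b := by
  have h1 := Real.log_le_sub_one_of_pos (show 0 < a * b / t ^ 2 by positivity)
  have h2 := Real.log_le_sub_one_of_pos (show 0 < t / a by positivity)
  have h3 := Real.log_le_sub_one_of_pos (show 0 < t / b by positivity)
  rw [Real.log_div (by positivity) (by positivity), Real.log_mul ha.ne' hb.ne', Real.log_pow] at h1
  rw [Real.log_div ht.ne' ha.ne'] at h2
  rw [Real.log_div ht.ne' hb.ne'] at h3
  push_cast at h1
  linarith

theorem sum_erase_deg (S : Finset V) (v : V) (hv : v ∈ S) :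
    ∑ x ∈ S, (N G S x).card = ∑ x ∈ S.erase v, (N G (S.erase v) x).card + 2 * (N G S v).card := by
  have h1 : ∀ x, (N G S x).card = (N G (S.erase v) x).card + if G.Adj x v then 1 else 0 := by
    intro x
    simp only [N, card_filter]
    rw [← add_sum_erase _ _ hv, add_comm]
  have h2 : ∑ x ∈ S.erase v, (if G.Adj x v then 1 else 0) = (N G S v).card := by
    simp only [N, card_filter]
    rw [← add_sum_erase S _ hv]
    simp [G.adj_comm]
  rw [← add_sum_erase _ _ hv, sum_congr rfl fun x _ => h1 x, sum_add_distrib, h2]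
  ring

theorem main (hG : NoHex G) (d : ℝ) (hd : 264 ≤ d) (S : Finset V) :
    11 / 5 * (S.card : ℝ) < d ^ 3 → (∑ x ∈ S, ((N G S x).card : ℝ)) ≤ d * S.card := by
  induction S using Finset.strongInduction with
  | H S ih =>
    intro hS
    by_contra hcon
    push Not at hcon
    have hd0 : 0 < d := by linarith
    by_cases hmin : ∃ v ∈ S, ((N G S v).card : ℝ) ≤ d / 2
    · obtain ⟨v, hv, hvd⟩ := hmin
      have c1 : ((S.erase v).card : ℝ) + 1 = S.card := by
        exact_mod_cast card_erase_add_one hv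
      have c2 := ih (S.erase v) (erase_ssubset hv) (by linarith)
      have c3 : (∑ x ∈ S, ((N G S x).card : ℝ)) =
          ∑ x ∈ S.erase v, ((N G (S.erase v) x).card : ℝ) + 2 * (N G S v).card := by
        exact_mod_cast sum_erase_deg S v hv
      rw [← c1] at hcon
      linarith
    push Not at hmin
    have hpos : ∀ v ∈ S, (0 : ℝ) < (N G S v).card := fun v hv => by
      have := hmin v hv; linarith
    set W : ℝ := ∑ x ∈ S, ∑ y ∈ N G S x, ((N G S x).card : ℝ) * (N G S y).card with hW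
    have w1 : W ≤ 2 * (S.card : ℝ) ^ 2 + 12 * ∑ y ∈ S, ((N G S y).card : ℝ) * (N G S y).card := by
      rw [hW]
      exact_mod_cast walks_le hG S
    have w2 : d / 2 * ∑ y ∈ S, ((N G S y).card : ℝ) * (N G S y).card ≤ W := by
      rw [mul_sum]
      refine sum_le_sum fun x hx => ?_
      rw [← mul_sum]
      have : ∑ y ∈ N G S x, d / 2 ≤ ∑ y ∈ N G S x, ((N G S y).card : ℝ) :=
        sum_le_sum fun y hy => (hmin y (mem_N.1 hy).1).le
      rw [sum_const, nsmul_eq_mul] at this
      have := hpos x hx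
      nlinarith
    have w3 : 3 * ∑ x ∈ S, ((N G S x).card : ℝ) ≤ W / d ^ 2 + d * S.card + d * S.card := by
      have a1 : ∑ x ∈ S, ∑ _y ∈ N G S x, d / (N G S x).card = d * S.card := by
        rw [sum_congr rfl (g := fun _ => d) fun x hx => by
          rw [sum_const, nsmul_eq_mul]; have := (hpos x hx).ne'; field_simp]
        rw [sum_const, nsmul_eq_mul, mul_comm]
      have a2 : ∑ x ∈ S, ∑ y ∈ N G S x, d / (N G S y).card = d * S.card := by
        rw [sum_swap S (fun _ y => d / (N G S y).card), a1]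
      have a3 : 3 * ∑ x ∈ S, ((N G S x).card : ℝ) = ∑ x ∈ S, ∑ _y ∈ N G S x, (3 : ℝ) := by
        rw [mul_sum]
        refine sum_congr rfl fun x _ => ?_
        rw [sum_const, nsmul_eq_mul, mul_comm]
      rw [a3]
      refine (sum_le_sum fun x hx => sum_le_sum fun y hy =>
        amgm (hpos x hx) (hpos y (mem_N.1 hy).1) hd0).trans ?_
      simp only [sum_add_distrib]
      rw [a1, a2, hW]
      simp only [sum_div]
      exact le_rfl
    have hW0 : 0 ≤ ∑ y ∈ S, ((N G S y).card : ℝ) * (N G S y).card :=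
      sum_nonneg fun _ _ => by positivity
    have w4 : W ≤ 11 / 5 * (S.card : ℝ) ^ 2 := by nlinarith
    have w5 : d * S.card < W / d ^ 2 := by linarith
    rw [lt_div_iff₀ (by positivity)] at w5
    have hn : (0 : ℝ) ≤ S.card := by positivity
    nlinarith

end Pool.Agent.H905Z.Hex
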