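import Pool.Agent.H905Z.Core

set_option autoImplicit false

/-! Unbounded discrepancy of multiple correlations with a quadratic phase weight. -/

namespace Pool.Agent.H905Z.Quad

open Finset Pool.Agent.H905Z.Ent Pool.Agent.H905Z.Model Pool.Agent.H905Z.Core
  Pool.Agent.H905Z.Scales ComplexConjugate

theorem core {A : Type*} [Fintype A] [Nonempty A] {α : ℝ} (hα : Irrational α) (L g cm : ℕ)
    (ε : ℝ) (hε : 0 < ε) (hε1 : ε ≤ 1) (x : ℕ → A) :
    ∃ (Pr : Finset ℕ) (X : ℕ), Pr.Nonempty ∧ 0 < X ∧ (∀ p ∈ Pr, 0 < p ∧ p ∣ X) ∧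
      ∀ c : ℤ, c ≠ 0 → |c| ≤ cm → ∀ (b : Fin L → A → ℂ), (∀ l a, ‖b l a‖ ≤ 1) →
        ∀ s : Fin L → ℕ, (∀ l, s l ≤ g) →
        ‖∑ p ∈ Pr, (p : ℂ) * ∑ k ∈ range (X / p),
          ee (c * α * k) * ∏ l, b l (x (p * (k + s l)))‖ ≤ 4 * ε * Pr.card * X := by
  classical
  obtain ⟨ρ, hρ0, hρ1, hρ⟩ := exists_rho L
  obtain ⟨I, hI⟩ := exists_scales L ρ ε hρ0 hρ1 hε
    (Real.log (Fintype.card A) * (2 * (g + 1)) / (ε ^ 2 / 64))
  let PP : ℕ → Finset ℕ := fun i => if Good L ρ ε i then prs i else ∅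
  have hPP : ∀ i, ∀ p ∈ PP i, p.Prime ∧ 2 ^ i < p ∧ p ≤ 2 ^ (i + 1) := by
    intro i p hp
    simp only [PP] at hp
    split_ifs at hp with h
    · obtain ⟨h1, h2⟩ := mem_filter.1 hp
      exact ⟨h2, mem_Ioc.1 h1⟩
    · simp at hp
  let QQ : ℕ → ℕ := fun n => ∏ i ∈ range n, ∏ p ∈ PP i, p
  have hQ0 : ∀ n, 0 < QQ n := fun n =>
    prod_pos fun i _ => prod_pos fun p hp => (hPP i p hp).1.pos
  have hQd : ∀ i n, i ≤ n → QQ i ∣ QQ n := fun i n h =>
    prod_dvd_prod_of_subset _ _ _ (range_mono h)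
  have hQs : ∀ i, QQ (i + 1) = QQ i * ∏ p ∈ PP i, p := fun i => prod_range_succ _ _
  obtain ⟨q, a, hq0, hqc, hqa, hqn⟩ := exists_approx hα (QQ I)
    (cm * (2 ^ L * 2 ^ L * (2 ^ I) ^ (2 ^ L))) ⌈2 * g * 2 ^ I / ε⌉₊ (hQ0 I)
    (ε / (7 * (cm + 1) * QQ I)) (by have := hQ0 I; positivity)
  have hq0' : 0 < q := by omega
  haveI : NeZero q := ⟨hq0'.ne'⟩
  set X := q * QQ I with hX
  have hX0 : 0 < X := Nat.mul_pos hq0' (hQ0 I)
  haveI : NeZero X := ⟨hX0.ne'⟩
  have hX' : (0 : ℝ) < X := by exact_mod_cast hX0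
  let M : ℕ → ℕ := fun i => q * QQ (min i I)
  have hMX : ∀ i, M i ∣ X := fun i => Nat.mul_dvd_mul_left q (hQd _ _ (min_le_right _ _))
  have hMs : ∀ i, i < I → M (i + 1) = M i * ∏ p ∈ PP i, p := by
    intro i hi
    simp only [M]
    rw [min_eq_left hi, min_eq_left hi.le, hQs, mul_assoc]
  have hpQ : ∀ i, i < I → ∀ p ∈ PP i, p ∣ QQ I := by
    intro i hi p hp
    refine dvd_trans ?_ (hQd (i + 1) I hi)
    rw [hQs]
    exact Dvd.dvd.mul_left (dvd_prod_of_mem (fun p => p) hp) _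
  have hcq : ∀ i, i < I → ∀ p ∈ PP i, Nat.Coprime q p := fun i hi p hp =>
    hqc.coprime_dvd_right (hpQ i hi p hp)
  have hcM : ∀ i, i < I → ∀ p ∈ PP i, Nat.Coprime (M i) p := by
    intro i hi p hp
    refine Nat.Coprime.mul_left (hcq i hi p hp) ?_
    rw [min_eq_left hi.le]
    refine Nat.Coprime.prod_left fun i' hi' => Nat.Coprime.prod_left fun p' hp' => ?_
    refine (Nat.coprime_primes (hPP _ _ hp').1 (hPP _ _ hp).1).2 ?_
    have a1 := (hPP _ _ hp').2.2
    have a2 := (hPP _ _ hp).2.1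
    have a3 : 2 ^ (i' + 1) ≤ 2 ^ i := Nat.pow_le_pow_right (by norm_num) (mem_range.1 hi')
    omega
  have hsz : ∀ i, ∀ p ∈ PP i, p ≤ 2 ^ (i + 1) ∧ 2 ^ (i + 1) < 2 * p := by
    intro i p hp
    have := (hPP _ _ hp).2
    rw [pow_succ] at this ⊢
    omega
  let D : ℕ → ℝ := fun i =>
    CH (blk (Equiv.addRight (1 : ZMod X)) (fun m => x m.val) ((g + 1) * 2 ^ (i + 1)))
        (fun m => m.val % M i) -
      CH (blk (Equiv.addRight (1 : ZMod X)) (fun m => x m.val) ((g + 1) * 2 ^ (i + 1)))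
        (fun m => m.val % M (i + 1))
  have hdec : ∑ i ∈ range I, D i / (2 * (g + 1) * 2 ^ i) ≤ X * Real.log (Fintype.card A) := by
    have := decrement (Equiv.addRight (1 : ZMod X)) (fun m => x m.val) (fun i m => m.val % M i)
      (fun i m m' => cov X (M i) (hMX i) m m') (2 * (g + 1)) (by positivity) I
    rw [ZMod.card] at this
    refine le_trans (le_of_eq (sum_congr rfl fun i _ => ?_)) this
    have e : 2 * (g + 1) * 2 ^ i = (g + 1) * 2 ^ (i + 1) := by ring
    simp only [D]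
    rw [e]
    push_cast
    rfl
  have hD0 : ∀ i, i < I → 0 ≤ D i := by
    intro i hi
    have := entropy_step X (fun m => x m.val) (M i) (PP i) (2 ^ (i + 1)) ((g + 1) * 2 ^ (i + 1))
      (by rw [← hMs i hi]; exact hMX _) (fun p hp => (hPP _ _ hp).1) (hcM i hi) (hsz i)
      (by positivity) (fun _ _ _ => 0) (by simp) 0 le_rfl (by norm_num)
    rw [← hMs i hi] at this
    simp only [D]
    simpa using this
  have hex : ∃ i, i < I ∧ Good L ρ ε i ∧ D i ≤ ε ^ 2 / 64 * (prs i).card * X := by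
    by_contra hcon
    push Not at hcon
    have h1 : ∑ i ∈ (range I).filter (Good L ρ ε),
        ε ^ 2 / 64 * X / (2 * (g + 1)) * (((prs i).card : ℝ) / 2 ^ i) ≤
        ∑ i ∈ range I, D i / (2 * (g + 1) * 2 ^ i) := by
      rw [sum_filter]
      refine sum_le_sum fun i hi => ?_
      rw [mem_range] at hi
      split_ifs with h
      · have := (hcon i hi h).le
        rw [le_div_iff₀ (by positivity)]
        refine le_trans (le_of_eq ?_) this
        field_simp
      · exact div_nonneg (hD0 i hi) (by positivity)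
    rw [← mul_sum] at h1
    have h2 := mul_lt_mul_of_pos_left hI
      (by positivity : (0 : ℝ) < ε ^ 2 / 64 * X / (2 * (g + 1)))
    have h3 : ε ^ 2 / 64 * X / (2 * (g + 1)) *
        (Real.log (Fintype.card A) * (2 * (g + 1)) / (ε ^ 2 / 64)) =
        X * Real.log (Fintype.card A) := by field_simp
    linarith
  obtain ⟨i, hi, hgood, hDi⟩ := hex
  have hPi : PP i = prs i := if_pos hgood
  have hcard : (0 : ℝ) < (prs i).card := by
    have h1 := hgood.2
    have h2 : (0 : ℝ) < 3 * 2 ^ (i + 1) * ρ ^ (i + 1) := by positivity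
    by_contra h3
    have : ε * ((prs i).card : ℝ) ≤ 0 := mul_nonpos_of_nonneg_of_nonpos hε.le (not_lt.1 h3)
    linarith
  have hpX : ∀ p ∈ PP i, p ∣ X := fun p hp => (hpQ i hi p hp).trans (dvd_mul_left _ _)
  refine ⟨PP i, X, ?_, hX0, fun p hp => ⟨(hPP _ _ hp).1.pos, hpX p hp⟩, ?_⟩
  · rw [hPi, ← card_pos]; exact_mod_cast hcard
  intro c hc0 hc b hb s hs
  have sD := stepD X q x (M i) (PP i) (2 ^ (i + 1)) g (dvd_mul_right _ _)
    (by rw [← hMs i hi]; exact hMX _) (fun p hp => (hPP _ _ hp).1) (hcM i hi) (hsz i)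
    (by positivity) ε hε hε1 (by rw [← hMs i hi, hPi]; exact hDi) ((c * a : ℤ) : ZMod q) b hb s hs
  have sE := stepE X q x (PP i) (2 ^ (i + 1)) (dvd_mul_right _ _) (fun p hp => (hPP _ _ hp).1)
    (hcq i hi) (by positivity) (L := L)
    (fun p hp => ⟨(hPP _ _ hp).2.2, lt_of_le_of_lt
      (Nat.pow_le_pow_right (by norm_num) hgood.1) (hPP _ _ hp).2.1⟩)
    (ρ ^ (i + 1)) (by positivity) (pow_le_one₀ hρ0.le hρ1.le)
    (by rw [← pow_mul, mul_comm, pow_mul, hρ]; push_cast; rw [one_div_pow])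
    ((c * a : ℤ) : ZMod q)
    (fun N hN0 hN h => by
      rw [← Int.cast_mul, ZMod.intCast_zmod_eq_zero_iff_dvd] at h
      refine hqn (c * N) (mul_ne_zero hc0 hN0) ?_ (by rwa [mul_right_comm])
      rw [abs_mul]
      push_cast
      refine mul_le_mul hc (hN.trans ?_) (abs_nonneg _) (by positivity)
      push_cast
      gcongr
      · norm_num
      · omega) b hb s
  have hη : |c * (α - a / q)| * X ≤ ε / 7 := by
    have hq' : (0 : ℝ) < q := by exact_mod_cast hq0'
    have hQ' : (0 : ℝ) < QQ I := by exact_mod_cast hQ0 I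
    have e : |c * (α - a / q)| * X = |(c : ℝ)| * |q * α - a| * QQ I := by
      have : α - a / q = (q * α - a) / q := by field_simp
      rw [this, abs_mul, abs_div, abs_of_pos hq', hX]
      push_cast
      field_simp
    have hc' : |(c : ℝ)| ≤ cm + 1 := by
      have : |(c : ℝ)| ≤ cm := by exact_mod_cast hc
      linarith
    rw [e]
    calc _ ≤ (cm + 1) * (ε / (7 * (cm + 1) * QQ I)) * QQ I := by gcongr
      _ = _ := by field_simp
  have sF : ∀ p ∈ PP i, ‖(p : ℂ) * ∑ k ∈ range (X / p),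
      ee (c * α * k) * ∏ l, b l (x (p * (k + s l))) -
      ∑ m : ZMod X, (((p : ℝ) * (if p ∣ m.val then 1 else 0) : ℝ) : ℂ) *
        FF X q x ((c * a : ℤ) : ZMod q) b s p m‖ ≤ 2 * ε * X := by
    intro p hp
    refine (stepF X q x p g (hpX p hp) (hcq i hi p hp) α a c (ε / 7) hη b hb s hs).trans ?_
    have a1 : (p : ℝ) ≤ 2 ^ I := by
      have := (hPP _ _ hp).2.2.trans (Nat.pow_le_pow_right (by norm_num) hi)
      exact_mod_cast this
    have a2 : 2 * g * 2 ^ I / ε ≤ q := (Nat.le_ceil _).trans (by exact_mod_cast hq0.le)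
    have a3 : (q : ℝ) ≤ X := by
      exact_mod_cast Nat.le_mul_of_pos_right q (hQ0 I)
    rw [div_le_iff₀ hε] at a2
    have a4 : (2 * g * p : ℝ) ≤ 2 * g * 2 ^ I := by gcongr
    nlinarith
  have e : ∑ p ∈ PP i, (p : ℂ) * ∑ k ∈ range (X / p),
      ee (c * α * k) * ∏ l, b l (x (p * (k + s l))) =
      ∑ p ∈ PP i, ((p : ℂ) * ∑ k ∈ range (X / p),
        ee (c * α * k) * ∏ l, b l (x (p * (k + s l))) -
        ∑ m : ZMod X, (((p : ℝ) * (if p ∣ m.val then 1 else 0) : ℝ) : ℂ) *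
          FF X q x ((c * a : ℤ) : ZMod q) b s p m) +
      (∑ m : ZMod X, ∑ p ∈ PP i, (((p : ℝ) * (if p ∣ m.val then 1 else 0) - 1 : ℝ) : ℂ) *
        FF X q x ((c * a : ℤ) : ZMod q) b s p m +
      ∑ m : ZMod X, ∑ p ∈ PP i, FF X q x ((c * a : ℤ) : ZMod q) b s p m) := by
    rw [sum_sub_distrib, ← sum_add_distrib, sum_comm (s := PP i) (t := univ)]
    simp only [← sum_add_distrib]
    rw [sub_add, ← sum_sub_distrib]
    simp only [← sum_sub_distrib]
    rw [eq_comm, sub_eq_self]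
    refine sum_eq_zero fun m _ => sum_eq_zero fun p _ => ?_
    push_cast
    ring
  rw [e]
  refine (norm_add_le _ _).trans ?_
  have f1 := (norm_sum_le _ _).trans (sum_le_card_nsmul _ _ _ sF)
  rw [nsmul_eq_mul] at f1
  have f2 := (norm_add_le _ _).trans (add_le_add sD sE)
  have f3 := mul_le_mul_of_nonneg_right hgood.2 hX'.le
  rw [← hPi] at f3
  rw [Nat.cast_pow, Nat.cast_ofNat] at f2
  linarith

theorem norm_prod_sub {ι : Type*} (s : Finset ι) (f g : ι → ℂ) (η : ℝ) (hf : ∀ i, ‖f i‖ ≤ 1)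
    (hg : ∀ i, ‖g i‖ ≤ 1) (h : ∀ i, ‖f i - g i‖ ≤ η) :
    ‖∏ i ∈ s, f i - ∏ i ∈ s, g i‖ ≤ s.card * η := by
  classical
  induction s using Finset.induction_on with
  | empty => simp
  | insert a s ha ih =>
    rw [prod_insert ha, prod_insert ha, card_insert_of_notMem ha]
    have e : f a * ∏ i ∈ s, f i - g a * ∏ i ∈ s, g i =
        f a * (∏ i ∈ s, f i - ∏ i ∈ s, g i) + (f a - g a) * ∏ i ∈ s, g i := by ring
    have h1 : ‖∏ i ∈ s, g i‖ ≤ 1 := by
      rw [norm_prod]
      exact prod_le_one (fun _ _ => norm_nonneg _) fun l _ => hg l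
    rw [e]
    refine (norm_add_le _ _).trans ?_
    rw [norm_mul, norm_mul]
    push_cast
    have := hf a
    have := h a
    nlinarith [norm_nonneg (f a), norm_nonneg (f a - g a), norm_nonneg (∏ i ∈ s, g i),
      norm_nonneg (∏ i ∈ s, f i - ∏ i ∈ s, g i)]

theorem exists_net (η : ℝ) (hη : 0 < η) : ∃ (F : Finset ℂ) (r : ℂ → F),
    (∀ z ∈ F, ‖z‖ ≤ 1) ∧ ∀ z : ℂ, ‖z‖ ≤ 1 → ‖z - r z‖ ≤ η := by
  obtain ⟨t, ht, htf, hcov⟩ := (isCompact_closedBall (0 : ℂ) 1).finite_cover_balls hη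
  have h0 : ∀ z : ℂ, ‖z‖ ≤ 1 → ∃ y : htf.toFinset, ‖z - y‖ ≤ η := by
    intro z hz
    have := hcov (show z ∈ Metric.closedBall (0 : ℂ) 1 by simpa using hz)
    simp only [Set.mem_iUnion, Metric.mem_ball, exists_prop] at this
    obtain ⟨y, hy, hzy⟩ := this
    exact ⟨⟨y, by simpa using hy⟩, by rw [← dist_eq_norm]; exact hzy.le⟩
  obtain ⟨y0, _⟩ := h0 0 (by simp)
  have h1 : ∀ z : ℂ, ∃ y : htf.toFinset, ‖z‖ ≤ 1 → ‖z - y‖ ≤ η := by
    intro z
    by_cases hz : ‖z‖ ≤ 1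
    · obtain ⟨y, hy⟩ := h0 z hz
      exact ⟨y, fun _ => hy⟩
    · exact ⟨y0, fun h => absurd h hz⟩
  choose r hr using h1
  refine ⟨htf.toFinset, r, fun z hz => ?_, hr⟩
  have := ht (htf.mem_toFinset.1 hz)
  simpa using this

theorem main {α : ℝ} (hα : Irrational α) (ℓ : ℕ) (a : Fin ℓ → ℕ → ℂ)
    (ha : ∀ j n, 1 ≤ n → ‖a j n‖ = 1) (h : Fin ℓ → ℕ) (C : ℝ) :
    ∃ d n : ℕ, 1 ≤ d ∧ 1 ≤ n ∧
      C < ‖∑ k ∈ Icc 1 n, ee ((k : ℝ) ^ 2 * α) * ∏ j, a j (d * (k + h j))‖ := by
  classical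
  by_contra hcon
  push Not at hcon
  have hC : 0 ≤ C := (norm_nonneg _).trans (hcon 1 1 le_rfl le_rfl)
  set w : ℕ → ℕ → ℂ := fun d k => ee ((k : ℝ) ^ 2 * α) * ∏ j, a j (d * (k + h j)) with hw
  have hwn : ∀ d k, 1 ≤ d → 1 ≤ k → ‖w d k‖ = 1 := by
    intro d k hd hk
    simp only [hw, norm_mul, norm_ee, one_mul, norm_prod]
    exact prod_eq_one fun j _ => ha j _ (Nat.mul_pos hd (by omega))
  have h0 : ∀ d n, 1 ≤ d → ‖∑ k ∈ Ioc 0 n, w d k‖ ≤ C := by
    intro d n hd
    rcases Nat.eq_zero_or_pos n with rfl | hn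
    · simpa using hC
    · exact hcon d n hd hn
  obtain ⟨H, hH⟩ := exists_nat_gt (4 * C ^ 2 + 1)
  have hH0 : (0 : ℝ) < H := by nlinarith
  have h1 : ∀ d k, 1 ≤ d → ‖∑ s ∈ range H, w d (k + s + 1)‖ ≤ 2 * C := by
    intro d k hd
    have e : ∑ s ∈ range H, w d (k + s + 1) =
        ∑ s ∈ Ioc 0 (k + H), w d s - ∑ s ∈ Ioc 0 k, w d s := by
      rw [← sum_Ioc_consecutive (w d) (m := 0) (n := k) (k := k + H) (by omega) (by omega),
        add_sub_cancel_left]
      refine sum_bij (fun s _ => k + s + 1) ?_ ?_ ?_ ?_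
      · intro s hs; rw [mem_range] at hs; rw [mem_Ioc]; omega
      · intro s _ s' _ hss; omega
      · intro t ht; rw [mem_Ioc] at ht; exact ⟨t - k - 1, by rw [mem_range]; omega, by omega⟩
      · intro _ _; rfl
    rw [e]
    have := h0 d (k + H) hd
    have := h0 d k hd
    linarith [norm_sub_le (∑ s ∈ Ioc 0 (k + H), w d s) (∑ s ∈ Ioc 0 k, w d s)]
  set ε : ℝ := 1 / (8 * H ^ 2) with hε
  have hH1 : (1 : ℝ) ≤ H := by nlinarith
  have hε0 : 0 < ε := by positivity
  have hε1 : ε ≤ 1 := by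
    rw [hε, div_le_one (by positivity)]; nlinarith
  obtain ⟨F, r, hF, hr⟩ := exists_net (4 * ε / (ℓ + ℓ + 1)) (by positivity)
  haveI : Nonempty (Fin ℓ → F) := ⟨fun _ => r 0⟩
  obtain ⟨Pr, X, hne, hX0, hPr, hcore⟩ := core (A := Fin ℓ → F) hα (ℓ + ℓ)
    (H + ∑ j, h j) (2 * H) ε hε0 hε1 (fun n j => r (a j n))
  have hn0 : (0 : ℝ) < Pr.card := by exact_mod_cast hne.card_pos
  have hX' : (0 : ℝ) < X := by exact_mod_cast hX0
  have hwt : ∀ z : ℝ, ∑ p ∈ Pr, (p : ℝ) * ∑ _k ∈ range (X / p), z = z * (Pr.card * X) := by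
    intro z
    have : ∀ p ∈ Pr, (p : ℝ) * ∑ _k ∈ range (X / p), z = z * X := by
      intro p hp
      rw [sum_const, card_range, nsmul_eq_mul, ← mul_assoc, ← Nat.cast_mul,
        Nat.mul_div_cancel' (hPr p hp).2, mul_comm]
    rw [sum_congr rfl this, sum_const, nsmul_eq_mul]
    ring
  let T : ℕ → ℕ → ℂ := fun s s' => ∑ p ∈ Pr, (p : ℂ) * ∑ k ∈ range (X / p),
    w p (k + s + 1) * conj (w p (k + s' + 1))
  have hdiag : ∀ s, T s s = ((Pr.card * X : ℝ) : ℂ) := by
    intro s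
    have := hwt 1
    rw [one_mul] at this
    rw [← this]
    push_cast
    refine sum_congr rfl fun p hp => ?_
    congr 1
    refine sum_congr rfl fun k _ => ?_
    rw [Complex.mul_conj', hwn p _ (hPr p hp).1 (by omega)]
    simp
  have hoff : ∀ s ∈ range H, ∀ s' ∈ range H, s ≠ s' → ‖T s s'‖ ≤ 8 * ε * (Pr.card * X) := by
    intro s hs s' hs' hss
    rw [mem_range] at hs hs'
    let b : Fin (ℓ + ℓ) → (Fin ℓ → F) → ℂ :=
      Fin.append (fun j y => (y j : ℂ)) (fun j y => conj (y j : ℂ))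
    let t : Fin (ℓ + ℓ) → ℕ := Fin.append (fun j => s + 1 + h j) (fun j => s' + 1 + h j)
    have hh : ∀ j, h j ≤ ∑ j, h j := fun j =>
      single_le_sum (f := h) (fun _ _ => Nat.zero_le _) (mem_univ j)
    have k1 := hcore (2 * ((s : ℤ) - s')) (by omega) (by rw [abs_le]; push_cast; omega) b
      (fun l y => by
        refine Fin.addCases (fun j => ?_) (fun j => ?_) l
        · simp only [b, Fin.append_left]; exact hF _ (y j).2
        · simp only [b, Fin.append_right, Complex.norm_conj]; exact hF _ (y j).2)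
      t (fun l => by
        refine Fin.addCases (fun j => ?_) (fun j => ?_) l
        · simp only [t, Fin.append_left]; have := hh j; omega
        · simp only [t, Fin.append_right]; have := hh j; omega)
    set u : ℂ := ee ((((s : ℝ) + 1) ^ 2 - ((s' : ℝ) + 1) ^ 2) * α) with hu
    let aa : ℕ → ℕ → Fin (ℓ + ℓ) → ℂ := fun p k =>
      Fin.append (fun j => a j (p * (k + (s + 1 + h j))))
        (fun j => conj (a j (p * (k + (s' + 1 + h j)))))
    have k2 : ∀ p k : ℕ, w p (k + s + 1) * conj (w p (k + s' + 1)) =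
        u * (ee (((2 * ((s : ℤ) - s') : ℤ) : ℝ) * α * k) * ∏ l, aa p k l) := by
      intro p k
      simp only [hw, hu, aa, map_mul, map_prod, conj_ee, Fin.prod_univ_add, Fin.append_left,
        Fin.append_right, add_assoc]
      rw [← mul_assoc (ee _) (ee _), ← ee_add, mul_mul_mul_comm, ← ee_add]
      congr 2
      push_cast
      ring
    have k3 : ∀ p ∈ Pr, ∀ k : ℕ, ‖∏ l, aa p k l - ∏ l, b l (fun j => r (a j (p * (k + t l))))‖ ≤
        4 * ε := by
      intro p hp k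
      have hp0 := (hPr p hp).1
      refine (norm_prod_sub univ _ _ (4 * ε / (ℓ + ℓ + 1)) ?_ ?_ ?_).trans ?_
      · intro l
        refine Fin.addCases (fun j => ?_) (fun j => ?_) l
        · simp only [aa, Fin.append_left]; exact (ha _ _ (Nat.mul_pos hp0 (by omega))).le
        · simp only [aa, Fin.append_right, Complex.norm_conj]
          exact (ha _ _ (Nat.mul_pos hp0 (by omega))).le
      · intro l
        refine Fin.addCases (fun j => ?_) (fun j => ?_) l
        · simp only [b, Fin.append_left]; exact hF _ (r _).2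
        · simp only [b, Fin.append_right, Complex.norm_conj]; exact hF _ (r _).2
      · intro l
        refine Fin.addCases (fun j => ?_) (fun j => ?_) l
        · simp only [aa, b, t, Fin.append_left]
          exact hr _ (ha _ _ (Nat.mul_pos hp0 (by omega))).le
        · simp only [aa, b, t, Fin.append_right]
          rw [← map_sub, Complex.norm_conj]
          exact hr _ (ha _ _ (Nat.mul_pos hp0 (by omega))).le
      · rw [card_univ, Fintype.card_fin, ← mul_div_assoc, div_le_iff₀ (by positivity)]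
        push_cast
        nlinarith
    have k4 : T s s' = u * (∑ p ∈ Pr, (p : ℂ) * ∑ k ∈ range (X / p),
        ee (((2 * ((s : ℤ) - s') : ℤ) : ℝ) * α * k) *
          (∏ l, aa p k l - ∏ l, b l (fun j => r (a j (p * (k + t l))))) +
        ∑ p ∈ Pr, (p : ℂ) * ∑ k ∈ range (X / p), ee (((2 * ((s : ℤ) - s') : ℤ) : ℝ) * α * k) *
          ∏ l, b l (fun j => r (a j (p * (k + t l))))) := by
      simp only [T, k2]
      rw [← sum_add_distrib, mul_sum]
      refine sum_congr rfl fun p _ => ?_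
      rw [← mul_add, ← sum_add_distrib, ← mul_sum, mul_left_comm]
      congr 2
      refine sum_congr rfl fun k _ => ?_
      ring
    rw [k4, norm_mul, hu, norm_ee, one_mul]
    refine (norm_add_le _ _).trans ?_
    have k5 : ‖∑ p ∈ Pr, (p : ℂ) * ∑ k ∈ range (X / p),
        ee (((2 * ((s : ℤ) - s') : ℤ) : ℝ) * α * k) *
          (∏ l, aa p k l - ∏ l, b l (fun j => r (a j (p * (k + t l)))))‖ ≤
        4 * ε * (Pr.card * X) := by
      rw [← hwt]
      refine (norm_sum_le _ _).trans (sum_le_sum fun p hp => ?_)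
      rw [norm_mul, Complex.norm_natCast]
      refine mul_le_mul_of_nonneg_left ?_ (by positivity)
      refine (norm_sum_le _ _).trans (sum_le_sum fun k _ => ?_)
      rw [norm_mul, norm_ee, one_mul]
      exact k3 p hp k
    linarith
  have up : (∑ s ∈ range H, ∑ s' ∈ range H, T s s').re ≤ (2 * C) ^ 2 * (Pr.card * X) := by
    have e : ∑ s ∈ range H, ∑ s' ∈ range H, T s s' =
        ((∑ p ∈ Pr, (p : ℝ) * ∑ k ∈ range (X / p), ‖∑ s ∈ range H, w p (k + s + 1)‖ ^ 2 : ℝ) : ℂ) := by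
      push_cast
      simp only [← Complex.mul_conj', map_sum, sum_mul_sum, T]
      simp only [mul_sum]
      rw [sum_congr rfl fun s _ => sum_comm, sum_comm]
      refine sum_congr rfl fun p _ => ?_
      rw [sum_congr rfl fun s _ => sum_comm, sum_comm]
    rw [e, Complex.ofReal_re, ← hwt]
    refine sum_le_sum fun p hp => mul_le_mul_of_nonneg_left (sum_le_sum fun k _ => ?_)
      (by positivity)
    exact pow_le_pow_left₀ (norm_nonneg _) (h1 p k (hPr p hp).1) 2
  have low : (H - 1) * (Pr.card * X : ℝ) ≤ (∑ s ∈ range H, ∑ s' ∈ range H, T s s').re := by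
    rw [Complex.re_sum]
    have : ∀ s ∈ range H, (1 - H * (8 * ε)) * (Pr.card * X : ℝ) ≤
        (∑ s' ∈ range H, T s s').re := by
      intro s hs
      rw [← add_sum_erase _ _ hs, Complex.add_re, hdiag, Complex.ofReal_re]
      have b1 : ‖∑ s' ∈ (range H).erase s, T s s'‖ ≤ H * (8 * ε * (Pr.card * X)) := by
        refine (norm_sum_le _ _).trans ((sum_le_card_nsmul _ _ _ fun s' hs' =>
          hoff s hs s' (mem_of_mem_erase hs') (ne_of_mem_erase hs').symm).trans ?_)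
        rw [nsmul_eq_mul]
        refine mul_le_mul_of_nonneg_right ?_ (by positivity)
        have : ((range H).erase s).card ≤ H := by
          simpa using card_erase_le (s := range H) (a := s)
        exact_mod_cast this
      have b2 := (abs_le.1 ((Complex.abs_re_le_norm _).trans b1)).1
      linarith
    refine le_trans (le_of_eq ?_) (sum_le_sum this)
    rw [sum_const, card_range, nsmul_eq_mul, hε]
    field_simp
  have fin : (H - 1) * (Pr.card * X : ℝ) ≤ (2 * C) ^ 2 * (Pr.card * X) := low.trans up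
  have := le_of_mul_le_mul_right fin (by positivity)
  nlinarith

end Pool.Agent.H905Z.Quad
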